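import Mathlib

set_option autoImplicit false

/-! Gap potentials: products of conjugates, ring products, transport data with colours. -/

namespace Pool.Agent.H259R3.GP

section grp

variable {G : Type*} [Group G]

/-- products of `n` conjugates of elements of `S` -/
inductive PC (S : Set G) : ℕ → G → Prop
  | one : PC S 0 1
  | mul {n : ℕ} {g : G} (a s : G) : s ∈ S → PC S n g → PC S (n + 1) (a * s * a⁻¹ * g)

theorem PC.conj {S : Set G} {n : ℕ} {g : G} (h : PC S n g) (b : G) : PC S n (b * g * b⁻¹) := by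
  induction h with
  | one => simpa using PC.one
  | @mul n g a s hs _ ih =>
    have : b * (a * s * a⁻¹ * g) * b⁻¹ = (b * a) * s * (b * a)⁻¹ * (b * g * b⁻¹) := by group
    rw [this]
    exact PC.mul _ _ hs ih

theorem PC.insert {S : Set G} {n : ℕ} {x y s : G} (h : PC S n (x * y)) (hs : s ∈ S) :
    PC S (n + 1) (x * s * y) := by
  have : x * s * y = x * s * x⁻¹ * (x * y) := by group
  rw [this]
  exact PC.mul _ _ hs h

/-- product of the first `n` elements -/
def rp (T : ℕ → G) : ℕ → G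
  | 0 => 1
  | n + 1 => rp T n * T n

theorem rp_succ (T : ℕ → G) (n : ℕ) : rp T (n + 1) = rp T n * T n := rfl

open Classical in
theorem refine_aux {S : Set G} (V T T' : ℕ → G)
    (hS : ∀ j, V j * T' (2 * j) * T' (2 * j + 1) * (V (j + 1))⁻¹ * (T j)⁻¹ ∈ S) (n : ℕ) :
    ∀ (N : ℕ) (z : G), PC S N (rp T n * z) →
      PC S (N + ((Finset.range n).filter (fun j =>
        V j * T' (2 * j) * T' (2 * j + 1) * (V (j + 1))⁻¹ * (T j)⁻¹ ≠ 1)).card)
        (V 0 * rp T' (2 * n) * (V n)⁻¹ * z) := by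
  induction n with
  | zero =>
    intro N z h
    simpa [rp] using h
  | succ n ih =>
    intro N z h
    set s := V n * T' (2 * n) * T' (2 * n + 1) * (V (n + 1))⁻¹ * (T n)⁻¹ with hs
    have e1 : V 0 * rp T' (2 * (n + 1)) * (V (n + 1))⁻¹ * z =
        V 0 * rp T' (2 * n) * (V n)⁻¹ * (s * (T n * z)) := by
      have : 2 * (n + 1) = 2 * n + 1 + 1 := by ring
      rw [this, rp_succ, rp_succ, hs]
      group
    rw [e1]
    have h' : PC S N (rp T n * (T n * z)) := by
      rw [← mul_assoc]; exact h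
    by_cases h1 : s = 1
    · have := ih N (s * (T n * z)) (by rw [h1, one_mul]; exact h')
      rw [Finset.range_add_one, Finset.filter_insert]
      rw [if_neg (by rw [← hs]; simpa using h1)]
      exact this
    · have h2 : PC S (N + 1) (rp T n * s * (T n * z)) := h'.insert (hS n)
      have := ih (N + 1) (s * (T n * z)) (by rw [← mul_assoc]; exact h2)
      rw [Finset.range_add_one, Finset.filter_insert, if_pos (by rw [← hs]; exact h1),
        Finset.card_insert_of_notMem (by simp)]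
      have e3 : N + ((Finset.filter (fun j => V j * T' (2 * j) * T' (2 * j + 1) * (V (j + 1))⁻¹ *
          (T j)⁻¹ ≠ 1) (Finset.range n)).card + 1) = N + 1 + (Finset.filter (fun j =>
          V j * T' (2 * j) * T' (2 * j + 1) * (V (j + 1))⁻¹ * (T j)⁻¹ ≠ 1) (Finset.range n)).card := by
        ring
      rw [e3]
      exact this

open Classical in
/-- passing from a ring to its refinement -/
theorem refine_ring {S : Set G} (V T T' : ℕ → G) (n : ℕ) (hV : V n = V 0)
    (hS : ∀ j, V j * T' (2 * j) * T' (2 * j + 1) * (V (j + 1))⁻¹ * (T j)⁻¹ ∈ S)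
    {N : ℕ} (h : PC S N (rp T n)) :
    PC S (N + ((Finset.range n).filter (fun j =>
        V j * T' (2 * j) * T' (2 * j + 1) * (V (j + 1))⁻¹ * (T j)⁻¹ ≠ 1)).card)
        (rp T' (2 * n)) := by
  have h1 := refine_aux V T T' hS n N 1 (by simpa using h)
  rw [mul_one, hV] at h1
  have h2 := h1.conj (V 0)⁻¹
  have e : (V 0)⁻¹ * (V 0 * rp T' (2 * n) * (V 0)⁻¹) * (V 0)⁻¹⁻¹ = rp T' (2 * n) := by group
  rwa [e] at h2

end grp

/-- transport data: colours with pairwise transition elements -/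
structure TD (ι : Type*) (G : Type*) [Group G] (N : Type*) [PseudoEMetricSpace N] where
  g : ι → ι → G
  close : ι → ι → Prop
  c : N → ι
  ε : ENNReal
  one : ∀ i, g i i = 1
  refl : ∀ i, close i i
  symm : ∀ i j, close i j → close j i
  mul : ∀ i j k, close i j → close j k → close i k → g i j * g j k = g i k
  near : ∀ p q, edist p q ≤ ε → close (c p) (c q)

namespace TD

variable {ι G N : Type*} [Group G] [PseudoEMetricSpace N] (D : TD ι G N)

open Classical in
/-- the transition -/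
noncomputable def T (p q : N) : G := if edist p q ≤ D.ε then D.g (D.c p) (D.c q) else 1

/-- deep points -/
def deep (p : N) : Prop := ∀ q, edist p q ≤ D.ε → D.c q = D.c p

/-- gap pairs -/
def gap (p q : N) : Prop := D.ε < edist p q ∧ (¬ D.deep p ∨ ¬ D.deep q)

theorem T_self (p : N) : D.T p p = 1 := by
  unfold T
  split_ifs with h
  · exact D.one _
  · rfl

theorem T_of_le {p q : N} (h : edist p q ≤ D.ε) : D.T p q = D.g (D.c p) (D.c q) := by
  unfold T
  rw [if_pos h]

theorem T_of_deep {p q : N} (h : D.deep p ∨ D.deep q) : D.T p q = 1 := by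
  unfold T
  split_ifs with h1
  · rcases h with h | h
    · rw [h q h1, D.one]
    · rw [h p (by rwa [edist_comm]), D.one]
  · rfl

theorem T_inv (p q : N) : D.T q p = (D.T p q)⁻¹ := by
  unfold T
  by_cases h : edist p q ≤ D.ε
  · rw [if_pos h, if_pos (by rwa [edist_comm])]
    have h1 := D.near p q h
    have h2 := D.mul (D.c p) (D.c q) (D.c p) h1 (D.symm _ _ h1) (D.refl _)
    rw [D.one] at h2
    exact (inv_eq_of_mul_eq_one_right h2).symm
  · rw [if_neg h, if_neg (by rwa [edist_comm])]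
    simp

theorem gap_symm {p q : N} (h : D.gap p q) : D.gap q p := ⟨by rw [edist_comm]; exact h.1, h.2.symm⟩

theorem flat {p q r : N} (h1 : ¬ D.gap p q) (h2 : ¬ D.gap q r) (h3 : ¬ D.gap p r) :
    D.T p q * D.T q r = D.T p r := by
  by_cases hall : edist p q ≤ D.ε ∧ edist q r ≤ D.ε ∧ edist p r ≤ D.ε
  · obtain ⟨a, b, c⟩ := hall
    rw [D.T_of_le a, D.T_of_le b, D.T_of_le c]
    exact D.mul _ _ _ (D.near _ _ a) (D.near _ _ b) (D.near _ _ c)
  · -- some pair is far, so two of the points are deep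
    unfold gap at h1 h2 h3
    push Not at h1 h2 h3
    have key : (D.deep p ∧ D.deep q) ∨ (D.deep q ∧ D.deep r) ∨ (D.deep p ∧ D.deep r) := by
      by_contra hc
      apply hall
      refine ⟨?_, ?_, ?_⟩
      · by_contra h; push Not at h; exact hc (Or.inl (h1 h))
      · by_contra h; push Not at h; exact hc (Or.inr (Or.inl (h2 h)))
      · by_contra h; push Not at h; exact hc (Or.inr (Or.inr (h3 h)))
    rcases key with h | h | h
    · rw [D.T_of_deep (Or.inl h.1), D.T_of_deep (Or.inl h.2), D.T_of_deep (Or.inl h.1), one_mul]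
    · rw [D.T_of_deep (Or.inr h.1), D.T_of_deep (Or.inl h.1), D.T_of_deep (Or.inr h.2), one_mul]
    · rw [D.T_of_deep (Or.inl h.1), D.T_of_deep (Or.inr h.2), D.T_of_deep (Or.inr h.2), one_mul]

/-- the finite set of pentagon holonomies -/
def S : Set G := {x | ∃ a b c d e : G, (∀ y ∈ ({a, b, c, d, e} : Set G),
  y = 1 ∨ ∃ i j, y = D.g i j) ∧ x = a * b * c * d⁻¹ * e⁻¹}

theorem T_mem (p q : N) : D.T p q = 1 ∨ ∃ i j, D.T p q = D.g i j := by
  unfold T
  split_ifs
  · exact Or.inr ⟨_, _, rfl⟩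
  · exact Or.inl rfl

theorem pent_mem (P0 P1 C0 C1 C2 : N) :
    D.T P0 C0 * D.T C0 C1 * D.T C1 C2 * (D.T P1 C2)⁻¹ * (D.T P0 P1)⁻¹ ∈ D.S := by
  refine ⟨D.T P0 C0, D.T C0 C1, D.T C1 C2, D.T P1 C2, D.T P0 P1, ?_, rfl⟩
  intro y hy
  simp only [Set.mem_insert_iff, Set.mem_singleton_iff] at hy
  rcases hy with rfl | rfl | rfl | rfl | rfl <;> exact D.T_mem _ _

theorem pent_flat {P0 P1 C0 C1 C2 : N} (h1 : ¬ D.gap P0 C0) (h2 : ¬ D.gap C0 C1)
    (h3 : ¬ D.gap P0 C1) (h4 : ¬ D.gap C1 C2) (h5 : ¬ D.gap P1 C2) (h6 : ¬ D.gap C1 P1)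
    (h7 : ¬ D.gap P0 P1) :
    D.T P0 C0 * D.T C0 C1 * D.T C1 C2 * (D.T P1 C2)⁻¹ * (D.T P0 P1)⁻¹ = 1 := by
  rw [D.flat h1 h2 h3, ← D.T_inv P1 C2, mul_assoc (D.T P0 C1),
    D.flat h4 (fun h => h5 (D.gap_symm h)) h6, D.flat h3 h6 h7, mul_inv_cancel]

theorem S_finite [Finite ι] : D.S.Finite := by
  have h0 : ({y : G | y = 1 ∨ ∃ i j, y = D.g i j}).Finite := by
    have : {y : G | y = 1 ∨ ∃ i j, y = D.g i j} = {1} ∪ Set.range (fun p : ι × ι => D.g p.1 p.2) := by
      ext y
      simp only [Set.mem_ofPred_eq, Set.mem_union, Set.mem_singleton_iff, Set.mem_range, Prod.exists]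
      constructor
      · rintro (h | ⟨i, j, h⟩)
        · exact Or.inl h
        · exact Or.inr ⟨i, j, h.symm⟩
      · rintro (h | ⟨i, j, h⟩)
        · exact Or.inl h
        · exact Or.inr ⟨i, j, h.symm⟩
    rw [this]
    exact (Set.finite_singleton _).union (Set.finite_range _)
  set A := {y : G | y = 1 ∨ ∃ i j, y = D.g i j} with hA
  have h1 : (A ×ˢ (A ×ˢ (A ×ˢ (A ×ˢ A)))).Finite :=
    h0.prod (h0.prod (h0.prod (h0.prod h0)))
  refine (h1.image (fun q => q.1 * q.2.1 * q.2.2.1 * (q.2.2.2.1)⁻¹ * (q.2.2.2.2)⁻¹)).subset ?_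
  rintro x ⟨a, b, c, d, e, h, rfl⟩
  refine ⟨(a, b, c, d, e), ?_, rfl⟩
  simp only [Set.mem_prod]
  exact ⟨h a (by simp), h b (by simp), h c (by simp), h d (by simp), h e (by simp)⟩

end TD

end Pool.Agent.H259R3.GP
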