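import Pool.Agent.H259R3.GP6

set_option autoImplicit false

/-! Gap potentials: free homotopy decompositions from products of conjugates. -/

namespace Pool.Agent.H259R3.GP

open Set Real
open scoped unitInterval

variable {N : Type*} [TopologicalSpace N]

/-- Free homotopy decomposition of a circle map `f` into the circle maps `fs i`: there are a map `g`
homotopic to `f` and pairwise disjoint nondegenerate closed arcs such that `g` is constant outside
the open arcs, and the map induced by `g` on each closed arc with its end points identified is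
homotopic to `fs i`. -/
def FreeDecomp (f : C(Circle, N)) {k : ℕ} (fs : Fin k → C(Circle, N)) : Prop :=
  ∃ (g : C(Circle, N)) (α β : Fin k → ℝ), f.Homotopic g ∧
    (∀ i, α i < β i ∧ β i < α i + 2 * π) ∧
    (∀ i j, i ≠ j → Disjoint (Circle.exp '' Icc (α i) (β i)) (Circle.exp '' Icc (α j) (β j))) ∧
    (∃ p, ∀ z, z ∉ ⋃ i, Circle.exp '' Ioo (α i) (β i) → g z = p) ∧
    ∀ i, ∃ h : C(Circle, N),
      (∀ s ∈ Icc (0 : ℝ) 1, h (Circle.exp (2 * π * s)) = g (Circle.exp (α i + s * (β i - α i)))) ∧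
      h.Homotopic (fs i)

/-- decomposition of loops -/
def Deco {p : N} (F : Set C(Circle, N)) (k : ℕ) (δ : Path p p) : Prop :=
  ∃ (a b : Fin k → ℝ) (fs : Fin k → C(Circle, N)), (∀ i, 0 < a i ∧ a i < b i ∧ b i ≤ 1) ∧
    (∀ i j, i ≠ j → Disjoint (Icc (a i) (b i)) (Icc (a j) (b j))) ∧
    (∀ t : ℝ, (∀ i, t ∉ Ioo (a i) (b i)) → δ.extend t = p) ∧
    ∀ i, fs i ∈ F ∧ ∃ h : C(Circle, N), h.Homotopic (fs i) ∧
      ∀ s ∈ Icc (0 : ℝ) 1, h (Circle.exp (2 * π * s)) = δ.extend (a i + s * (b i - a i))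

theorem Deco.zero {p : N} (F : Set C(Circle, N)) : Deco F 0 (Path.refl p) :=
  ⟨fun i => i.elim0, fun i => i.elim0, fun i => i.elim0, fun i => i.elim0, fun i => i.elim0,
    fun t _ => by simp, fun i => i.elim0⟩

theorem Deco.succ {p : N} {F : Set C(Circle, N)} {k : ℕ} {δ : Path p p} (h : Deco F k δ)
    (ℓ : Path p p) {φ : C(Circle, N)} (hφ : φ ∈ F) (hℓ : (lc ℓ).Homotopic φ) :
    Deco F (k + 1) (((Path.refl p).trans ℓ).trans δ) := by
  obtain ⟨a, b, fs, h1, h2, h3, h4⟩ := h
  have e1 : ∀ t : ℝ, t ≤ 1 / 4 → (((Path.refl p).trans ℓ).trans δ).extend t = p := by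
    intro t ht
    rw [Path.extend_trans_of_le_half _ _ (by linarith),
      Path.extend_trans_of_le_half _ _ (by linarith)]
    simp
  have e2 : ∀ t : ℝ, 1 / 4 ≤ t → t ≤ 1 / 2 →
      (((Path.refl p).trans ℓ).trans δ).extend t = ℓ.extend (4 * t - 1) := by
    intro t ht ht'
    rw [Path.extend_trans_of_le_half _ _ (by linarith),
      Path.extend_trans_of_half_le _ _ (by linarith)]
    congr 1
    ring
  have e3 : ∀ t : ℝ, 1 / 2 ≤ t →
      (((Path.refl p).trans ℓ).trans δ).extend t = δ.extend (2 * t - 1) := by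
    intro t ht
    rw [Path.extend_trans_of_half_le _ _ (by linarith)]
  refine ⟨Fin.cons (1 / 4) (fun i => 1 / 2 + a i / 2), Fin.cons (1 / 2) (fun i => 1 / 2 + b i / 2),
    Fin.cons φ fs, ?_, ?_, ?_, ?_⟩
  · intro i
    refine Fin.cases ?_ (fun i => ?_) i
    · simp only [Fin.cons_zero]
      norm_num
    · simp only [Fin.cons_succ]
      have := h1 i
      refine ⟨by linarith, by linarith, by linarith⟩
  · have hd : ∀ i, Disjoint (Icc (1 / 4 : ℝ) (1 / 2)) (Icc (1 / 2 + a i / 2) (1 / 2 + b i / 2)) := by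
      intro i
      rw [Set.disjoint_left]
      intro x hx hx'
      have := (h1 i).1
      have h5 := hx.2
      have h6 := hx'.1
      linarith
    intro i j
    refine Fin.cases ?_ (fun i => ?_) i <;> refine Fin.cases ?_ (fun j => ?_) j
    · intro hne
      exact absurd rfl hne
    · intro _
      simp only [Fin.cons_zero, Fin.cons_succ]
      exact hd j
    · intro _
      simp only [Fin.cons_zero, Fin.cons_succ]
      exact (hd i).symm
    · intro hne
      simp only [Fin.cons_succ]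
      have hne' : i ≠ j := fun hc => hne (by rw [hc])
      have h5 := h2 i j hne'
      rw [Set.disjoint_left] at h5 ⊢
      intro x hx hx'
      refine h5 (a := 2 * x - 1) ⟨?_, ?_⟩ ⟨?_, ?_⟩
      · have := hx.1; linarith
      · have := hx.2; linarith
      · have := hx'.1; linarith
      · have := hx'.2; linarith
  · intro t ht
    rcases le_or_gt t (1 / 4) with h5 | h5
    · exact e1 t h5
    · rcases lt_or_ge t (1 / 2) with h6 | h6
      · have := ht 0
        simp only [Fin.cons_zero] at this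
        exact absurd ⟨h5, h6⟩ this
      · rw [e3 t h6]
        apply h3
        intro i hi
        have := ht i.succ
        simp only [Fin.cons_succ] at this
        apply this
        exact ⟨by have := hi.1; linarith, by have := hi.2; linarith⟩
  · intro i
    refine Fin.cases ?_ (fun i => ?_) i
    · simp only [Fin.cons_zero]
      refine ⟨hφ, lc ℓ, hℓ, ?_⟩
      intro s hs
      have h5 := hs.1
      have h6 := hs.2
      rw [e2 _ (by linarith) (by linarith)]
      have h7 := lc_exp ℓ ⟨s, hs⟩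
      rw [h7, ← Path.extend_extends' ℓ ⟨s, hs⟩]
      congr 1
      change s = 4 * (1 / 4 + s * (1 / 2 - 1 / 4)) - 1
      ring
    · simp only [Fin.cons_succ]
      obtain ⟨h5, h, h6, h7⟩ := h4 i
      refine ⟨h5, h, h6, ?_⟩
      intro s hs
      have hs1 := hs.1
      have hs2 := hs.2
      have ha := h1 i
      rw [h7 s hs, e3 _ (by nlinarith)]
      congr 1
      ring

theorem deco_of_PC {p : N} {F : Set C(Circle, N)} {S : Set (LG p)}
    (hS : ∀ s ∈ S, ∃ ρ : Path p p, LG.mk ρ = s ∧ lc ρ ∈ F) {n : ℕ} {w : LG p} (h : PC S n w) :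
    ∃ δ : Path p p, LG.mk δ = w ∧ Deco F n δ := by
  induction h with
  | one => exact ⟨Path.refl p, rfl, Deco.zero F⟩
  | @mul n g a s hs _ ih =>
    obtain ⟨δ, hδ, hD⟩ := ih
    obtain ⟨ρ, hρ, hF⟩ := hS s hs
    obtain ⟨A, hA⟩ := LG.mk_surj a
    refine ⟨_, ?_, hD.succ (A.trans (ρ.trans A.symm)) hF (lc_conj A ρ)⟩
    rw [LG.mk_mul, LG.mk_mul, LG.mk_mul, LG.mk_mul, LG.mk_inv, LG.mk_refl, hA, hρ, hδ]
    group

theorem freeDecomp_of_deco {p : N} {F : Set C(Circle, N)} {k : ℕ} {δ : Path p p}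
    (h : Deco F k δ) {f : C(Circle, N)} (hf : f.Homotopic (lc δ)) :
    ∃ fs : Fin k → C(Circle, N), (∀ i, fs i ∈ F) ∧ FreeDecomp f fs := by
  obtain ⟨a, b, fs, h1, h2, h3, h4⟩ := h
  have hpi := Real.pi_pos
  refine ⟨fs, fun i => (h4 i).1, lc δ, fun i => 2 * π * a i, fun i => 2 * π * b i, hf, ?_, ?_, ?_, ?_⟩
  · intro i
    have := h1 i
    constructor
    · nlinarith
    · nlinarith
  · intro i j hij
    rw [Set.disjoint_left]
    rintro z ⟨x, hx, rfl⟩ ⟨y, hy, hxy⟩
    rw [Circle.exp_eq_exp] at hxy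
    obtain ⟨m, hm⟩ := hxy
    have hi := h1 i
    have hj := h1 j
    have hx1 := hx.1
    have hx2 := hx.2
    have hy1 := hy.1
    have hy2 := hy.2
    simp only at hx1 hx2 hy1 hy2
    have hm0 : m = 0 := by
      have h5 : (m : ℝ) < 1 := by nlinarith
      have h6 : (-1 : ℝ) < m := by nlinarith
      have h7 : m < 1 := by exact_mod_cast h5
      have h8 : -1 < m := by exact_mod_cast h6
      omega
    rw [hm0] at hm
    have hyx : y = x := by rw [hm]; simp
    have h5 := h2 i j hij
    rw [Set.disjoint_left] at h5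
    refine h5 (a := x / (2 * π)) ⟨?_, ?_⟩ ⟨?_, ?_⟩
    · rw [le_div_iff₀ (by positivity)]; linarith
    · rw [div_le_iff₀ (by positivity)]; linarith
    · rw [le_div_iff₀ (by positivity)]; linarith
    · rw [div_le_iff₀ (by positivity)]; linarith
  · refine ⟨p, fun z hz => ?_⟩
    obtain ⟨t, _, rfl⟩ := exists_exp z
    rw [lc_exp, ← Path.extend_extends' δ t]
    apply h3
    intro i hi
    apply hz
    rw [Set.mem_iUnion]
    refine ⟨i, 2 * π * t, ⟨?_, ?_⟩, rfl⟩
    · have := hi.1; simp only; nlinarith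
    · have := hi.2; simp only; nlinarith
  · intro i
    obtain ⟨_, h, hh, h5⟩ := h4 i
    refine ⟨h, fun s hs => ?_, hh⟩
    have hi := h1 i
    have hs1 := hs.1
    have hs2 := hs.2
    have hmem : a i + s * (b i - a i) ∈ Icc (0 : ℝ) 1 := ⟨by nlinarith, by nlinarith⟩
    have h6 := lc_exp δ ⟨_, hmem⟩
    rw [← Path.extend_extends' δ ⟨_, hmem⟩] at h6
    rw [h5 s hs]
    simp only at h6
    rw [← h6]
    congr 2
    ring

end Pool.Agent.H259R3.GP
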