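import Pool.Agent.H259R3.GP6

set_option autoImplicit false

/-! Gap potentials: compact manifolds have the uniform local structure. -/

namespace Pool.Agent.H259R3.GP

open Set Topology
open scoped unitInterval

theorem lsc_of_local {N : Type*} [PseudoEMetricSpace N] [CompactSpace N]
    (hloc : ∀ p : N, ∀ U ∈ 𝓝 p, ∃ V ∈ 𝓝 p, V ⊆ U ∧
      (∀ x ∈ V, ∀ y ∈ V, ∃ γ : Path x y, ∀ t, γ t ∈ V) ∧
      (∀ (x y : N) (γ γ' : Path x y), (∀ t, γ t ∈ V) → (∀ t, γ' t ∈ V) → γ.Homotopic γ')) :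
    ∃ (r1 r2 : ENNReal) (ρ : ℝ), 0 < ρ ∧ r2 = ENNReal.ofReal (5 * ρ) ∧ LSC N r1 r2 := by
  choose! V hV using hloc
  obtain ⟨δ1, hδ1, hL1⟩ := lebesgue_number_lemma_of_emetric_nhds (s := (univ : Set N))
    (c := fun p => V p univ) isCompact_univ (fun p _ => (hV p univ Filter.univ_mem).1)
  set r1 := min δ1 1 with hr1
  have hr1pos : 0 < r1 := lt_min hδ1 one_pos
  have hr1top : r1 ≠ ⊤ := ne_top_of_le_ne_top ENNReal.one_ne_top (min_le_right _ _)
  have hr8 : 0 < r1 / 8 := ENNReal.div_pos hr1pos.ne' (by norm_num)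
  have hr88 : r1 / 8 + r1 / 8 = r1 / 4 := by
    rw [← two_mul, ← mul_div_assoc]
    rw [ENNReal.div_eq_div_iff (by norm_num) (by norm_num) (by norm_num) (by norm_num)]
    ring
  obtain ⟨δ2, hδ2, hL2⟩ := lebesgue_number_lemma_of_emetric_nhds (s := (univ : Set N))
    (c := fun p => V p (Metric.eball p (r1 / 8))) isCompact_univ
    (fun p _ => (hV p _ (Metric.eball_mem_nhds p hr8)).1)
  set r2 := min δ2 (r1 / 4) with hr2
  have hr2pos : 0 < r2 := lt_min hδ2 (ENNReal.div_pos hr1pos.ne' (by norm_num))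
  have hr2top : r2 ≠ ⊤ := ne_top_of_le_ne_top (ENNReal.div_ne_top hr1top (by norm_num)) (min_le_right _ _)
  refine ⟨r1, r2, r2.toReal / 5, div_pos (ENNReal.toReal_pos hr2pos.ne' hr2top) (by norm_num), ?_, ?_⟩
  · rw [mul_div_cancel₀ _ (by norm_num : (5 : ℝ) ≠ 0), ENNReal.ofReal_toReal hr2top]
  · refine ⟨?_, ?_, hr2pos, min_le_right _ _, hr1top⟩
    · intro p x y γ γ' h1 h2
      obtain ⟨q, hq⟩ := hL1 p (mem_univ _)
      refine (hV q univ Filter.univ_mem).2.2.2 x y γ γ' (fun t => hq ?_) (fun t => hq ?_)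
      · rw [Metric.mem_eball, edist_comm]
        exact (h1 t).trans_le (min_le_left _ _)
      · rw [Metric.mem_eball, edist_comm]
        exact (h2 t).trans_le (min_le_left _ _)
    · intro x y hxy
      obtain ⟨q, hq⟩ := hL2 x (mem_univ _)
      have hx : x ∈ V q (Metric.eball q (r1 / 8)) := hq (Metric.mem_eball_self hδ2)
      have hy : y ∈ V q (Metric.eball q (r1 / 8)) := by
        apply hq
        rw [Metric.mem_eball, edist_comm]
        exact hxy.trans_le (min_le_left _ _)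
      have hVq := hV q _ (Metric.eball_mem_nhds q hr8)
      obtain ⟨γ, hγ⟩ := hVq.2.2.1 x hx y hy
      refine ⟨γ, fun t => ?_⟩
      have h1 : edist x q < r1 / 8 := hVq.2.1 hx
      have h2 : edist (γ t) q < r1 / 8 := hVq.2.1 (hγ t)
      calc edist x (γ t) ≤ edist x q + edist q (γ t) := edist_triangle _ _ _
        _ < r1 / 8 + r1 / 8 := by
            rw [edist_comm q]
            exact ENNReal.add_lt_add h1 h2
        _ = r1 / 4 := hr88

theorem local_of_manifold {E : Type*} [NormedAddCommGroup E] [NormedSpace ℝ E] {H : Type*}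
    [TopologicalSpace H] (𝓜 : ModelWithCorners ℝ E H) {N : Type*} [TopologicalSpace N]
    [ChartedSpace H N] (p : N) (U : Set N) (hU : U ∈ 𝓝 p) :
    ∃ V ∈ 𝓝 p, V ⊆ U ∧ (∀ x ∈ V, ∀ y ∈ V, ∃ γ : Path x y, ∀ t, γ t ∈ V) ∧
      (∀ (x y : N) (γ γ' : Path x y), (∀ t, γ t ∈ V) → (∀ t, γ' t ∈ V) → γ.Homotopic γ') := by
  set e := extChartAt 𝓜 p with he
  have h1 : e.target ∩ e.symm ⁻¹' U ∈ 𝓝[range 𝓜] (e p) :=
    Filter.inter_mem (extChartAt_target_mem_nhdsWithin p)
      (mem_nhdsWithin_of_mem_nhds (extChartAt_preimage_mem_nhds hU))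
  obtain ⟨ρ, hρ, hball⟩ := Metric.mem_nhdsWithin_iff.mp h1
  set W := Metric.ball (e p) ρ ∩ range 𝓜 with hW
  have hWc : Convex ℝ W := (convex_ball _ _).inter 𝓜.convex_range
  have hWt : ∀ w ∈ W, w ∈ e.target := fun w hw => (hball hw).1
  set V := e.source ∩ e ⁻¹' (Metric.ball (e p) ρ) with hV
  have hVW : ∀ x ∈ V, e x ∈ W := fun x hx =>
    ⟨hx.2, extChartAt_target_subset_range p (e.map_source hx.1)⟩
  have hWV : ∀ w ∈ W, e.symm w ∈ V := fun w hw =>
    ⟨e.map_target (hWt w hw), by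
      change e (e.symm w) ∈ Metric.ball (e p) ρ
      rw [e.right_inv (hWt w hw)]; exact hw.1⟩
  have hcs : ContinuousOn e.symm e.target := continuousOn_extChartAt_symm p
  have hce : ContinuousOn e e.source := continuousOn_extChartAt p
  refine ⟨V, ?_, ?_, ?_, ?_⟩
  · exact Filter.inter_mem (extChartAt_source_mem_nhds p)
      ((continuousAt_extChartAt p).preimage_mem_nhds (Metric.ball_mem_nhds _ hρ))
  · intro x hx
    have h2 := (hball (hVW x hx)).2
    rw [mem_preimage, e.left_inv hx.1] at h2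
    exact h2
  · intro x hx y hy
    have hmem : ∀ t : I, (1 - (t : ℝ)) • e x + (t : ℝ) • e y ∈ W := fun t =>
      hWc (hVW x hx) (hVW y hy) (by have := t.2.2; linarith) t.2.1 (by ring)
    refine ⟨⟨⟨fun t : I => e.symm ((1 - (t : ℝ)) • e x + (t : ℝ) • e y), ?_⟩, ?_, ?_⟩, fun t => hWV _ (hmem t)⟩
    · exact hcs.comp_continuous (by fun_prop) (fun t => hWt _ (hmem t))
    · simp [e.left_inv hx.1]
    · simp [e.left_inv hy.1]
  · intro x y γ γ' hγ hγ'
    have hc1 : Continuous fun t => e (γ t) := hce.comp_continuous γ.continuous (fun t => (hγ t).1)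
    have hc2 : Continuous fun t => e (γ' t) := hce.comp_continuous γ'.continuous (fun t => (hγ' t).1)
    have hmem : ∀ q : I × I, (1 - (q.1 : ℝ)) • e (γ q.2) + (q.1 : ℝ) • e (γ' q.2) ∈ W := fun q =>
      hWc (hVW _ (hγ _)) (hVW _ (hγ' _)) (by have := q.1.2.2; linarith) q.1.2.1 (by ring)
    refine ⟨⟨⟨⟨fun q : I × I => e.symm ((1 - (q.1 : ℝ)) • e (γ q.2) + (q.1 : ℝ) • e (γ' q.2)), ?_⟩,
      ?_, ?_⟩, ?_⟩⟩
    · refine hcs.comp_continuous ?_ (fun q => hWt _ (hmem q))
      have h3 : Continuous fun q : I × I => e (γ q.2) := hc1.comp continuous_snd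
      have h4 : Continuous fun q : I × I => e (γ' q.2) := hc2.comp continuous_snd
      exact ((continuous_const.sub (continuous_subtype_val.comp continuous_fst)).smul h3).add
        ((continuous_subtype_val.comp continuous_fst).smul h4)
    · intro t
      simp [e.left_inv (hγ t).1]
    · intro t
      simp [e.left_inv (hγ' t).1]
    · intro t q hq
      have hx := (hγ 0).1
      have hy := (hγ 1).1
      rw [Path.source] at hx
      rw [Path.target] at hy
      rcases hq with rfl | hq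
      · change e.symm ((1 - (t : ℝ)) • e (γ 0) + (t : ℝ) • e (γ' 0)) = γ 0
        rw [Path.source, Path.source, ← add_smul, sub_add_cancel, one_smul, e.left_inv hx]
      · rw [Set.mem_singleton_iff] at hq
        rw [hq]
        change e.symm ((1 - (t : ℝ)) • e (γ 1) + (t : ℝ) • e (γ' 1)) = γ 1
        rw [Path.target, Path.target, ← add_smul, sub_add_cancel, one_smul, e.left_inv hy]

end Pool.Agent.H259R3.GP
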