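import Pool.Agent.H259R3.GP1

set_option autoImplicit false

/-! Gap potentials: dyadic tower, colourings and averaging over colourings. -/

namespace Pool.Agent.H259R3.GP

open Finset

/-- the seven kinds of edges of a pentagon -/
def kd : Fin 7 → (ℕ × ℕ) × (ℕ × ℕ) :=
  ![((0, 0), (1, 0)), ((1, 0), (1, 1)), ((0, 0), (1, 1)), ((1, 1), (1, 2)), ((0, 1), (1, 2)),
    ((1, 1), (0, 1)), ((0, 0), (0, 1))]

/-- vertices of the pentagon -/
def vt {N : Type*} (q : ℕ → ℕ → N) (k j : ℕ) (d : ℕ × ℕ) : N := q (k + d.1) (2 ^ d.1 * j + d.2)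

section tower

variable {ι G N : Type*} [Group G] [PseudoEMetricSpace N]

open Classical in
theorem tower (D : TD ι G N) (q : ℕ → ℕ → N) (hq : ∀ k j, q k (j + 2 ^ k) = q k j) (K : ℕ) :
    ∃ cnt : ℕ, cnt ≤ ∑ k ∈ range K, ∑ j ∈ range (2 ^ k), ∑ e : Fin 7,
        (if D.gap (vt q k j (kd e).1) (vt q k j (kd e).2) then 1 else 0) ∧
      PC D.S cnt (rp (fun j => D.T (q K j) (q K (j + 1))) (2 ^ K)) := by
  induction K with
  | zero =>
    refine ⟨0, by simp, ?_⟩
    have : rp (fun j => D.T (q 0 j) (q 0 (j + 1))) (2 ^ 0) = 1 := by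
      have h0 := hq 0 0
      simp only [pow_zero, zero_add] at h0
      simp only [pow_zero]
      simp only [rp, one_mul, zero_add]
      rw [h0]
      exact D.T_self _
    rw [this]
    exact PC.one
  | succ K ih =>
    obtain ⟨cnt, h1, h2⟩ := ih
    set V : ℕ → G := fun j => D.T (q K j) (q (K + 1) (2 * j)) with hVdef
    have hV : V (2 ^ K) = V 0 := by
      simp only [hVdef]
      have e1 := hq K 0
      have e2 := hq (K + 1) 0
      rw [zero_add] at e1 e2
      rw [e1, mul_zero, ← pow_succ', e2]
    have key := refine_ring (S := D.S) V (fun j => D.T (q K j) (q K (j + 1)))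
      (fun j => D.T (q (K + 1) j) (q (K + 1) (j + 1))) (2 ^ K) hV
      (fun j => D.pent_mem (q K j) (q K (j + 1)) (q (K + 1) (2 * j)) (q (K + 1) (2 * j + 1))
        (q (K + 1) (2 * j + 1 + 1))) h2
    refine ⟨_, ?_, by rw [pow_succ']; exact key⟩
    rw [sum_range_succ]
    refine add_le_add h1 ?_
    rw [card_filter]
    refine sum_le_sum fun j _ => ?_
    split_ifs with h
    · by_contra hc
      push Not at hc
      have hz : ∀ e : Fin 7, ¬ D.gap (vt q K j (kd e).1) (vt q K j (kd e).2) := by
        intro e he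
        have : (if D.gap (vt q K j (kd e).1) (vt q K j (kd e).2) then 1 else 0) ≤
            ∑ e : Fin 7, (if D.gap (vt q K j (kd e).1) (vt q K j (kd e).2) then 1 else 0) :=
          Finset.single_le_sum (f := fun e : Fin 7 =>
            (if D.gap (vt q K j (kd e).1) (vt q K j (kd e).2) then 1 else 0))
            (fun _ _ => Nat.zero_le _) (mem_univ e)
        rw [if_pos he] at this
        omega
      apply h
      have z0 := hz 0
      have z1 := hz 1
      have z2 := hz 2
      have z3 := hz 3
      have z4 := hz 4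
      have z5 := hz 5
      have z6 := hz 6
      simp only [kd, vt, Matrix.cons_val, pow_zero, pow_one, one_mul, add_zero] at z0 z1 z2 z3 z4 z5 z6
      exact D.pent_flat z0 z1 z2 z3 z4 z5 z6
    · exact Nat.zero_le _

end tower

section colour

variable {N : Type*} [PseudoEMetricSpace N] {m : ℕ}

/-- colour of a point: the first net point at distance less than `R` -/
noncomputable def col (a : Fin m → N) (R : ENNReal) (h : ∀ p, ∃ i, edist p (a i) < R) (p : N) :
    Fin m := wellFounded_lt.min {i | edist p (a i) < R} (h p)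

theorem col_lt (a : Fin m → N) (R : ENNReal) (h : ∀ p, ∃ i, edist p (a i) < R) (p : N) :
    edist p (a (col a R h p)) < R :=
  wellFounded_lt.min_mem {i | edist p (a i) < R} (h p)

theorem col_min (a : Fin m → N) (R : ENNReal) (h : ∀ p, ∃ i, edist p (a i) < R) (p : N) {i : Fin m}
    (hi : i < col a R h p) : R ≤ edist p (a i) := by
  by_contra hc
  push Not at hc
  exact wellFounded_lt.not_lt_min {i | edist p (a i) < R} hc hi

theorem col_ne (a : Fin m → N) (R : ENNReal) (h : ∀ p, ∃ i, edist p (a i) < R) {p q : N} {e : ENNReal}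
    (hpq : edist p q ≤ e) (hne : col a R h q ≠ col a R h p) :
    ∃ i, edist p (a i) ≤ R + e ∧ R ≤ edist p (a i) + e := by
  rcases lt_or_gt_of_ne hne with h1 | h1
  · refine ⟨col a R h q, ?_, ?_⟩
    · have := (col_lt a R h q).le
      calc edist p (a (col a R h q)) ≤ edist p q + edist q (a (col a R h q)) := edist_triangle _ _ _
        _ ≤ e + R := add_le_add hpq this
        _ = R + e := add_comm _ _
    · exact (col_min a R h p h1).trans le_self_add
  · refine ⟨col a R h p, ?_, ?_⟩
    · exact (col_lt a R h p).le.trans le_self_add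
    · have := col_min a R h q h1
      calc R ≤ edist q (a (col a R h p)) := this
        _ ≤ edist q p + edist p (a (col a R h p)) := edist_triangle _ _ _
        _ ≤ e + edist p (a (col a R h p)) := by
            gcongr
            rwa [edist_comm]
        _ = _ := add_comm _ _

/-- the radii -/
noncomputable def rad (ρ ε : ℝ) (s : ℕ) : ENNReal := ENNReal.ofReal (ρ + 3 * ε * s)

open Classical in
theorem nondeep_count (a : Fin m → N) {ρ ε : ℝ} (hρ : 0 < ρ) (hε : 0 < ε)
    (hcov : ∀ p, ∃ i, edist p (a i) < ENNReal.ofReal ρ)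
    (h : ∀ s p, ∃ i, edist p (a i) < rad ρ ε s) (n : ℕ) (p : N) :
    ((range n).filter (fun s => ∃ q, edist p q ≤ ENNReal.ofReal ε ∧
      col a (rad ρ ε s) (h s) q ≠ col a (rad ρ ε s) (h s) p)).card ≤ m := by
  have key : ∀ s ∈ (range n).filter (fun s => ∃ q, edist p q ≤ ENNReal.ofReal ε ∧
      col a (rad ρ ε s) (h s) q ≠ col a (rad ρ ε s) (h s) p),
      ∃ i : Fin m, edist p (a i) ≤ rad ρ ε s + ENNReal.ofReal ε ∧
        rad ρ ε s ≤ edist p (a i) + ENNReal.ofReal ε := by
    intro s hs
    obtain ⟨q, h1, h2⟩ := (mem_filter.mp hs).2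
    exact col_ne a _ (h s) h1 h2
  have : Nonempty (Fin m) := ⟨(hcov p).choose⟩
  choose! F hF using key
  have hcard := Finset.card_le_card_of_injOn (s := (range n).filter (fun s => ∃ q,
      edist p q ≤ ENNReal.ofReal ε ∧
      col a (rad ρ ε s) (h s) q ≠ col a (rad ρ ε s) (h s) p)) (t := (univ : Finset (Fin m))) F
      (fun _ _ => mem_univ _) ?_
  · simpa using hcard
  · have aux : ∀ s t, s ∈ (range n).filter (fun s => ∃ q, edist p q ≤ ENNReal.ofReal ε ∧
        col a (rad ρ ε s) (h s) q ≠ col a (rad ρ ε s) (h s) p) →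
        t ∈ (range n).filter (fun s => ∃ q, edist p q ≤ ENNReal.ofReal ε ∧
        col a (rad ρ ε s) (h s) q ≠ col a (rad ρ ε s) (h s) p) → F s = F t → ¬ s < t := by
      intro s t hs ht hst hlt
      have h1 := (hF s hs).1
      have h2 := (hF t ht).2
      rw [hst] at h1
      have h3 : rad ρ ε t ≤ rad ρ ε s + ENNReal.ofReal ε + ENNReal.ofReal ε :=
        h2.trans (by gcongr)
      unfold rad at h3
      rw [← ENNReal.ofReal_add (by positivity) hε.le, ← ENNReal.ofReal_add (by positivity) hε.le,
        ENNReal.ofReal_le_ofReal_iff (by positivity)] at h3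
      have h4 : (s : ℝ) + 1 ≤ t := by exact_mod_cast hlt
      nlinarith
    intro s hs t ht hst
    rcases lt_trichotomy s t with h1 | h1 | h1
    · exact absurd h1 (aux s t hs ht hst)
    · exact h1
    · exact absurd h1 (aux t s ht hs hst.symm)

end colour

section comb

variable {N : Type*} [PseudoEMetricSpace N] {G : Type*} [Group G] {m : ℕ}

/-- the finite set of holonomies -/
def SS (g : Fin m → Fin m → G) : Set G := {x | ∃ a b c d e : G, (∀ y ∈ ({a, b, c, d, e} : Set G),
  y = 1 ∨ ∃ i j, y = g i j) ∧ x = a * b * c * d⁻¹ * e⁻¹}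

/-- the number of far edges -/
noncomputable def farCount (ε : ℝ) (q : ℕ → ℕ → N) (K : ℕ) : ℕ :=
  open Classical in
  ∑ k ∈ range K, ∑ j ∈ range (2 ^ k), ∑ e : Fin 7,
    (if ENNReal.ofReal ε < edist (vt q k j (kd e).1) (vt q k j (kd e).2) then 1 else 0)

open Classical in
theorem core_comb (a : Fin m → N) (g : Fin m → Fin m → G) {r ρ ε : ℝ} (hρ : 0 < ρ) (hε : 0 < ε)
    (hcov : ∀ p, ∃ i, edist p (a i) < ENNReal.ofReal ρ) (hr : 5 * ρ ≤ r) (hερ : ε ≤ ρ)
    (g1 : ∀ i, g i i = 1)
    (gm : ∀ i j k, edist (a i) (a j) < ENNReal.ofReal r → edist (a j) (a k) < ENNReal.ofReal r →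
      edist (a i) (a k) < ENNReal.ofReal r → g i j * g j k = g i k)
    {n : ℕ} (hn0 : 0 < n) (hn : 3 * ε * n ≤ ρ) (q : ℕ → ℕ → N) (hq : ∀ k j, q k (j + 2 ^ k) = q k j)
    (K : ℕ) (hK : ∀ j, edist (q K j) (q K (j + 1)) ≤ ENNReal.ofReal ε) :
    ∃ (c : N → Fin m) (cnt : ℕ), (∀ p, edist p (a (c p)) < ENNReal.ofReal (2 * ρ)) ∧
      PC (SS g) cnt (rp (fun j => g (c (q K j)) (c (q K (j + 1)))) (2 ^ K)) ∧
      n * cnt ≤ 2 * m * farCount ε q K := by
  have h : ∀ s p, ∃ i, edist p (a i) < rad ρ ε s := by
    intro s p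
    obtain ⟨i, hi⟩ := hcov p
    refine ⟨i, hi.trans_le ?_⟩
    unfold rad
    apply ENNReal.ofReal_le_ofReal
    have : 0 ≤ 3 * ε * s := by positivity
    linarith
  have hrad : ∀ s < n, rad ρ ε s ≤ ENNReal.ofReal (2 * ρ) := by
    intro s hs
    unfold rad
    apply ENNReal.ofReal_le_ofReal
    have h1 : (s : ℝ) ≤ n := by exact_mod_cast hs.le
    have : 3 * ε * s ≤ 3 * ε * n := by gcongr
    linarith
  -- transport data for each s
  let D : (s : ℕ) → s < n → TD (Fin m) G N := fun s hs =>
    { g := g
      close := fun i j => edist (a i) (a j) < ENNReal.ofReal r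
      c := col a (rad ρ ε s) (h s)
      ε := ENNReal.ofReal ε
      one := g1
      refl := fun i => by
        rw [edist_self]
        exact ENNReal.ofReal_pos.mpr (by linarith)
      symm := fun i j hij => by rwa [edist_comm]
      mul := gm
      near := fun p p' hpp => by
        have e1 := (col_lt a (rad ρ ε s) (h s) p).trans_le (hrad s hs)
        have e2 := (col_lt a (rad ρ ε s) (h s) p').trans_le (hrad s hs)
        calc edist (a (col a (rad ρ ε s) (h s) p)) (a (col a (rad ρ ε s) (h s) p'))
            ≤ edist (a (col a (rad ρ ε s) (h s) p)) p + edist p p' +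
              edist p' (a (col a (rad ρ ε s) (h s) p')) := edist_triangle4 _ _ _ _
          _ < ENNReal.ofReal (2 * ρ) + ENNReal.ofReal ε + ENNReal.ofReal (2 * ρ) := by
              rw [edist_comm] at e1
              apply ENNReal.add_lt_add_of_le_of_lt _ _ e2
              · exact ne_top_of_le_ne_top (ENNReal.add_ne_top.mpr ⟨e1.ne_top, by simp⟩)
                  (add_le_add le_rfl hpp)
              · exact add_le_add e1.le hpp
          _ ≤ ENNReal.ofReal r := by
              rw [← ENNReal.ofReal_add (by positivity) hε.le,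
                ← ENNReal.ofReal_add (by positivity) (by positivity)]
              apply ENNReal.ofReal_le_ofReal
              linarith }
  have hS : ∀ s hs, (D s hs).S = SS g := fun s hs => rfl
  -- gap counts
  let gc : ℕ → ℕ := fun s => if hs : s < n then ∑ k ∈ range K, ∑ j ∈ range (2 ^ k), ∑ e : Fin 7,
        (if (D s hs).gap (vt q k j (kd e).1) (vt q k j (kd e).2) then 1 else 0) else 0
  have hpair : ∀ p p' : N, ∑ s ∈ range n, (if hs : s < n then
      (if (D s hs).gap p p' then 1 else 0) else 0) ≤
      2 * m * (if ENNReal.ofReal ε < edist p p' then 1 else 0) := by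
    intro p p'
    by_cases hfar : ENNReal.ofReal ε < edist p p'
    · rw [if_pos hfar, mul_one]
      calc ∑ s ∈ range n, (if hs : s < n then (if (D s hs).gap p p' then 1 else 0) else 0)
          ≤ ∑ s ∈ range n, ((if ∃ q, edist p q ≤ ENNReal.ofReal ε ∧
              col a (rad ρ ε s) (h s) q ≠ col a (rad ρ ε s) (h s) p then 1 else 0) +
              (if ∃ q, edist p' q ≤ ENNReal.ofReal ε ∧
              col a (rad ρ ε s) (h s) q ≠ col a (rad ρ ε s) (h s) p' then 1 else 0)) := by
            refine sum_le_sum fun s hs => ?_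
            rw [dif_pos (mem_range.mp hs)]
            split_ifs with h1 h2 h3 h4 <;> try omega
            exfalso
            rcases h1.2 with h5 | h5
            · unfold TD.deep at h5
              push Not at h5
              exact h2 h5
            · unfold TD.deep at h5
              push Not at h5
              exact h4 h5
        _ ≤ m + m := by
            rw [sum_add_distrib, ← card_filter, ← card_filter]
            exact add_le_add (nondeep_count a hρ hε hcov h n p) (nondeep_count a hρ hε hcov h n p')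
        _ = 2 * m := by ring
    · rw [if_neg hfar, mul_zero]
      refine le_of_eq (sum_eq_zero fun s hs => ?_)
      rw [dif_pos (mem_range.mp hs), if_neg]
      intro h1
      exact hfar h1.1
  have htot : ∑ s ∈ range n, gc s ≤ 2 * m * farCount ε q K := by
    have e1 : ∑ s ∈ range n, gc s = ∑ k ∈ range K, ∑ j ∈ range (2 ^ k), ∑ e : Fin 7,
        ∑ s ∈ range n, (if hs : s < n then
          (if (D s hs).gap (vt q k j (kd e).1) (vt q k j (kd e).2) then 1 else 0) else 0) := by
      have e2 : ∑ s ∈ range n, gc s = ∑ s ∈ range n, ∑ k ∈ range K, ∑ j ∈ range (2 ^ k), ∑ e : Fin 7,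
        (if hs : s < n then
          (if (D s hs).gap (vt q k j (kd e).1) (vt q k j (kd e).2) then 1 else 0) else 0) := by
        refine sum_congr rfl fun s hs => ?_
        have hs' := mem_range.mp hs
        simp only [gc, dif_pos hs']
      rw [e2, sum_comm]
      refine sum_congr rfl fun k _ => ?_
      rw [sum_comm]
      refine sum_congr rfl fun j _ => ?_
      rw [sum_comm]
    rw [e1]
    unfold farCount
    rw [mul_sum]
    refine sum_le_sum fun k _ => ?_
    rw [mul_sum]
    refine sum_le_sum fun j _ => ?_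
    rw [mul_sum]
    refine sum_le_sum fun e _ => ?_
    convert hpair _ _
  obtain ⟨s, hs, hsle⟩ : ∃ s ∈ range n, n * gc s ≤ 2 * m * farCount ε q K := by
    by_contra hc
    push Not at hc
    have h1 : ∑ s ∈ range n, (2 * m * farCount ε q K) < ∑ s ∈ range n, n * gc s :=
      sum_lt_sum_of_nonempty (nonempty_range_iff.mpr hn0.ne') hc
    rw [sum_const, card_range, ← mul_sum, smul_eq_mul] at h1
    exact absurd (lt_of_mul_lt_mul_left h1 (Nat.zero_le _)) (not_lt.mpr htot)
  have hs' := mem_range.mp hs
  obtain ⟨cnt, hcnt, hPC⟩ := tower (D s hs') q hq K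
  refine ⟨col a (rad ρ ε s) (h s), cnt, fun p => (col_lt a _ (h s) p).trans_le (hrad s hs'), ?_, ?_⟩
  · have : (fun j => (D s hs').T (q K j) (q K (j + 1))) =
        fun j => g (col a (rad ρ ε s) (h s) (q K j)) (col a (rad ρ ε s) (h s) (q K (j + 1))) := by
      ext j
      exact (D s hs').T_of_le (hK j)
    rw [this] at hPC
    exact hPC
  · have : cnt ≤ gc s := by
      simp only [gc, dif_pos hs']
      exact hcnt
    exact (Nat.mul_le_mul_left n this).trans hsle

end comb

end Pool.Agent.H259R3.GP
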