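import Pool.Agent.H259R3.GP2

set_option autoImplicit false

/-! Gap potentials: random sampling of points in dyadic arcs. -/

namespace Pool.Agent.H259R3.GP

open MeasureTheory Set Real
open scoped ENNReal

/-- length of the arcs of level `l` -/
noncomputable def L (l : ℕ) : ℝ := 2 * π / 2 ^ l

theorem L_pos (l : ℕ) : 0 < L l := by unfold L; positivity

theorem L_anti {l l' : ℕ} (h : l ≤ l') : L l' ≤ L l := by
  unfold L
  have := Real.pi_pos
  gcongr
  norm_num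

/-- arcs -/
def J (l i : ℕ) : Set ℝ := Ico (L l * i) (L l * (i + 1))

theorem vol_J (l i : ℕ) : volume (J l i) = ENNReal.ofReal (L l) := by
  unfold J
  rw [Real.volume_Ico]
  congr 1
  ring

/-- uniform probability on an arc -/
noncomputable def mu (a : ℕ × ℕ) : Measure ℝ :=
  (ENNReal.ofReal (L a.1))⁻¹ • volume.restrict (J a.1 a.2)

theorem ofReal_L_ne (l : ℕ) : ENNReal.ofReal (L l) ≠ 0 := by
  rw [Ne, ENNReal.ofReal_eq_zero, not_le]
  exact L_pos l

instance (a : ℕ × ℕ) : IsProbabilityMeasure (mu a) := ⟨by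
  unfold mu
  rw [Measure.smul_apply, Measure.restrict_apply_univ, vol_J, smul_eq_mul,
    ENNReal.inv_mul_cancel (ofReal_L_ne _) ENNReal.ofReal_ne_top]⟩

theorem ae_mem_J (a : ℕ × ℕ) : ∀ᵐ x ∂(mu a), x ∈ J a.1 a.2 := by
  unfold mu
  refine Measure.ae_smul_measure ?_ _
  exact ae_restrict_mem measurableSet_Ico

theorem sum_J (l : ℕ) (φ : ℝ → ℝ≥0∞) (n : ℕ) :
    ∑ i ∈ Finset.range n, ∫⁻ x in J l i, φ x = ∫⁻ x in Ico 0 (L l * n), φ x := by
  induction n with
  | zero => simp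
  | succ n ih =>
    rw [Finset.sum_range_succ, ih]
    have h1 : Ico 0 (L l * ((n + 1 : ℕ) : ℝ)) = Ico 0 (L l * n) ∪ J l n := by
      unfold J
      rw [Ico_union_Ico_eq_Ico]
      · push_cast; rfl
      · have := L_pos l; positivity
      · have := L_pos l; nlinarith
    have h2 : Disjoint (Ico 0 (L l * n)) (J l n) := by
      unfold J
      rw [Set.disjoint_left]
      intro x hx hx'
      exact absurd hx.2 (not_lt.mpr hx'.1)
    have hm : MeasurableSet (J l n) := measurableSet_Ico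
    rw [h1, lintegral_union hm h2]

theorem sum_J_full (l : ℕ) (φ : ℝ → ℝ≥0∞) :
    ∑ i ∈ Finset.range (2 ^ l), ∫⁻ x in J l i, φ x = ∫⁻ x in Ico 0 (2 * π), φ x := by
  rw [sum_J]
  congr 2
  unfold L
  push_cast
  field_simp

theorem J_subset (l i : ℕ) (h : i < 2 ^ l) : J l i ⊆ Ico 0 (2 * π) := by
  intro x hx
  unfold J at hx
  have h0 := L_pos l
  have h1 : (i : ℝ) + 1 ≤ 2 ^ l := by exact_mod_cast h
  have h2 : L l * 2 ^ l = 2 * π := by unfold L; field_simp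
  refine ⟨le_trans (by positivity) hx.1, hx.2.trans_le ?_⟩
  rw [← h2]
  gcongr

/-- reduction of indices -/
def rd (k j : ℕ) (d : ℕ × ℕ) : ℕ × ℕ := (k + d.1, (2 ^ d.1 * j + d.2) % 2 ^ (k + d.1))

/-- admissible offsets -/
def adm (d : ℕ × ℕ) : Prop := d.1 ≤ 1 ∧ d.2 ≤ 2 ^ d.1

theorem adm_kd (e : Fin 7) : adm (kd e).1 ∧ adm (kd e).2 := by
  fin_cases e <;> simp [kd, adm]

theorem rd_inj (k : ℕ) (d : ℕ × ℕ) (hd : adm d) : Set.InjOn (fun j => (rd k j d).2) (Finset.range (2 ^ k)) := by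
  intro i hi j hj hij
  have hi' := Finset.mem_range.mp (Finset.mem_coe.mp hi)
  have hj' := Finset.mem_range.mp (Finset.mem_coe.mp hj)
  simp only [rd] at hij
  have h1 : (2 ^ d.1 * i) ≡ (2 ^ d.1 * j) [MOD 2 ^ (k + d.1)] := Nat.ModEq.add_right_cancel' d.2 hij
  have h2 : 2 ^ (k + d.1) = 2 ^ d.1 * 2 ^ k := by rw [add_comm, pow_add]
  rw [h2] at h1
  have h3 := Nat.ModEq.mul_left_cancel' (by positivity) h1
  exact Nat.ModEq.eq_of_lt_of_lt h3 hi' hj'

/-- position bound -/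
theorem pos_bound {k j : ℕ} {d : ℕ × ℕ} (hd : adm d) {x : ℝ} (hx : x ∈ J (rd k j d).1 (rd k j d).2) :
    ∃ (z : ℕ), L k * j ≤ x + z * (2 * π) ∧ x + z * (2 * π) ≤ L k * (j + 2) := by
  obtain ⟨δ, c⟩ := d
  simp only [rd, adm, J] at hx hd
  set i := 2 ^ δ * j + c with hi
  refine ⟨i / 2 ^ (k + δ), ?_⟩
  have hdm := Nat.mod_add_div i (2 ^ (k + δ))
  have hdm' : ((i % 2 ^ (k + δ) : ℕ) : ℝ) + 2 ^ (k + δ) * ((i / 2 ^ (k + δ) : ℕ) : ℝ) = i := by
    exact_mod_cast hdm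
  have hL2 : L (k + δ) * 2 ^ (k + δ) = 2 * π := by unfold L; field_simp
  have hLk : L k = L (k + δ) * 2 ^ δ := by unfold L; rw [pow_add]; field_simp
  have hLp := L_pos (k + δ)
  have hx1 := hx.1
  have hx2 := hx.2
  set M := ((i % 2 ^ (k + δ) : ℕ) : ℝ) with hM
  set Z := ((i / 2 ^ (k + δ) : ℕ) : ℝ) with hZ
  have hiR : (i : ℝ) = 2 ^ δ * j + c := by rw [hi]; push_cast; ring
  have hZ2 : Z * (2 * π) = L (k + δ) * (i - M) := by
    rw [← hL2, ← hdm']; ring
  have hc : (c : ℝ) ≤ 2 ^ δ := by exact_mod_cast hd.2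
  have h1 : (1 : ℝ) ≤ 2 ^ δ := one_le_pow₀ (by norm_num)
  have hc0 : (0 : ℝ) ≤ c := Nat.cast_nonneg c
  rw [hZ2, hLk]
  constructor
  · have : L (k + δ) * 2 ^ δ * j ≤ L (k + δ) * i := by
      rw [hiR]
      nlinarith [mul_nonneg hLp.le hc0]
    nlinarith
  · have : L (k + δ) * (i + 1) ≤ L (k + δ) * 2 ^ δ * (j + 2) := by
      rw [hiR, mul_assoc]
      apply mul_le_mul_of_nonneg_left _ hLp.le
      nlinarith
    nlinarith

theorem norm_exp_sub (x y : ℝ) :
    ‖(Circle.exp x : ℂ) - (Circle.exp y : ℂ)‖ ≤ |x - y| := by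
  rw [Circle.coe_exp, Circle.coe_exp]
  have h := Real.norm_exp_I_mul_ofReal_sub_one_le (x := x - y)
  have h1 : Complex.exp (x * Complex.I) - Complex.exp (y * Complex.I) =
      Complex.exp (y * Complex.I) * (Complex.exp (Complex.I * ((x - y : ℝ) : ℂ)) - 1) := by
    rw [mul_sub, ← Complex.exp_add, mul_one]
    congr 2
    push_cast; ring
  rw [h1, norm_mul, Complex.norm_exp_ofReal_mul_I, one_mul]
  exact h

theorem chord_bound {k j : ℕ} {d d' : ℕ × ℕ} (hd : adm d) (hd' : adm d') {x y : ℝ}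
    (hx : x ∈ J (rd k j d).1 (rd k j d).2) (hy : y ∈ J (rd k j d').1 (rd k j d').2) :
    ‖(Circle.exp x : ℂ) - (Circle.exp y : ℂ)‖ ≤ 2 * L k := by
  obtain ⟨z, h1, h2⟩ := pos_bound hd hx
  obtain ⟨w, h3, h4⟩ := pos_bound hd' hy
  have hp : ∀ (n : ℕ) (t : ℝ), Circle.exp (t + n * (2 * π)) = Circle.exp t := by
    intro n t
    exact Circle.periodic_exp.nat_mul n t
  rw [← hp z x, ← hp w y]
  refine (norm_exp_sub _ _).trans ?_
  rw [abs_le]
  constructor <;> linarith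

theorem geom_bound (B : ℝ) (hB : 0 ≤ B) (K : ℕ) :
    ∑ k ∈ Finset.range K, (if (4 : ℝ) ^ k ≤ B then (4 : ℝ) ^ k else 0) ≤ 4 / 3 * B := by
  induction K with
  | zero => simp; positivity
  | succ K ih =>
    by_cases h : (4 : ℝ) ^ K ≤ B
    · have h1 : ∑ k ∈ Finset.range (K + 1), (if (4 : ℝ) ^ k ≤ B then (4 : ℝ) ^ k else 0) ≤
          ∑ k ∈ Finset.range (K + 1), (4 : ℝ) ^ k := by
        refine Finset.sum_le_sum fun k _ => ?_
        split_ifs
        · exact le_rfl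
        · positivity
      have h2 : ∀ n : ℕ, 3 * ∑ k ∈ Finset.range n, (4 : ℝ) ^ k ≤ 4 ^ n := by
        intro n
        induction n with
        | zero => simp
        | succ n ih =>
          rw [Finset.sum_range_succ, pow_succ]
          linarith
      have h3 := h2 (K + 1)
      rw [pow_succ] at h3
      linarith
    · rw [Finset.sum_range_succ, if_neg h, add_zero]
      exact ih

/-- scale sum at a pair of points -/
theorem scale_sum {d : ℝ} (hd : 0 < d) (K : ℕ) :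
    ∑ k ∈ Finset.range K, (ENNReal.ofReal (L (k + 1)))⁻¹ * (ENNReal.ofReal (L (k + 1)))⁻¹ *
      (if d ≤ 2 * L k then 1 else 0) ≤ ENNReal.ofReal (64 / 3 / d ^ 2) := by
  have hpi := Real.pi_pos
  have h1 : ∀ k, (ENNReal.ofReal (L (k + 1)))⁻¹ * (ENNReal.ofReal (L (k + 1)))⁻¹ *
      (if d ≤ 2 * L k then 1 else 0) = ENNReal.ofReal
        (if (4 : ℝ) ^ k ≤ 16 * π ^ 2 / d ^ 2 then (4 : ℝ) ^ k / π ^ 2 else 0) := by
    intro k
    have h2 : d ≤ 2 * L k ↔ (4 : ℝ) ^ k ≤ 16 * π ^ 2 / d ^ 2 := by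
      have e4 : (4 : ℝ) ^ k = (2 ^ k) ^ 2 := by rw [← pow_mul, mul_comm k 2, pow_mul]; norm_num
      have e5 : 16 * π ^ 2 / d ^ 2 = (4 * π / d) ^ 2 := by rw [div_pow]; ring
      rw [e4, e5, sq_le_sq₀ (by positivity) (by positivity)]
      unfold L
      rw [le_div_iff₀ hd, mul_comm (2 ^ k) d, ← mul_div_assoc, le_div_iff₀ (by positivity)]
      constructor <;> intro h <;> linarith
    by_cases h : d ≤ 2 * L k
    · rw [if_pos h, if_pos (h2.mp h), mul_one, ← ENNReal.ofReal_inv_of_pos (L_pos _),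
        ← ENNReal.ofReal_mul (by have := L_pos (k + 1); positivity)]
      congr 1
      unfold L
      have e4 : (4 : ℝ) ^ k = (2 ^ k) ^ 2 := by rw [← pow_mul, mul_comm k 2, pow_mul]; norm_num
      rw [e4]
      field_simp
      ring
    · rw [if_neg h, if_neg (fun hc => h (h2.mpr hc)), mul_zero, ENNReal.ofReal_zero]
  simp_rw [h1]
  rw [← ENNReal.ofReal_sum_of_nonneg (fun k _ => by split_ifs <;> positivity)]
  apply ENNReal.ofReal_le_ofReal
  have h3 := geom_bound (16 * π ^ 2 / d ^ 2) (by positivity) K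
  have h4 : ∑ k ∈ Finset.range K, (if (4 : ℝ) ^ k ≤ 16 * π ^ 2 / d ^ 2 then (4 : ℝ) ^ k / π ^ 2 else 0) =
      (∑ k ∈ Finset.range K, (if (4 : ℝ) ^ k ≤ 16 * π ^ 2 / d ^ 2 then (4 : ℝ) ^ k else 0)) / π ^ 2 := by
    rw [Finset.sum_div]
    refine Finset.sum_congr rfl fun k _ => ?_
    split_ifs
    · rfl
    · simp
  rw [h4, div_le_iff₀ (by positivity)]
  refine h3.trans (le_of_eq ?_)
  field_simp
  ring

end Pool.Agent.H259R3.GP
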