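import Pool.Agent.H259R3.GP3

set_option autoImplicit false

/-! Gap potentials: the sampling theorem. -/

namespace Pool.Agent.H259R3.GP

open MeasureTheory Set Real
open scoped ENNReal

/-- The scaled gap potential of a map from the circle (arc-length double integral). -/
noncomputable def gapEnergy {N : Type*} [PseudoEMetricSpace N] (ε : ℝ) (f : C(Circle, N)) : ℝ≥0∞ :=
  open Classical in
  ∫⁻ θ in Set.Icc (0 : ℝ) (2 * π), ∫⁻ φ in Set.Icc (0 : ℝ) (2 * π),
    if ENNReal.ofReal ε < edist (f (Circle.exp φ)) (f (Circle.exp θ)) then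
      ENNReal.ofReal (ε / ‖(Circle.exp φ : ℂ) - (Circle.exp θ : ℂ)‖ ^ 2) else 0

variable {N : Type*} [PseudoEMetricSpace N]

/-- far pairs -/
def farP (ε : ℝ) (f : C(Circle, N)) (x y : ℝ) : Prop :=
  ENNReal.ofReal ε < edist (f (Circle.exp x)) (f (Circle.exp y))

theorem measurableSet_far (ε : ℝ) (f : C(Circle, N)) :
    MeasurableSet {p : ℝ × ℝ | farP ε f p.1 p.2} := by
  apply IsOpen.measurableSet
  unfold farP
  apply isOpen_lt continuous_const
  have h1 : Continuous fun p : ℝ × ℝ => f (Circle.exp p.1) :=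
    f.continuous.comp (Circle.exp.continuous.comp continuous_fst)
  have h2 : Continuous fun p : ℝ × ℝ => f (Circle.exp p.2) :=
    f.continuous.comp (Circle.exp.continuous.comp continuous_snd)
  exact h1.edist h2

theorem measurableSet_chord (c : ℝ) :
    MeasurableSet {p : ℝ × ℝ | ‖(Circle.exp p.1 : ℂ) - (Circle.exp p.2 : ℂ)‖ ≤ c} := by
  apply IsClosed.measurableSet
  apply isClosed_le _ continuous_const
  have h1 : Continuous fun p : ℝ × ℝ => (Circle.exp p.1 : ℂ) :=
    continuous_subtype_val.comp (Circle.exp.continuous.comp continuous_fst)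
  have h2 : Continuous fun p : ℝ × ℝ => (Circle.exp p.2 : ℂ) :=
    continuous_subtype_val.comp (Circle.exp.continuous.comp continuous_snd)
  exact (h1.sub h2).norm

open Classical in
/-- indicator of far pairs at scale `k` -/
noncomputable def Ph (ε : ℝ) (f : C(Circle, N)) (k : ℕ) (p : ℝ × ℝ) : ℝ≥0∞ :=
  if farP ε f p.1 p.2 ∧ ‖(Circle.exp p.1 : ℂ) - (Circle.exp p.2 : ℂ)‖ ≤ 2 * L k then 1 else 0

theorem measurable_Ph (ε : ℝ) (f : C(Circle, N)) (k : ℕ) : Measurable (Ph ε f k) := by
  unfold Ph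
  exact Measurable.ite ((measurableSet_far ε f).inter (measurableSet_chord _)) measurable_const
    measurable_const

open Classical in
theorem pair_bound (ε : ℝ) (f : C(Circle, N)) (k j : ℕ) {d d' : ℕ × ℕ} (hd : adm d) (hd' : adm d') :
    ∫⁻ ω, (if farP ε f (ω (rd k j d)) (ω (rd k j d')) then 1 else 0)
      ∂(Measure.infinitePi mu) ≤
    (ENNReal.ofReal (L (k + 1)))⁻¹ * (ENNReal.ofReal (L (k + 1)))⁻¹ *
      ∫⁻ x in J (k + d.1) (rd k j d).2, ∫⁻ y in Ico 0 (2 * π), Ph ε f k (x, y) := by
  by_cases hab : rd k j d = rd k j d'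
  · rw [hab]
    have : ∀ ω : (ℕ × ℕ) → ℝ, (if farP ε f (ω (rd k j d')) (ω (rd k j d')) then (1 : ℝ≥0∞) else 0) = 0 := by
      intro ω
      rw [if_neg]
      unfold farP
      rw [edist_self]
      simp
    simp_rw [this]
    simp
  · have hmeas : Measurable fun p : ℝ × ℝ => (if farP ε f p.1 p.2 then (1 : ℝ≥0∞) else 0) :=
      Measurable.ite (measurableSet_far ε f) measurable_const measurable_const
    have h1 : ∫⁻ ω, (if farP ε f (ω (rd k j d)) (ω (rd k j d')) then 1 else 0)
        ∂(Measure.infinitePi mu) = ∫⁻ p, (if farP ε f p.1 p.2 then (1 : ℝ≥0∞) else 0)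
        ∂((mu (rd k j d)).prod (mu (rd k j d'))) := by
      rw [← MeasureTheory.Measure.infinitePi_map_eval_prod (P := mu) hab]
      rw [lintegral_map hmeas (by fun_prop)]
    rw [h1, lintegral_prod _ hmeas.aemeasurable]
    have hL : ∀ δ ≤ 1, (ENNReal.ofReal (L (k + δ)))⁻¹ ≤ (ENNReal.ofReal (L (k + 1)))⁻¹ := by
      intro δ hδ
      apply ENNReal.inv_le_inv.mpr
      apply ENNReal.ofReal_le_ofReal
      exact L_anti (by omega)
    have h2 : ∫⁻ x, ∫⁻ y, (if farP ε f x y then (1 : ℝ≥0∞) else 0) ∂(mu (rd k j d')) ∂(mu (rd k j d)) =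
        (ENNReal.ofReal (L (k + d.1)))⁻¹ * ∫⁻ x in J (k + d.1) (rd k j d).2,
          ((ENNReal.ofReal (L (k + d'.1)))⁻¹ * ∫⁻ y in J (k + d'.1) (rd k j d').2,
            (if farP ε f x y then (1 : ℝ≥0∞) else 0)) := by
      conv_lhs => rw [mu]
      rw [lintegral_smul_measure, smul_eq_mul]
      congr 2
      ext x
      conv_lhs => rw [mu]
      rw [lintegral_smul_measure, smul_eq_mul]
      rfl
    rw [h2]
    have h3 : ∫⁻ x in J (k + d.1) (rd k j d).2,
          ((ENNReal.ofReal (L (k + d'.1)))⁻¹ * ∫⁻ y in J (k + d'.1) (rd k j d').2,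
            (if farP ε f x y then (1 : ℝ≥0∞) else 0)) ≤
        ∫⁻ x in J (k + d.1) (rd k j d).2,
          ((ENNReal.ofReal (L (k + 1)))⁻¹ * ∫⁻ y in Ico 0 (2 * π), Ph ε f k (x, y)) := by
      apply setLIntegral_mono' measurableSet_Ico
      intro x hx
      refine mul_le_mul' (hL _ hd'.1) ?_
      calc ∫⁻ y in J (k + d'.1) (rd k j d').2, (if farP ε f x y then (1 : ℝ≥0∞) else 0)
          ≤ ∫⁻ y in J (k + d'.1) (rd k j d').2, Ph ε f k (x, y) := by
            apply setLIntegral_mono' measurableSet_Ico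
            intro y hy
            unfold Ph
            split_ifs with h4 h5 <;> try simp
            exact h5 ⟨h4, chord_bound hd hd' hx hy⟩
        _ ≤ _ := by
            apply lintegral_mono_set
            apply J_subset
            exact Nat.mod_lt _ (by positivity)
    refine (mul_le_mul' (hL _ hd.1) h3).trans (le_of_eq ?_)
    rw [lintegral_const_mul, mul_assoc]
    exact (measurable_Ph ε f k).lintegral_prod_right'

open Classical in
theorem sampling (f : C(Circle, N)) {ε : ℝ} (hε : 0 < ε) (K : ℕ) :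
    ∃ X : ℕ × ℕ → ℝ, (∀ a, X a ∈ J a.1 a.2) ∧
      ENNReal.ofReal ε * (farCount ε (fun k j => f (Circle.exp (X (k, j % 2 ^ k)))) K : ℝ≥0∞) ≤
        150 * gapEnergy ε f := by
  set P := Measure.infinitePi mu with hP
  set cost : ((ℕ × ℕ) → ℝ) → ℝ≥0∞ := fun ω =>
    ∑ k ∈ Finset.range K, ∑ j ∈ Finset.range (2 ^ k), ∑ e : Fin 7,
      (if farP ε f (ω (rd k j (kd e).1)) (ω (rd k j (kd e).2)) then 1 else 0) with hcost
  have hmeas : Measurable fun p : ℝ × ℝ => (if farP ε f p.1 p.2 then (1 : ℝ≥0∞) else 0) :=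
    Measurable.ite (measurableSet_far ε f) measurable_const measurable_const
  have hm1 : ∀ a b : ℕ × ℕ, Measurable fun ω : (ℕ × ℕ) → ℝ =>
      (if farP ε f (ω a) (ω b) then (1 : ℝ≥0∞) else 0) := by
    intro a b
    exact hmeas.comp (g := fun p : ℝ × ℝ => (if farP ε f p.1 p.2 then (1 : ℝ≥0∞) else 0))
      (f := fun ω : (ℕ × ℕ) → ℝ => (ω a, ω b)) (by fun_prop)
  have hcm : Measurable cost := by
    refine Finset.measurable_sum _ fun k _ => Finset.measurable_sum _ fun j _ =>
      Finset.measurable_sum _ fun e _ => hm1 _ _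
  -- expectation of the cost
  set ψ : ℕ → ℝ → ℝ≥0∞ := fun k x => ∫⁻ y in Ico 0 (2 * π), Ph ε f k (x, y) with hψ
  have hψm : ∀ k, Measurable (ψ k) := fun k => (measurable_Ph ε f k).lintegral_prod_right'
  have hexp : ∫⁻ ω, cost ω ∂P ≤ 7 * ∫⁻ x in Ico 0 (2 * π), ∫⁻ y in Ico 0 (2 * π),
      (if farP ε f x y then
        ENNReal.ofReal (64 / 3 / ‖(Circle.exp x : ℂ) - (Circle.exp y : ℂ)‖ ^ 2) else 0) := by
    rw [hcost, lintegral_finsetSum _ (fun k _ => Finset.measurable_sum _ fun j _ =>
      Finset.measurable_sum _ fun e _ => hm1 _ _)]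
    calc ∑ k ∈ Finset.range K, ∫⁻ ω, ∑ j ∈ Finset.range (2 ^ k), ∑ e : Fin 7,
          (if farP ε f (ω (rd k j (kd e).1)) (ω (rd k j (kd e).2)) then 1 else 0) ∂P
        ≤ ∑ k ∈ Finset.range K, 7 * ((ENNReal.ofReal (L (k + 1)))⁻¹ * (ENNReal.ofReal (L (k + 1)))⁻¹ *
          ∫⁻ x in Ico 0 (2 * π), ψ k x) := by
          refine Finset.sum_le_sum fun k _ => ?_
          rw [lintegral_finsetSum _ (fun j _ => Finset.measurable_sum _ fun e _ => hm1 _ _)]
          have e1 : ∀ j ∈ Finset.range (2 ^ k), ∫⁻ ω, ∑ e : Fin 7,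
              (if farP ε f (ω (rd k j (kd e).1)) (ω (rd k j (kd e).2)) then (1 : ℝ≥0∞) else 0) ∂P =
              ∑ e : Fin 7, ∫⁻ ω,
              (if farP ε f (ω (rd k j (kd e).1)) (ω (rd k j (kd e).2)) then (1 : ℝ≥0∞) else 0) ∂P :=
            fun j _ => lintegral_finsetSum _ fun e _ => hm1 _ _
          rw [Finset.sum_congr rfl e1, Finset.sum_comm]
          have e2 : ∀ e : Fin 7, ∑ j ∈ Finset.range (2 ^ k), ∫⁻ ω,
              (if farP ε f (ω (rd k j (kd e).1)) (ω (rd k j (kd e).2)) then (1 : ℝ≥0∞) else 0) ∂P ≤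
              (ENNReal.ofReal (L (k + 1)))⁻¹ * (ENNReal.ofReal (L (k + 1)))⁻¹ *
                ∫⁻ x in Ico 0 (2 * π), ψ k x := by
            intro e
            calc ∑ j ∈ Finset.range (2 ^ k), ∫⁻ ω,
                (if farP ε f (ω (rd k j (kd e).1)) (ω (rd k j (kd e).2)) then (1 : ℝ≥0∞) else 0) ∂P
                ≤ ∑ j ∈ Finset.range (2 ^ k), (ENNReal.ofReal (L (k + 1)))⁻¹ *
                  (ENNReal.ofReal (L (k + 1)))⁻¹ *
                  ∫⁻ x in J (k + (kd e).1.1) (rd k j (kd e).1).2, ψ k x :=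
                  Finset.sum_le_sum fun j _ => pair_bound ε f k j (adm_kd e).1 (adm_kd e).2
              _ = (ENNReal.ofReal (L (k + 1)))⁻¹ * (ENNReal.ofReal (L (k + 1)))⁻¹ *
                  ∑ j ∈ Finset.range (2 ^ k),
                  ∫⁻ x in J (k + (kd e).1.1) (rd k j (kd e).1).2, ψ k x := by
                  rw [Finset.mul_sum]
              _ ≤ (ENNReal.ofReal (L (k + 1)))⁻¹ * (ENNReal.ofReal (L (k + 1)))⁻¹ *
                  ∑ i ∈ Finset.range (2 ^ (k + (kd e).1.1)),
                  ∫⁻ x in J (k + (kd e).1.1) i, ψ k x := by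
                  refine mul_le_mul' le_rfl ?_
                  rw [← Finset.sum_image (f := fun i => ∫⁻ x in J (k + (kd e).1.1) i, ψ k x)
                    (rd_inj k (kd e).1 (adm_kd e).1)]
                  apply Finset.sum_le_sum_of_subset
                  intro i hi
                  obtain ⟨j, _, rfl⟩ := Finset.mem_image.mp hi
                  exact Finset.mem_range.mpr (Nat.mod_lt _ (by positivity))
              _ = _ := by rw [sum_J_full]
          calc ∑ e : Fin 7, ∑ j ∈ Finset.range (2 ^ k), ∫⁻ ω,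
              (if farP ε f (ω (rd k j (kd e).1)) (ω (rd k j (kd e).2)) then (1 : ℝ≥0∞) else 0) ∂P
              ≤ ∑ e : Fin 7, (ENNReal.ofReal (L (k + 1)))⁻¹ * (ENNReal.ofReal (L (k + 1)))⁻¹ *
                ∫⁻ x in Ico 0 (2 * π), ψ k x := Finset.sum_le_sum fun e _ => e2 e
            _ = _ := by
                rw [Finset.sum_const, Finset.card_univ, Fintype.card_fin, nsmul_eq_mul]
                rfl
      _ = 7 * ∫⁻ x in Ico 0 (2 * π), ∫⁻ y in Ico 0 (2 * π), ∑ k ∈ Finset.range K,
          (ENNReal.ofReal (L (k + 1)))⁻¹ * (ENNReal.ofReal (L (k + 1)))⁻¹ * Ph ε f k (x, y) := by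
          rw [← Finset.mul_sum]
          congr 1
          have e3 : ∀ x : ℝ, ∫⁻ y in Ico 0 (2 * π), ∑ k ∈ Finset.range K,
              (ENNReal.ofReal (L (k + 1)))⁻¹ * (ENNReal.ofReal (L (k + 1)))⁻¹ * Ph ε f k (x, y) =
              ∑ k ∈ Finset.range K, (ENNReal.ofReal (L (k + 1)))⁻¹ *
                (ENNReal.ofReal (L (k + 1)))⁻¹ * ψ k x := by
            intro x
            have hmx : ∀ k, Measurable fun y : ℝ => Ph ε f k (x, y) := fun k =>
              (measurable_Ph ε f k).comp (by fun_prop)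
            rw [lintegral_finsetSum _ (fun k _ => (hmx k).const_mul _)]
            refine Finset.sum_congr rfl fun k _ => ?_
            rw [lintegral_const_mul _ (hmx k)]
          simp_rw [e3]
          rw [lintegral_finsetSum _ (fun k _ => (hψm k).const_mul _)]
          refine Finset.sum_congr rfl fun k _ => ?_
          rw [lintegral_const_mul _ (hψm k)]
      _ ≤ _ := by
          gcongr with x y
          split_ifs with h
          · have hd : 0 < ‖(Circle.exp x : ℂ) - (Circle.exp y : ℂ)‖ := by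
              rw [norm_pos_iff, sub_ne_zero]
              intro hc
              have : Circle.exp x = Circle.exp y := Subtype.ext hc
              unfold farP at h
              rw [this, edist_self] at h
              simp at h
            refine le_trans (le_of_eq ?_) (scale_sum hd K)
            refine Finset.sum_congr rfl fun k _ => ?_
            unfold Ph
            simp [h]
          · refine le_of_eq (Finset.sum_eq_zero fun k _ => ?_)
            unfold Ph
            simp [h]
  -- comparison with the energy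
  have hen : ENNReal.ofReal ε * ∫⁻ ω, cost ω ∂P ≤ 150 * gapEnergy ε f := by
    have h1 : ∫⁻ x in Ico 0 (2 * π), ∫⁻ y in Ico 0 (2 * π),
        (if farP ε f x y then
        ENNReal.ofReal (64 / 3 / ‖(Circle.exp x : ℂ) - (Circle.exp y : ℂ)‖ ^ 2) else 0) ≤
        ENNReal.ofReal (64 / 3 / ε) * gapEnergy ε f := by
      unfold gapEnergy
      rw [← lintegral_const_mul' _ _ ENNReal.ofReal_ne_top]
      refine (lintegral_mono_set Ico_subset_Icc_self).trans ?_
      refine lintegral_mono fun x => ?_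
      rw [← lintegral_const_mul' _ _ ENNReal.ofReal_ne_top]
      refine (lintegral_mono_set Ico_subset_Icc_self).trans ?_
      refine lintegral_mono fun y => ?_
      unfold farP
      by_cases h : ENNReal.ofReal ε < edist (f (Circle.exp x)) (f (Circle.exp y))
      · have h' : ENNReal.ofReal ε < edist (f (Circle.exp y)) (f (Circle.exp x)) := by
          rwa [edist_comm]
        rw [if_pos h, if_pos h', ← ENNReal.ofReal_mul (by positivity)]
        apply ENNReal.ofReal_le_ofReal
        rw [norm_sub_rev]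
        apply le_of_eq
        field_simp
      · rw [if_neg h]
        exact zero_le
    calc ENNReal.ofReal ε * ∫⁻ ω, cost ω ∂P
        ≤ ENNReal.ofReal ε * (7 * (ENNReal.ofReal (64 / 3 / ε) * gapEnergy ε f)) :=
          mul_le_mul' le_rfl (hexp.trans (mul_le_mul' le_rfl h1))
      _ = (7 * (ENNReal.ofReal ε * ENNReal.ofReal (64 / 3 / ε))) * gapEnergy ε f := by ring
      _ ≤ _ := by
          refine mul_le_mul' ?_ le_rfl
          rw [← ENNReal.ofReal_mul hε.le]
          have h7 : (7 : ℝ≥0∞) = ENNReal.ofReal 7 := by norm_num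
          have h150 : (150 : ℝ≥0∞) = ENNReal.ofReal 150 := by norm_num
          rw [h7, h150, ← ENNReal.ofReal_mul (by norm_num)]
          apply ENNReal.ofReal_le_ofReal
          have : ε * (64 / 3 / ε) = 64 / 3 := by field_simp
          rw [this]
          norm_num
  have hae : ∀ᵐ ω ∂P, ∀ a : ℕ × ℕ, ω a ∈ J a.1 a.2 := by
    rw [ae_all_iff]
    intro a
    exact (measurePreserving_eval_infinitePi mu a).quasiMeasurePreserving.ae (ae_mem_J a)
  obtain ⟨ω, hω1, hω2⟩ := exists_notMem_null_le_lintegral hcm.aemeasurable (ae_iff.mp hae)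
  have hω3 : ∀ a : ℕ × ℕ, ω a ∈ J a.1 a.2 := by
    by_contra hc
    exact hω1 hc
  refine ⟨ω, hω3, le_trans ?_ hen⟩
  refine mul_le_mul' le_rfl (le_trans (le_of_eq ?_) hω2)
  rw [hcost]
  unfold farCount
  push_cast
  refine Finset.sum_congr rfl fun k _ => Finset.sum_congr rfl fun j _ =>
    Finset.sum_congr rfl fun e _ => ?_
  by_cases h : farP ε f (ω (rd k j (kd e).1)) (ω (rd k j (kd e).2))
  · rw [if_pos h]; exact if_pos h
  · rw [if_neg h]; exact if_neg h

end Pool.Agent.H259R3.GP
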