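import Mathlib

set_option autoImplicit false

/-! Gap potentials: circle maps and loops. -/

namespace Pool.Agent.H259R3.GP

open Set Real
open scoped unitInterval

variable {Y : Type*} [TopologicalSpace Y]

instance fact_two_pi : Fact (0 < 2 * π) := ⟨by positivity⟩

/-- auxiliary extension of a closed curve to the reals -/
noncomputable def cf (F : C(I, Y)) (x : ℝ) : Y := F (projIcc 0 1 zero_le_one (x / (2 * π)))

theorem cf_of_mem (F : C(I, Y)) (t : I) : cf F (2 * π * t) = F t := by
  unfold cf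
  have e2 : 2 * π * (t : ℝ) / (2 * π) = t := by field_simp
  rw [e2, projIcc_val]

/-- circle map of a closed curve -/
noncomputable def circ (F : C(I, Y)) (h : F 0 = F 1) : C(Circle, Y) where
  toFun z := AddCircle.liftIco (2 * π) 0 (cf F) (AddCircle.homeomorphCircle'.symm z)
  continuous_toFun := by
    have h1 : Continuous (AddCircle.liftIco (2 * π) 0 (cf F)) := by
      refine AddCircle.liftIco_zero_continuous ?_ ?_
      · have e0 := cf_of_mem F 0
        have e1 := cf_of_mem F 1
        simp only [Set.Icc.coe_zero, Set.Icc.coe_one, mul_zero, mul_one] at e0 e1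
        rw [e0, e1, h]
      · apply Continuous.continuousOn
        unfold cf
        exact F.continuous.comp (continuous_projIcc.comp (by fun_prop))
    exact h1.comp AddCircle.homeomorphCircle'.symm.continuous

theorem circ_apply (F : C(I, Y)) (h : F 0 = F 1) (z : Circle) :
    circ F h z = AddCircle.liftIco (2 * π) 0 (cf F) (AddCircle.homeomorphCircle'.symm z) := rfl

theorem circ_exp (F : C(I, Y)) (h : F 0 = F 1) (t : I) : circ F h (Circle.exp (2 * π * t)) = F t := by
  by_cases ht : (t : ℝ) = 1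
  · have : t = 1 := Subtype.ext ht
    rw [this, ← h]
    have e1 : Circle.exp (2 * π * ((1 : I) : ℝ)) = Circle.exp 0 := by simp
    rw [e1, circ_apply, ← AddCircle.homeomorphCircle'_apply_mk, Homeomorph.symm_apply_apply,
      AddCircle.liftIco_zero_coe_apply ⟨le_rfl, by positivity⟩]
    have e0 := cf_of_mem F 0
    simpa using e0
  · have ht1 : (t : ℝ) < 1 := lt_of_le_of_ne t.2.2 ht
    have hpi := Real.pi_pos
    rw [circ_apply, ← AddCircle.homeomorphCircle'_apply_mk, Homeomorph.symm_apply_apply,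
      AddCircle.liftIco_zero_coe_apply ⟨mul_nonneg (by positivity) t.2.1, by nlinarith⟩, cf_of_mem]

theorem exists_exp (z : Circle) : ∃ t : I, (t : ℝ) < 1 ∧ Circle.exp (2 * π * t) = z := by
  obtain ⟨x, hx⟩ := AddCircle.homeomorphCircle'.surjective z
  set y := AddCircle.equivIco (2 * π) 0 x with hy
  have h1 : ((y : ℝ) : AddCircle (2 * π)) = x := AddCircle.coe_equivIco
  have h2 : (0 : ℝ) ≤ y ∧ (y : ℝ) < 2 * π := ⟨y.2.1, by simpa using y.2.2⟩
  have hpi := Real.pi_pos
  refine ⟨⟨y / (2 * π), div_nonneg h2.1 (by positivity), ?_⟩, ?_, ?_⟩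
  · rw [div_le_one (by positivity)]; exact h2.2.le
  · change (y : ℝ) / (2 * π) < 1
    rw [div_lt_one (by positivity)]; exact h2.2
  · change Circle.exp (2 * π * ((y : ℝ) / (2 * π))) = z
    have e : 2 * π * ((y : ℝ) / (2 * π)) = y := by field_simp
    rw [e, ← AddCircle.homeomorphCircle'_apply_mk, h1, hx]

theorem circ_ext {f g : C(Circle, Y)} (h : ∀ t : I, f (Circle.exp (2 * π * t)) = g (Circle.exp (2 * π * t))) :
    f = g := by
  ext z
  obtain ⟨t, _, ht⟩ := exists_exp z
  rw [← ht, h]

/-- homotopy from a square -/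
theorem homotopic_of_square (S : C(I × I, Y)) (h : ∀ s, S (0, s) = S (1, s)) {g0 g1 : C(Circle, Y)}
    (h0 : ∀ t : I, g0 (Circle.exp (2 * π * t)) = S (t, 0))
    (h1 : ∀ t : I, g1 (Circle.exp (2 * π * t)) = S (t, 1)) : g0.Homotopic g1 := by
  have hc : S.curry 0 = S.curry 1 := by
    ext s
    exact h s
  set Φ := circ S.curry hc with hΦ
  refine ⟨⟨⟨fun p => Φ p.2 p.1, ?_⟩, ?_, ?_⟩⟩
  · fun_prop
  · intro z
    obtain ⟨t, _, ht⟩ := exists_exp z
    change Φ z 0 = g0 z
    rw [← ht, h0, hΦ, circ_exp]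
    rfl
  · intro z
    obtain ⟨t, _, ht⟩ := exists_exp z
    change Φ z 1 = g1 z
    rw [← ht, h1, hΦ, circ_exp]
    rfl

/-- circle map of a loop -/
noncomputable def lc {p : Y} (δ : Path p p) : C(Circle, Y) := circ δ.toContinuousMap (by simp)

theorem lc_exp {p : Y} (δ : Path p p) (t : I) : lc δ (Circle.exp (2 * π * t)) = δ t := circ_exp _ _ _

theorem lc_homotopic {p : Y} {δ δ' : Path p p} (h : δ.Homotopic δ') : (lc δ).Homotopic (lc δ') := by
  obtain ⟨H⟩ := h
  refine homotopic_of_square ⟨fun q => H (q.2, q.1), by fun_prop⟩ ?_ ?_ ?_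
  · intro s
    simp
  · intro t
    rw [lc_exp]
    simp
  · intro t
    rw [lc_exp]
    simp

/-- conjugation does not change the free homotopy class -/
theorem lc_conj {p q : Y} (α : Path p q) (δ : Path q q) :
    (lc (α.trans (δ.trans α.symm))).Homotopic (lc δ) := by
  apply ContinuousMap.Homotopic.symm
  have hS : Continuous (fun x : I × I => if 2 * (x.1 : ℝ) ≤ x.2 then α.extend (1 - x.2 + 2 * x.1) else
      if 4 * (1 - (x.1 : ℝ)) ≤ x.2 then α.extend (1 - x.2 + 4 * (1 - x.1)) else
      δ.extend ((4 * x.1 - 2 * x.2) / (4 - 3 * x.2))) := by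
    have hden : ∀ x : I × I, (4 - 3 * (x.2 : ℝ)) ≠ 0 := by
      intro x
      have := x.2.2.2
      linarith
    refine Continuous.if_le (by fun_prop) (Continuous.if_le (by fun_prop) ?_ (by fun_prop) (by fun_prop) ?_)
      (by fun_prop) (by fun_prop) ?_
    · exact δ.continuous_extend.comp (Continuous.div (by fun_prop) (by fun_prop) hden)
    · intro x hx
      have h1 := x.2.2.2
      rw [Path.extend_of_one_le _ (by linarith), Path.extend_of_one_le]
      rw [le_div_iff₀ (by linarith)]
      linarith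
    · intro x hx
      have h1 := x.2.2.2
      have h2 := x.2.2.1
      rw [if_neg (by push Not; linarith), Path.extend_of_one_le _ (by linarith),
        Path.extend_of_le_zero]
      apply div_nonpos_of_nonpos_of_nonneg <;> linarith
  refine homotopic_of_square ⟨_, hS⟩ ?_ ?_ ?_
  · intro s
    have h1 := s.2.2
    have h2 := s.2.1
    change (if 2 * ((0 : I) : ℝ) ≤ s then α.extend (1 - s + 2 * ((0 : I) : ℝ)) else
      if 4 * (1 - ((0 : I) : ℝ)) ≤ s then α.extend (1 - s + 4 * (1 - ((0 : I) : ℝ))) else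
      δ.extend ((4 * ((0 : I) : ℝ) - 2 * s) / (4 - 3 * s))) =
      (if 2 * ((1 : I) : ℝ) ≤ s then α.extend (1 - s + 2 * ((1 : I) : ℝ)) else
      if 4 * (1 - ((1 : I) : ℝ)) ≤ s then α.extend (1 - s + 4 * (1 - ((1 : I) : ℝ))) else
      δ.extend ((4 * ((1 : I) : ℝ) - 2 * s) / (4 - 3 * s)))
    simp only [Set.Icc.coe_zero, Set.Icc.coe_one]
    rw [if_pos (by linarith), if_neg (by push Not; linarith), if_pos (by linarith)]
    ring_nf
  · intro t
    have h1 := t.2.2
    have h2 := t.2.1
    rw [lc_exp]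
    change _ = (if 2 * (t : ℝ) ≤ ((0 : I) : ℝ) then α.extend (1 - ((0 : I) : ℝ) + 2 * t) else
      if 4 * (1 - (t : ℝ)) ≤ ((0 : I) : ℝ) then α.extend (1 - ((0 : I) : ℝ) + 4 * (1 - t)) else
      δ.extend ((4 * t - 2 * ((0 : I) : ℝ)) / (4 - 3 * ((0 : I) : ℝ))))
    simp only [Set.Icc.coe_zero]
    split_ifs with h3 h4
    · have : (t : ℝ) = 0 := by linarith
      have : t = 0 := Subtype.ext this
      rw [this]
      simp
    · have : (t : ℝ) = 1 := by linarith
      have : t = 1 := Subtype.ext this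
      rw [this]
      simp
    · rw [← Path.extend_extends' δ t]
      congr 1
      ring
  · intro t
    have h1 := t.2.2
    have h2 := t.2.1
    rw [lc_exp]
    change _ = (if 2 * (t : ℝ) ≤ ((1 : I) : ℝ) then α.extend (1 - ((1 : I) : ℝ) + 2 * t) else
      if 4 * (1 - (t : ℝ)) ≤ ((1 : I) : ℝ) then α.extend (1 - ((1 : I) : ℝ) + 4 * (1 - t)) else
      δ.extend ((4 * t - 2 * ((1 : I) : ℝ)) / (4 - 3 * ((1 : I) : ℝ))))
    simp only [Set.Icc.coe_one]
    rw [← Path.extend_extends' (α.trans (δ.trans α.symm)) t]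
    split_ifs with h3 h4
    · rw [Path.extend_trans_of_le_half _ _ (by linarith)]
      congr 1
      ring
    · rw [Path.extend_trans_of_half_le _ _ (by linarith),
        Path.extend_trans_of_half_le _ _ (by linarith), Path.extend_symm_apply]
      congr 1
      ring
    · push Not at h3 h4
      rw [Path.extend_trans_of_half_le _ _ (by linarith),
        Path.extend_trans_of_le_half _ _ (by linarith)]
      congr 1
      ring

/-- rotation -/
theorem homotopic_rot (f : C(Circle, Y)) (a : ℝ) {g : C(Circle, Y)}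
    (hg : ∀ t : I, g (Circle.exp (2 * π * t)) = f (Circle.exp (a + 2 * π * t))) : f.Homotopic g := by
  refine homotopic_of_square ⟨fun q => f (Circle.exp (q.2 * a + 2 * π * q.1)), by fun_prop⟩ ?_ ?_ ?_
  · intro s
    change f (Circle.exp (s * a + 2 * π * ((0 : I) : ℝ))) = f (Circle.exp (s * a + 2 * π * ((1 : I) : ℝ)))
    simp only [Set.Icc.coe_zero, Set.Icc.coe_one, mul_zero, add_zero, mul_one, Circle.exp_add_two_pi]
  · intro t
    change _ = f (Circle.exp (((0 : I) : ℝ) * a + 2 * π * t))
    simp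
  · intro t
    change _ = f (Circle.exp (((1 : I) : ℝ) * a + 2 * π * t))
    rw [hg]
    simp

end Pool.Agent.H259R3.GP
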