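import Pool.Agent.H259R3.GP4
import Pool.Agent.H259R3.GP5

set_option autoImplicit false

/-! Gap potentials: loop group, short paths, transition elements, ring products. -/

namespace Pool.Agent.H259R3.GP

open Set Real
open scoped unitInterval

section loops

variable {Y : Type*} [TopologicalSpace Y]

/-- the group of homotopy classes of loops -/
def LG (p : Y) : Type _ := Path.Homotopic.Quotient p p

noncomputable instance (p : Y) : Group (LG p) where
  mul a b := Path.Homotopic.Quotient.trans a b
  one := Path.Homotopic.Quotient.refl p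
  inv a := Path.Homotopic.Quotient.symm a
  mul_assoc a b c := Path.Homotopic.Quotient.trans_assoc a b c
  one_mul a := Path.Homotopic.Quotient.refl_trans a
  mul_one a := Path.Homotopic.Quotient.trans_refl a
  inv_mul_cancel a := Path.Homotopic.Quotient.symm_trans a

/-- class of a loop -/
def LG.mk {p : Y} (δ : Path p p) : LG p := Path.Homotopic.Quotient.mk δ

theorem LG.mk_mul {p : Y} (δ δ' : Path p p) : LG.mk (δ.trans δ') = LG.mk δ * LG.mk δ' := rfl

theorem LG.mk_inv {p : Y} (δ : Path p p) : LG.mk δ.symm = (LG.mk δ)⁻¹ := rfl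

theorem LG.mk_refl {p : Y} : LG.mk (Path.refl p) = 1 := rfl

theorem LG.mk_surj {p : Y} (x : LG p) : ∃ δ, LG.mk δ = x := Path.Homotopic.Quotient.mk_surjective x

theorem LG.mk_eq {p : Y} {δ δ' : Path p p} : LG.mk δ = LG.mk δ' ↔ δ.Homotopic δ' :=
  Path.Homotopic.Quotient.eq

end loops

section lsc

variable {N : Type*} [PseudoEMetricSpace N]

/-- uniform local structure: small loops are trivial, near points are joined by small paths -/
structure LSC (N : Type*) [PseudoEMetricSpace N] (r1 r2 : ENNReal) : Prop where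
  uniq : ∀ (p x y : N) (γ γ' : Path x y), (∀ t, edist p (γ t) < r1) → (∀ t, edist p (γ' t) < r1) →
    γ.Homotopic γ'
  conn : ∀ x y : N, edist x y < r2 → ∃ γ : Path x y, ∀ t, edist x (γ t) < r1 / 4
  pos : 0 < r2
  le : r2 ≤ r1 / 4
  fin : r1 ≠ ⊤

namespace LSC

variable {r1 r2 : ENNReal} (H : LSC N r1 r2)

include H

/-- a short path -/
noncomputable def sh {x y : N} (h : edist x y < r2) : Path x y := (H.conn x y h).choose

theorem sh_lt {x y : N} (h : edist x y < r2) (t : I) : edist x (H.sh h t) < r1 / 4 :=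
  (H.conn x y h).choose_spec t

omit H [PseudoEMetricSpace N] in
theorem quarter_le : r1 / 4 ≤ r1 := ENNReal.div_le_of_le_mul (by
  calc r1 = r1 * 1 := (mul_one _).symm
    _ ≤ r1 * 4 := by gcongr; norm_num)

omit H [PseudoEMetricSpace N] in
theorem quarter_add : r1 / 4 + r1 / 4 ≤ r1 := by
  have h4 : r1 / 4 + r1 / 4 + (r1 / 4 + r1 / 4) = r1 := by
    have : r1 / 4 + r1 / 4 + (r1 / 4 + r1 / 4) = 4 * (r1 / 4) := by ring
    rw [this, ENNReal.mul_div_cancel (by norm_num) (by norm_num)]
  calc r1 / 4 + r1 / 4 ≤ r1 / 4 + r1 / 4 + (r1 / 4 + r1 / 4) := le_self_add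
    _ = r1 := h4

theorem sh_seg {x y : N} (h : edist x y < r2) (γ : Path x y) (hγ : ∀ t, edist x (γ t) < r1) :
    γ.Homotopic (H.sh h) :=
  H.uniq x x y γ (H.sh h) hγ fun t => (H.sh_lt h t).trans_le quarter_le

theorem sh_trans {x y z : N} (hxy : edist x y < r2) (hyz : edist y z < r2) (hxz : edist x z < r2) :
    ((H.sh hxy).trans (H.sh hyz)).Homotopic (H.sh hxz) := by
  apply H.sh_seg
  intro t
  rw [Path.trans_apply]
  split_ifs with h
  · exact (H.sh_lt hxy _).trans_le quarter_le
  · calc edist x (H.sh hyz _) ≤ edist x y + edist y (H.sh hyz _) := edist_triangle _ _ _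
      _ < r1 / 4 + r1 / 4 := ENNReal.add_lt_add (hxy.trans_le H.le) (H.sh_lt hyz _)
      _ ≤ r1 := quarter_add

theorem sh_refl (x : N) (h : edist x x < r2) : (H.sh h).Homotopic (Path.refl x) := by
  apply Path.Homotopic.symm
  apply H.sh_seg
  intro t
  simp only [Path.refl_apply, edist_self]
  exact (H.pos.trans_le H.le).trans_le quarter_le

theorem sh_symm {x y : N} (h : edist x y < r2) (h' : edist y x < r2) :
    (H.sh h').Homotopic (H.sh h).symm := by
  apply Path.Homotopic.symm
  apply H.uniq x
  · intro t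
    exact (H.sh_lt h _).trans_le quarter_le
  · intro t
    calc edist x (H.sh h' t) ≤ edist x y + edist y (H.sh h' t) := edist_triangle _ _ _
      _ < r1 / 4 + r1 / 4 := ENNReal.add_lt_add (h.trans_le H.le) (H.sh_lt h' _)
      _ ≤ r1 := quarter_add

end LSC

end lsc

section groupoid

variable {Y : Type*} [TopologicalSpace Y]

open Path.Homotopic.Quotient in
theorem quot_cancel {p x y z : Y} (A : Path.Homotopic.Quotient p x) (s : Path.Homotopic.Quotient x y)
    (B : Path.Homotopic.Quotient p y) (s' : Path.Homotopic.Quotient y z)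
    (C : Path.Homotopic.Quotient p z) :
    (A.trans (s.trans B.symm)).trans (B.trans (s'.trans C.symm)) =
      A.trans ((s.trans s').trans C.symm) := by
  simp only [trans_assoc]
  rw [← trans_assoc B.symm, symm_trans, refl_trans]

/-- segment in the reals -/
noncomputable def ln (x y : ℝ) : Path x y where
  toFun t := (1 - t) * x + t * y
  continuous_toFun := by fun_prop
  source' := by simp
  target' := by simp

/-- image of a segment -/
noncomputable def seg (F : C(ℝ, Y)) (x y : ℝ) : Path (F x) (F y) := (ln x y).map F.continuous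

theorem seg_apply (F : C(ℝ, Y)) (x y : ℝ) (t : I) : seg F x y t = F ((1 - t) * x + t * y) := rfl

theorem seg_trans (F : C(ℝ, Y)) (x y z : ℝ) :
    ((seg F x y).trans (seg F y z)).Homotopic (seg F x z) := by
  unfold seg
  rw [← Path.map_trans]
  exact (SimplyConnectedSpace.paths_homotopic _ _).map F

theorem seg_self (F : C(ℝ, Y)) (x : ℝ) : seg F x x = Path.refl (F x) := by
  ext t
  rw [seg_apply]
  simp only [Path.refl_apply]
  congr 1
  ring

end groupoid

section trans

variable {N : Type*} [PseudoEMetricSpace N] {r1 r2 : ENNReal} (H : LSC N r1 r2)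
  {m : ℕ} (a : Fin m → N) (p0 : N)

open Classical in
/-- transition elements -/
noncomputable def gg (i j : Fin m) : LG p0 :=
  if h : Joined p0 (a i) ∧ Joined p0 (a j) ∧ edist (a i) (a j) < r2 then
    LG.mk ((h.1.somePath).trans ((H.sh h.2.2).trans (h.2.1.somePath).symm)) else 1

theorem gg_of {i j : Fin m} (hi : Joined p0 (a i)) (hj : Joined p0 (a j))
    (hij : edist (a i) (a j) < r2) :
    gg H a p0 i j = (Path.Homotopic.Quotient.mk hi.somePath).trans
      ((Path.Homotopic.Quotient.mk (H.sh hij)).trans (Path.Homotopic.Quotient.mk hj.somePath).symm) := by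
  unfold gg
  rw [dif_pos ⟨hi, hj, hij⟩]
  rfl

theorem gg_one (i : Fin m) : gg H a p0 i i = 1 := by
  by_cases h : Joined p0 (a i)
  · rw [gg_of H a p0 h h (by rw [edist_self]; exact H.pos)]
    rw [Path.Homotopic.Quotient.eq.mpr (H.sh_refl (a i) _), Path.Homotopic.Quotient.mk_refl,
      Path.Homotopic.Quotient.refl_trans, Path.Homotopic.Quotient.trans_symm]
    rfl
  · unfold gg
    rw [dif_neg]
    exact fun hc => h hc.1

theorem joined_iff (H : LSC N r1 r2) {p x y : N} (h : edist x y < r2) : Joined p x ↔ Joined p y := by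
  have h1 : Joined x y := ⟨H.sh h⟩
  exact ⟨fun h2 => h2.trans h1, fun h2 => h2.trans h1.symm⟩

theorem gg_mul (i j k : Fin m) (hij : edist (a i) (a j) < r2) (hjk : edist (a j) (a k) < r2)
    (hik : edist (a i) (a k) < r2) : gg H a p0 i j * gg H a p0 j k = gg H a p0 i k := by
  by_cases h : Joined p0 (a i)
  · have h' := (joined_iff H hij).mp h
    have h'' := (joined_iff H hik).mp h
    rw [gg_of H a p0 h h' hij, gg_of H a p0 h' h'' hjk, gg_of H a p0 h h'' hik]
    change Path.Homotopic.Quotient.trans _ _ = _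
    rw [quot_cancel, ← Path.Homotopic.Quotient.mk_trans,
      Path.Homotopic.Quotient.eq.mpr (H.sh_trans hij hjk hik)]
  · have h' : ¬ Joined p0 (a j) := fun hc => h ((joined_iff H hij).mpr hc)
    unfold gg
    rw [dif_neg (fun hc => h hc.1), dif_neg (fun hc => h' hc.1), dif_neg (fun hc => h hc.1), mul_one]

/-- class of a path from the base point to a point through its colour -/
noncomputable def gm {p : N} {i : Fin m} (hi : Joined p0 (a i)) (h : edist (a i) p < r2) :
    Path.Homotopic.Quotient p0 p :=
  (Path.Homotopic.Quotient.mk hi.somePath).trans (Path.Homotopic.Quotient.mk (H.sh h))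

theorem gm_step {p q : N} {i j : Fin m} (hi : Joined p0 (a i)) (hj : Joined p0 (a j))
    (hp : edist (a i) p < r2) (hq : edist (a j) q < r2) (hiq : edist (a i) q < r2)
    (hpq : edist p q < r2) (hij : edist (a i) (a j) < r2)
    (γ : Path p q) (hγ : ∀ t, edist p (γ t) < r1) :
    (gm H a p0 hi hp).trans ((Path.Homotopic.Quotient.mk γ).trans (gm H a p0 hj hq).symm) =
      gg H a p0 i j := by
  rw [Path.Homotopic.Quotient.eq.mpr (H.sh_seg hpq γ hγ), gg_of H a p0 hi hj hij]
  unfold gm
  have hqj : edist q (a j) < r2 := by rwa [edist_comm]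
  have e1 : ((Path.Homotopic.Quotient.mk hj.somePath).trans
      (Path.Homotopic.Quotient.mk (H.sh hq))).symm =
      (Path.Homotopic.Quotient.mk (H.sh hqj)).trans (Path.Homotopic.Quotient.mk hj.somePath).symm := by
    rw [Path.Homotopic.Quotient.eq.mpr (H.sh_symm hq hqj)]
    rw [← Path.Homotopic.Quotient.mk_trans, ← Path.Homotopic.Quotient.mk_symm, Path.trans_symm,
      Path.Homotopic.Quotient.mk_trans, Path.Homotopic.Quotient.mk_symm,
      Path.Homotopic.Quotient.mk_symm]
  rw [e1]
  simp only [Path.Homotopic.Quotient.trans_assoc]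
  congr 1
  rw [← Path.Homotopic.Quotient.trans_assoc, ← Path.Homotopic.Quotient.mk_trans,
    Path.Homotopic.Quotient.eq.mpr (H.sh_trans hp hpq hiq), ← Path.Homotopic.Quotient.trans_assoc,
    ← Path.Homotopic.Quotient.mk_trans, Path.Homotopic.Quotient.eq.mpr (H.sh_trans hiq hqj hij)]

end trans

end Pool.Agent.H259R3.GP
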