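import Pool.Agent.H259R3.GP6

set_option autoImplicit false

/-! Gap potentials: the ring product is the class of the map. -/

namespace Pool.Agent.H259R3.GP

open Set Real
open scoped unitInterval

variable {N : Type*} [PseudoEMetricSpace N] {r1 r2 : ENNReal} (H : LSC N r1 r2)
  {m : ℕ} (a : Fin m → N) (p0 : N)

section

variable (F : C(ℝ, N)) (c : N → Fin m) {ρ ε : ℝ} (hρ : 0 < ρ) (hε : 0 < ε) (hερ : ε ≤ ρ)
  (hr2 : r2 = ENNReal.ofReal (5 * ρ))
  (hc : ∀ p, edist p (a (c p)) < ENNReal.ofReal (2 * ρ))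
  (hJ : ∀ x, Joined p0 (F x))

include hρ hr2 hc in
theorem ac_lt (p : N) : edist (a (c p)) p < r2 := by
  rw [edist_comm, hr2]
  exact (hc p).trans_le (ENNReal.ofReal_le_ofReal (by linarith))

include H hρ hr2 hc hJ in
theorem ac_joined (x : ℝ) : Joined p0 (a (c (F x))) :=
  (joined_iff H (ac_lt a c hρ hr2 hc (F x))).mpr (hJ x)

include hρ hε hερ in
theorem ring_prod (X : ℕ → ℝ)
    (hX : ∀ j t, edist (F (X j)) (seg F (X j) (X (j + 1)) t) ≤ ENNReal.ofReal ε) (n : ℕ) :
    rp (fun j => gg H a p0 (c (F (X j))) (c (F (X (j + 1))))) n =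
      (gm H a p0 (ac_joined H a p0 F c hρ hr2 hc hJ (X 0)) (ac_lt a c hρ hr2 hc (F (X 0)))).trans
        ((Path.Homotopic.Quotient.mk (seg F (X 0) (X n))).trans
        (gm H a p0 (ac_joined H a p0 F c hρ hr2 hc hJ (X n)) (ac_lt a c hρ hr2 hc (F (X n)))).symm) := by
  induction n with
  | zero =>
    rw [seg_self, Path.Homotopic.Quotient.mk_refl, Path.Homotopic.Quotient.refl_trans,
      Path.Homotopic.Quotient.trans_symm]
    rfl
  | succ n ih =>
    rw [rp_succ, ih]
    have hd : edist (F (X n)) (F (X (n + 1))) ≤ ENNReal.ofReal ε := by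
      have := hX n 1
      rwa [Path.target] at this
    have h2 : ENNReal.ofReal (2 * ρ) + ENNReal.ofReal ε ≤ ENNReal.ofReal (3 * ρ) := by
      rw [← ENNReal.ofReal_add (by positivity) hε.le]
      exact ENNReal.ofReal_le_ofReal (by linarith)
    have hiq : edist (a (c (F (X n)))) (F (X (n + 1))) < ENNReal.ofReal (3 * ρ) := by
      calc edist (a (c (F (X n)))) (F (X (n + 1)))
          ≤ edist (a (c (F (X n)))) (F (X n)) + edist (F (X n)) (F (X (n + 1))) := edist_triangle _ _ _
        _ < ENNReal.ofReal (2 * ρ) + ENNReal.ofReal ε := by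
            apply ENNReal.add_lt_add_of_lt_of_le _ _ hd
            · exact ne_top_of_le_ne_top ENNReal.ofReal_ne_top hd
            · rw [edist_comm]; exact hc _
        _ ≤ _ := h2
    have hij : edist (a (c (F (X n)))) (a (c (F (X (n + 1))))) < r2 := by
      rw [hr2]
      calc edist (a (c (F (X n)))) (a (c (F (X (n + 1)))))
          ≤ edist (a (c (F (X n)))) (F (X (n + 1))) + edist (F (X (n + 1))) (a (c (F (X (n + 1))))) :=
            edist_triangle _ _ _
        _ < ENNReal.ofReal (3 * ρ) + ENNReal.ofReal (2 * ρ) := ENNReal.add_lt_add hiq (hc _)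
        _ = _ := by
            rw [← ENNReal.ofReal_add (by positivity) (by positivity)]
            congr 1
            ring
    have hle : ENNReal.ofReal ε < r2 := by
      rw [hr2]
      exact (ENNReal.ofReal_lt_ofReal_iff (by positivity)).mpr (by linarith)
    rw [← gm_step H a p0 (ac_joined H a p0 F c hρ hr2 hc hJ (X n))
      (ac_joined H a p0 F c hρ hr2 hc hJ (X (n + 1)))
      (ac_lt a c hρ hr2 hc (F (X n))) (ac_lt a c hρ hr2 hc (F (X (n + 1))))
      (hiq.trans_le (by rw [hr2]; exact ENNReal.ofReal_le_ofReal (by linarith)))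
      (hd.trans_lt hle) hij (seg F (X n) (X (n + 1)))
      (fun t => ((hX n t).trans_lt hle).trans_le (H.le.trans LSC.quarter_le))]
    change Path.Homotopic.Quotient.trans _ _ = _
    rw [quot_cancel, ← Path.Homotopic.Quotient.mk_trans,
      Path.Homotopic.Quotient.eq.mpr (seg_trans F (X 0) (X n) (X (n + 1)))]

end

theorem cast_aux {q q' : N} (h : q' = q) {i i' : Fin m} (hi : Joined p0 (a i)) (hi' : Joined p0 (a i'))
    (hii : i' = i) (hp : edist (a i) q < r2) (hp' : edist (a i') q' < r2) (γ : Path q q') :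
    (gm H a p0 hi hp).trans ((Path.Homotopic.Quotient.mk γ).trans (gm H a p0 hi' hp').symm) =
      (gm H a p0 hi hp).trans ((Path.Homotopic.Quotient.mk (γ.cast rfl h.symm)).trans
        (gm H a p0 hi hp).symm) := by
  subst h hii
  rfl

/-- the lift of a circle map to the line -/
noncomputable def lift (f : C(Circle, N)) : C(ℝ, N) := ⟨fun x => f (Circle.exp x), by fun_prop⟩

theorem class_eq (f : C(Circle, N)) (c : N → Fin m) {ρ ε : ℝ} (hρ : 0 < ρ) (hε : 0 < ε) (hερ : ε ≤ ρ)
    (hr2 : r2 = ENNReal.ofReal (5 * ρ))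
    (hc : ∀ p, edist p (a (c p)) < ENNReal.ofReal (2 * ρ))
    (hJ : ∀ x, Joined p0 (lift f x)) (X : ℕ → ℝ)
    (hX : ∀ j t, edist (lift f (X j)) (seg (lift f) (X j) (X (j + 1)) t) ≤ ENNReal.ofReal ε) (n : ℕ)
    (hn : X n = X 0 + 2 * π) (δ : Path p0 p0)
    (hδ : LG.mk δ = rp (fun j => gg H a p0 (c (lift f (X j))) (c (lift f (X (j + 1))))) n) :
    f.Homotopic (lc δ) := by
  rw [ring_prod H a p0 (lift f) c hρ hε hερ hr2 hc hJ X hX n] at hδ
  have hF : lift f (X n) = lift f (X 0) := by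
    rw [hn]
    change f (Circle.exp (X 0 + 2 * π)) = f (Circle.exp (X 0))
    rw [Circle.exp_add_two_pi]
  rw [cast_aux H a p0 hF (ac_joined H a p0 (lift f) c hρ hr2 hc hJ (X 0))
    (ac_joined H a p0 (lift f) c hρ hr2 hc hJ (X n)) (by rw [hF])] at hδ
  obtain ⟨A, hA⟩ := Path.Homotopic.Quotient.mk_surjective
    (gm H a p0 (ac_joined H a p0 (lift f) c hρ hr2 hc hJ (X 0)) (ac_lt a c hρ hr2 hc (lift f (X 0))))
  set β : Path (lift f (X 0)) (lift f (X 0)) := (seg (lift f) (X 0) (X n)).cast rfl hF.symm with hβ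
  rw [← hA, ← Path.Homotopic.Quotient.mk_symm, ← Path.Homotopic.Quotient.mk_trans,
    ← Path.Homotopic.Quotient.mk_trans] at hδ
  have h1 : δ.Homotopic (A.trans (β.trans A.symm)) := Path.Homotopic.Quotient.exact hδ
  refine (homotopic_rot f (X 0) ?_).trans ((lc_conj A β).symm.trans (lc_homotopic h1).symm)
  intro t
  rw [lc_exp]
  change lift f ((1 - t) * X 0 + t * X n) = f (Circle.exp (X 0 + 2 * π * t))
  change f (Circle.exp ((1 - t) * X 0 + t * X n)) = f (Circle.exp (X 0 + 2 * π * t))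
  rw [hn]
  congr 2
  ring

end Pool.Agent.H259R3.GP
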