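import Pool.Agent.H74R6.LW.Stmts

set_option autoImplicit false

namespace Pool.Agent.H259R3.LWC1

open Pool.Agent.H981R3.LN (ql Sk)

theorem key (p : ℕ) [Fact p.Prime] (U : Set (ZMod p)ˣ) (n : ℕ) (hn : n ∣ p - 1) :
    (∀ u ∈ U, u ^ ((p - 1) / n) = 1) ↔ n ∣ (Subgroup.closure U).index := by
  have hp : p.Prime := Fact.out
  have hp1 : 0 < p - 1 := by have := hp.two_le; omega
  have hcard : Nat.card (Subgroup.closure U) * (Subgroup.closure U).index = p - 1 := by
    rw [Subgroup.card_mul_index, Nat.card_eq_fintype_card, ZMod.card_units p]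
  have hn0 : 0 < n := Nat.pos_of_dvd_of_pos hn hp1
  have hc0 : 0 < Nat.card (Subgroup.closure U) := Nat.card_pos
  constructor
  · intro h
    have h1 : Subgroup.closure U ≤ (powMonoidHom ((p - 1) / n) : (ZMod p)ˣ →* (ZMod p)ˣ).ker := by
      rw [Subgroup.closure_le]
      intro u hu
      show u ∈ (powMonoidHom ((p - 1) / n) : (ZMod p)ˣ →* (ZMod p)ˣ).ker
      rw [MonoidHom.mem_ker]
      exact h u hu
    have h2 : Monoid.exponent (Subgroup.closure U) ∣ (p - 1) / n := by
      apply Monoid.exponent_dvd_of_forall_pow_eq_one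
      intro g
      have h3 := h1 g.2
      rw [MonoidHom.mem_ker] at h3
      apply Subtype.ext
      exact h3
    rw [IsCyclic.exponent_eq_card] at h2
    obtain ⟨c, hc⟩ := h2
    obtain ⟨d, hd⟩ := hn
    rw [hd, Nat.mul_div_cancel_left d hn0] at hc
    refine ⟨c, ?_⟩
    apply Nat.eq_of_mul_eq_mul_left hc0
    rw [hcard, hd, hc]
    ring
  · rintro ⟨c, hc⟩ u hu
    have h1 : (p - 1) / n = Nat.card (Subgroup.closure U) * c := by
      apply Nat.div_eq_of_eq_mul_right hn0
      rw [← hcard, hc]
      ring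
    have h2 : (⟨u, Subgroup.subset_closure hu⟩ : Subgroup.closure U) ^
        Nat.card (Subgroup.closure U) = 1 := pow_card_eq_one'
    have h3 : u ^ Nat.card (Subgroup.closure U) = 1 := congrArg Subtype.val h2
    rw [h1, pow_mul, h3, one_pow]

/-- Task C1 of project LW. -/
theorem taskC1 : Pool.Agent.H74R6.LW.TaskC1 := by
  intro p _ k hk U
  have hp : p.Prime := Fact.out
  have hp1 : 0 < p - 1 := by have := hp.two_le; omega
  have hcard : Nat.card (Subgroup.closure U) * (Subgroup.closure U).index = p - 1 := by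
    rw [Subgroup.card_mul_index, Nat.card_eq_fintype_card, ZMod.card_units p]
  have hi0 : (Subgroup.closure U).index ≠ 0 := by
    intro h
    rw [h, mul_zero] at hcard
    omega
  have hidvd : (Subgroup.closure U).index ∣ p - 1 := ⟨_, by rw [← hcard]; ring⟩
  have hne : ∀ l ∈ Sk k (p - 1), ((∃ u ∈ U, u ^ ((p - 1) / ql k l) ≠ 1) ↔
      ¬ ql k l ∣ (Subgroup.closure U).index) := by
    intro l hl
    rw [← key p U (ql k l) (Pool.Agent.H981R3.LN.Sk_dvd hl)]
    push Not
    rfl
  constructor
  · intro h l hl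
    rw [hne l hl]
    intro h1
    have h2 := h1.trans h
    unfold ql at h2
    rw [(Pool.Agent.H981R3.LN.Sk_prime hl).pow_dvd_iff_le_factorization hk] at h2
    omega
  · intro h
    rw [← Nat.factorization_le_iff_dvd hi0 hk]
    intro l
    by_contra hcon
    push Not at hcon
    by_cases hl : l.Prime
    · have h1 : ql k l ∣ (Subgroup.closure U).index := by
        unfold ql
        rw [hl.pow_dvd_iff_le_factorization hi0]
        omega
      have h2 : ql k l ∣ p - 1 := h1.trans hidvd
      have h3 : l ∈ Sk k (p - 1) := (Pool.Agent.H981R3.LN.mem_Sk hp1.ne').2 ⟨hl, h2⟩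
      exact (hne l h3).1 (h l h3) h1
    · have h0 := Nat.factorization_eq_zero_of_not_prime ((Subgroup.closure U).index) hl
      omega

end Pool.Agent.H259R3.LWC1
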