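import Mathlib

set_option autoImplicit false

/-! Boolean functions of sensitivity `s` depend on at most `8 * 4 ^ (s - 1)` coordinates. -/

namespace Pool.Agent.H259R3.SensJunta

open Finset

variable {n : ℕ}

/-- flip coordinate `i` -/
def fl (x : Fin n → Bool) (i : Fin n) : Fin n → Bool := Function.update x i (!x i)

lemma fl_same (x : Fin n → Bool) (i : Fin n) : fl x i i = !x i := by simp [fl]

lemma fl_ne (x : Fin n → Bool) {i l : Fin n} (h : l ≠ i) : fl x i l = x l := by
  simp [fl, Function.update_of_ne h]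

lemma fl_fl (x : Fin n → Bool) (i : Fin n) : fl (fl x i) i = x := by
  funext l
  by_cases h : l = i
  · subst h; rw [fl_same, fl_same]; simp
  · rw [fl_ne _ h, fl_ne _ h]

lemma fl_comm (x : Fin n → Bool) (i j : Fin n) : fl (fl x i) j = fl (fl x j) i := by
  by_cases hij : i = j
  · subst hij; rfl
  funext l
  by_cases h : l = i
  · subst h
    rw [fl_ne _ hij, fl_same, fl_same, fl_ne _ hij]
  · by_cases h' : l = j
    · subst h'
      rw [fl_same, fl_ne _ h, fl_ne _ h, fl_same]
    · rw [fl_ne _ h', fl_ne _ h, fl_ne _ h, fl_ne _ h']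

/-! ### The trie martingale -/

section Martingale

open Classical in
/-- forced coordinates of `x` for the predicate `G` -/
noncomputable def FoG (G : (Fin n → Bool) → Prop) (x : Fin n → Bool) : Finset (Fin n) :=
  univ.filter (fun k => ∀ z, G z → (∀ l, l < k → z l = x l) → z k = x k)

lemma mem_FoG {G : (Fin n → Bool) → Prop} {x : Fin n → Bool} {k : Fin n} :
    k ∈ FoG G x ↔ ∀ z, G z → (∀ l, l < k → z l = x l) → z k = x k := by
  simp [FoG]

open Classical in
lemma martingale_aux (G : (Fin n → Bool) → Prop) (d : ℕ) :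
    ∀ m : ℕ, m + d = n → ∀ p, G p →
      2 ^ d ≤ ∑ x ∈ univ.filter (fun x => G x ∧ ∀ l : Fin n, (l : ℕ) < m → x l = p l),
        2 ^ ((FoG G x).filter (fun k : Fin n => m ≤ (k : ℕ))).card := by
  induction d with
  | zero =>
    intro m hm p hp
    have hmem : p ∈ univ.filter (fun x => G x ∧ ∀ l : Fin n, (l : ℕ) < m → x l = p l) := by
      simp [hp]
    calc 2 ^ 0 ≤ 2 ^ ((FoG G p).filter (fun k : Fin n => m ≤ (k : ℕ))).card :=
          Nat.pow_le_pow_right (by norm_num) (Nat.zero_le _)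
      _ ≤ _ := Finset.single_le_sum (f := fun x => 2 ^ ((FoG G x).filter (fun k : Fin n => m ≤ (k : ℕ))).card)
          (fun _ _ => Nat.zero_le _) hmem
  | succ d ih =>
    intro m hm p hp
    have hmn : m < n := by omega
    set k0 : Fin n := ⟨m, hmn⟩ with hk0
    by_cases hq : ∃ q, G q ∧ (∀ l : Fin n, (l : ℕ) < m → q l = p l) ∧ q k0 ≠ p k0
    · obtain ⟨q, hGq, hqp, hqk⟩ := hq
      have h1 := ih (m + 1) (by omega) p hp
      have h2 := ih (m + 1) (by omega) q hGq
      set A := univ.filter (fun x => G x ∧ ∀ l : Fin n, (l : ℕ) < m + 1 → x l = p l) with hA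
      set B := univ.filter (fun x => G x ∧ ∀ l : Fin n, (l : ℕ) < m + 1 → x l = q l) with hB
      have hdisj : Disjoint A B := by
        rw [Finset.disjoint_left]
        intro x hx hx'
        simp only [hA, hB, mem_filter, mem_univ, true_and] at hx hx'
        have e1 := hx.2 k0 (by simp [hk0])
        have e2 := hx'.2 k0 (by simp [hk0])
        exact hqk (by rw [← e2, e1])
      have hsub : A ∪ B ⊆ univ.filter (fun x => G x ∧ ∀ l : Fin n, (l : ℕ) < m → x l = p l) := by
        intro x hx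
        rcases mem_union.1 hx with hx | hx
        · simp only [hA, mem_filter, mem_univ, true_and] at hx ⊢
          exact ⟨hx.1, fun l hl => hx.2 l (by omega)⟩
        · simp only [hB, mem_filter, mem_univ, true_and] at hx ⊢
          exact ⟨hx.1, fun l hl => by rw [hx.2 l (by omega), hqp l hl]⟩
      have hmono : ∀ x, 2 ^ ((FoG G x).filter (fun k : Fin n => m + 1 ≤ (k : ℕ))).card ≤
          2 ^ ((FoG G x).filter (fun k : Fin n => m ≤ (k : ℕ))).card := by
        intro x
        apply Nat.pow_le_pow_right (by norm_num)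
        apply Finset.card_le_card
        intro k hk
        simp only [mem_filter] at hk ⊢
        exact ⟨hk.1, by omega⟩
      calc 2 ^ (d + 1) = 2 ^ d + 2 ^ d := by ring
        _ ≤ (∑ x ∈ A, 2 ^ ((FoG G x).filter (fun k : Fin n => m + 1 ≤ (k : ℕ))).card) +
            ∑ x ∈ B, 2 ^ ((FoG G x).filter (fun k : Fin n => m + 1 ≤ (k : ℕ))).card :=
            Nat.add_le_add h1 h2
        _ = ∑ x ∈ A ∪ B, 2 ^ ((FoG G x).filter (fun k : Fin n => m + 1 ≤ (k : ℕ))).card :=
            (Finset.sum_union hdisj).symm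
        _ ≤ ∑ x ∈ A ∪ B, 2 ^ ((FoG G x).filter (fun k : Fin n => m ≤ (k : ℕ))).card :=
            Finset.sum_le_sum (fun x _ => hmono x)
        _ ≤ _ := Finset.sum_le_sum_of_subset hsub
    · push_neg at hq
      have h1 := ih (m + 1) (by omega) p hp
      set A := univ.filter (fun x => G x ∧ ∀ l : Fin n, (l : ℕ) < m + 1 → x l = p l) with hA
      have hsub : A ⊆ univ.filter (fun x => G x ∧ ∀ l : Fin n, (l : ℕ) < m → x l = p l) := by
        intro x hx
        simp only [hA, mem_filter, mem_univ, true_and] at hx ⊢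
        exact ⟨hx.1, fun l hl => hx.2 l (by omega)⟩
      have hstep : ∀ x ∈ A, 2 * 2 ^ ((FoG G x).filter (fun k : Fin n => m + 1 ≤ (k : ℕ))).card ≤
          2 ^ ((FoG G x).filter (fun k : Fin n => m ≤ (k : ℕ))).card := by
        intro x hx
        simp only [hA, mem_filter, mem_univ, true_and] at hx
        rw [← pow_succ']
        apply Nat.pow_le_pow_right (by norm_num)
        have hk0mem : k0 ∈ FoG G x := by
          rw [mem_FoG]
          intro z hz hzx
          have e1 : ∀ l : Fin n, (l : ℕ) < m → z l = p l := by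
            intro l hl
            rw [hzx l (by rw [hk0]; exact hl), hx.2 l (by omega)]
          rw [hq z hz e1, hx.2 k0 (by simp [hk0])]
        have hins : insert k0 ((FoG G x).filter (fun k : Fin n => m + 1 ≤ (k : ℕ))) ⊆
            (FoG G x).filter (fun k : Fin n => m ≤ (k : ℕ)) := by
          intro k hk
          rcases mem_insert.1 hk with rfl | hk
          · simp only [mem_filter]; exact ⟨hk0mem, by simp [hk0]⟩
          · simp only [mem_filter] at hk ⊢
            exact ⟨hk.1, by omega⟩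
        have hnot : k0 ∉ (FoG G x).filter (fun k : Fin n => m + 1 ≤ (k : ℕ)) := by
          simp [hk0]
        have := Finset.card_le_card hins
        rwa [Finset.card_insert_of_notMem hnot] at this
      calc 2 ^ (d + 1) = 2 * 2 ^ d := by ring
        _ ≤ 2 * ∑ x ∈ A, 2 ^ ((FoG G x).filter (fun k : Fin n => m + 1 ≤ (k : ℕ))).card :=
            Nat.mul_le_mul_left 2 h1
        _ = ∑ x ∈ A, 2 * 2 ^ ((FoG G x).filter (fun k : Fin n => m + 1 ≤ (k : ℕ))).card := by
            rw [Finset.mul_sum]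
        _ ≤ ∑ x ∈ A, 2 ^ ((FoG G x).filter (fun k : Fin n => m ≤ (k : ℕ))).card :=
            Finset.sum_le_sum hstep
        _ ≤ _ := Finset.sum_le_sum_of_subset hsub

open Classical in
lemma martingale (G : (Fin n → Bool) → Prop) (p : Fin n → Bool) (hp : G p) :
    2 ^ n ≤ ∑ x ∈ univ.filter (fun x => G x), 2 ^ (FoG G x).card := by
  have h := martingale_aux G n 0 (by omega) p hp
  simpa using h

end Martingale

/-! ### The counting lemma for tournaments -/

lemma tournament_max {ι : Type*} [DecidableEq ι] (B : Finset ι) (Z : ι → Finset ι) (R : ι → ℕ)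
    (hne : B.Nonempty)
    (hR : ∀ i ∈ B, (Z i).card ≤ R i)
    (hp : ∀ i ∈ B, ∀ j ∈ B, i ≠ j → j ∈ Z i ∨ i ∈ Z j) :
    ∃ i ∈ B, B.card ≤ 2 * R i + 1 := by
  by_contra hcon
  push_neg at hcon
  have h1 : B.offDiag ⊆ (B.sigma (fun i => Z i)).image (fun p => (p.1, p.2)) ∪
      (B.sigma (fun i => Z i)).image (fun p => (p.2, p.1)) := by
    intro p hpm
    rw [mem_offDiag] at hpm
    rw [mem_union, mem_image, mem_image]
    rcases hp p.1 hpm.1 p.2 hpm.2.1 hpm.2.2 with h | h
    · left; exact ⟨⟨p.1, p.2⟩, by simp [hpm.1, h], rfl⟩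
    · right; exact ⟨⟨p.2, p.1⟩, by simp [hpm.2.1, h], rfl⟩
  have h2 : B.offDiag.card ≤ 2 * ∑ i ∈ B, (Z i).card := by
    calc B.offDiag.card ≤ _ := Finset.card_le_card h1
      _ ≤ _ := Finset.card_union_le _ _
      _ ≤ (B.sigma (fun i => Z i)).card + (B.sigma (fun i => Z i)).card :=
          Nat.add_le_add Finset.card_image_le Finset.card_image_le
      _ = 2 * ∑ i ∈ B, (Z i).card := by rw [Finset.card_sigma]; ring
  have h3 : ∑ i ∈ B, (2 * (Z i).card + 2) ≤ ∑ _i ∈ B, B.card := by
    apply Finset.sum_le_sum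
    intro i hi
    have := hR i hi
    have := hcon i hi
    omega
  rw [Finset.sum_const, smul_eq_mul, Finset.sum_add_distrib, Finset.sum_const, smul_eq_mul,
    ← Finset.mul_sum] at h3
  have h4 : B.offDiag.card = B.card * B.card - B.card := Finset.offDiag_card B
  have h5 : 0 < B.card := Finset.card_pos.2 hne
  have h6 : B.card ≤ B.card * B.card := Nat.le_mul_self _
  omega

lemma tournament {ι : Type*} [DecidableEq ι] (Z : ι → Finset ι) (R : ι → ℕ) (b : ℕ) :
    ∀ B : Finset ι, B.card = b →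
    (∀ i ∈ B, (Z i).card ≤ R i) →
    (∀ i ∈ B, ∀ j ∈ B, i ≠ j → j ∈ Z i ∨ i ∈ Z j) →
    ∑ i ∈ B, ((1 : ℝ) / 2) ^ (R i) ≤ 4 - 4 * (3 / 4 : ℝ) ^ b := by
  induction b with
  | zero =>
    intro B hB _ _
    rw [Finset.card_eq_zero] at hB
    subst hB
    simp
  | succ b ih =>
    intro B hB hR hp
    have hne : B.Nonempty := Finset.card_pos.1 (by omega)
    obtain ⟨i, hi, him⟩ := tournament_max B Z R hne hR hp
    have h1 := ih (B.erase i) (by rw [Finset.card_erase_of_mem hi, hB]; rfl)
      (fun j hj => hR j (Finset.mem_of_mem_erase hj))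
      (fun j hj k hk hjk => hp j (Finset.mem_of_mem_erase hj) k (Finset.mem_of_mem_erase hk) hjk)
    rw [← Finset.add_sum_erase B _ hi]
    have h2 : ((1 : ℝ) / 2) ^ (R i) ≤ (3 / 4 : ℝ) ^ b := by
      calc ((1 : ℝ) / 2) ^ (R i) ≤ ((3 / 4 : ℝ) ^ 2) ^ (R i) := by
            apply pow_le_pow_left₀ (by norm_num) (by norm_num)
        _ = (3 / 4 : ℝ) ^ (2 * R i) := by rw [← pow_mul]
        _ ≤ (3 / 4 : ℝ) ^ b := by
            apply pow_le_pow_of_le_one (by norm_num) (by norm_num) (by omega)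
    rw [pow_succ]
    linarith

/-! ### Local structure -/

variable (f : (Fin n → Bool) → Bool)

/-- sensitive coordinates at `x` -/
def Sx (x : Fin n → Bool) : Finset (Fin n) := univ.filter (fun i => f (fl x i) ≠ f x)

/-- forced coordinates for direction `i` -/
noncomputable def Fo (i : Fin n) (x : Fin n → Bool) : Finset (Fin n) :=
  FoG (fun z => f (fl z i) ≠ f z) x

/-- sensitive directions of the edge `(x, x^i)` other than `i` -/
def Ti (i : Fin n) (x : Fin n → Bool) : Finset (Fin n) := (Sx f x ∪ Sx f (fl x i)).erase i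

noncomputable def Zi (i : Fin n) (x : Fin n → Bool) : Finset (Fin n) := Ti f i x \ Fo f i x

variable {f}

lemma mem_Sx {x : Fin n → Bool} {i : Fin n} : i ∈ Sx f x ↔ f (fl x i) ≠ f x := by simp [Sx]

lemma mem_Sx_fl {x : Fin n → Bool} {i : Fin n} : i ∈ Sx f (fl x i) ↔ i ∈ Sx f x := by
  rw [mem_Sx, mem_Sx, fl_fl]; exact ne_comm

lemma mem_Fo {i k : Fin n} {x : Fin n → Bool} :
    k ∈ Fo f i x ↔ ∀ z, i ∈ Sx f z → (∀ l, l < k → z l = x l) → z k = x k := by
  simp only [Fo, mem_FoG, mem_Sx]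

lemma Fo_fl_aux {i k : Fin n} {x : Fin n → Bool} (h : k ∈ Fo f i x) : k ∈ Fo f i (fl x i) := by
  rw [mem_Fo] at h ⊢
  intro z hz hzx
  rcases lt_trichotomy i k with hik | hik | hik
  · have h1 := h (fl z i) (mem_Sx_fl.2 hz) (by
      intro l hl
      by_cases hli : l = i
      · subst hli
        rw [fl_same, hzx l hl, fl_same]; simp
      · rw [fl_ne _ hli, hzx l hl, fl_ne _ hli])
    rw [fl_ne _ hik.ne'] at h1
    rw [h1, fl_ne _ hik.ne']
  · subst hik
    have h1 := h z hz (by
      intro l hl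
      rw [hzx l hl, fl_ne _ hl.ne])
    have h2 := h (fl z i) (mem_Sx_fl.2 hz) (by
      intro l hl
      rw [fl_ne _ hl.ne, hzx l hl, fl_ne _ hl.ne])
    rw [fl_same, h1] at h2
    simp at h2
  · have h1 := h z hz (by
      intro l hl
      rw [hzx l hl, fl_ne _ (hl.trans hik).ne])
    rw [h1, fl_ne _ hik.ne]

lemma Fo_fl (i : Fin n) (x : Fin n → Bool) : Fo f i (fl x i) = Fo f i x := by
  ext k
  constructor
  · intro h
    have := Fo_fl_aux h
    rwa [fl_fl] at this
  · exact Fo_fl_aux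

lemma Ti_fl (i : Fin n) (x : Fin n → Bool) : Ti f i (fl x i) = Ti f i x := by
  unfold Ti
  rw [fl_fl, Finset.union_comm]

lemma Zi_fl (i : Fin n) (x : Fin n → Bool) : Zi f i (fl x i) = Zi f i x := by
  unfold Zi
  rw [Fo_fl, Ti_fl]

/-- a forced direction `k` at `x`: the point `x^k` is not sensitive in direction `i` -/
lemma Fo_flip {i k : Fin n} {x : Fin n → Bool} (h : k ∈ Fo f i x) : f (fl (fl x k) i) = f (fl x k) := by
  by_contra hne
  rw [mem_Fo] at h
  have h1 := h (fl x k) (mem_Sx.2 hne) (fun l hl => fl_ne _ hl.ne)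
  rw [fl_same] at h1
  simp at h1

lemma Fo_subset {i : Fin n} {x : Fin n → Bool} (hi : i ∈ Sx f x) : Fo f i x ⊆ Ti f i x := by
  intro k hk
  have h1 := Fo_flip hk
  unfold Ti
  rw [mem_erase, mem_union]
  have hki : k ≠ i := by
    rintro rfl
    rw [fl_fl] at h1
    exact (mem_Sx.1 hi) h1.symm
  refine ⟨hki, ?_⟩
  by_contra hcon
  push_neg at hcon
  obtain ⟨h2, h3⟩ := hcon
  rw [mem_Sx, not_not] at h2 h3
  rw [fl_comm] at h3
  rw [h1, h2] at h3
  exact (mem_Sx.1 hi) h3.symm

lemma Fo_of_notMem_Zi {i k : Fin n} {x : Fin n → Bool} (h1 : k ∉ Zi f i x) (h2 : k ≠ i)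
    (h3 : k ∈ Sx f x ∨ k ∈ Sx f (fl x i)) : k ∈ Fo f i x := by
  by_contra h4
  apply h1
  unfold Zi Ti
  rw [mem_sdiff, mem_erase, mem_union]
  exact ⟨⟨h2, h3⟩, h4⟩

/-- the key lemma on four directions -/
lemma key {i j k : Fin n} {x : Fin n → Bool} (hi : i ∈ Sx f x) (hj : j ∈ Sx f x)
    (hk : k ∈ Sx f (fl x i)) (hij : i < j) (hik : i < k)
    (h1 : j ∈ Fo f i x) (h2 : k ∈ Fo f i x) (h3 : i ∈ Fo f j x) (h4 : i ∈ Fo f k (fl x i)) :
    False := by
  have a1 := Fo_flip h1   -- f x^{ji} = f x^j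
  have a2 := Fo_flip h2   -- f x^{ki} = f x^k
  have hi' := mem_Sx.1 hi
  have hj' := mem_Sx.1 hj
  have hk' := mem_Sx.1 hk
  -- z = x^{ik}
  have a3 : f (fl (fl (fl x i) k) j) = f (fl (fl x i) k) := by
    by_contra hne
    rw [mem_Fo] at h3
    have := h3 (fl (fl x i) k) (mem_Sx.2 hne) (by
      intro l hl
      rw [fl_ne _ (hl.trans hik).ne, fl_ne _ hl.ne])
    rw [fl_ne _ hik.ne, fl_same] at this
    simp at this
  have a4 : f (fl (fl x j) k) = f (fl x j) := by
    by_contra hne
    rw [mem_Fo] at h4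
    have := h4 (fl x j) (mem_Sx.2 hne) (by
      intro l hl
      rw [fl_ne _ (hl.trans hij).ne, fl_ne _ hl.ne])
    rw [fl_ne _ hij.ne, fl_same] at this
    simp at this
  have b1 : fl (fl (fl x i) k) j = fl (fl (fl x j) k) i := by
    rw [fl_comm x i k, fl_comm (fl x k) i j, fl_comm x k j]
  rw [b1] at a3
  rw [fl_comm x k i] at a2
  -- boolean bookkeeping
  have c0 : f (fl (fl x i) k) = f x := by
    revert hk' hi'
    cases f (fl (fl x i) k) <;> cases f (fl x i) <;> cases f x <;> simp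
  have c1 : f (fl x k) = f x := by rw [← a2, c0]
  have hjk : j ≠ k := by
    rintro rfl
    exact hj' c1
  have hG : i ∈ Sx f (fl (fl x j) k) := by
    rw [mem_Sx, a3, a4, c0]
    exact hj'.symm
  rcases lt_or_gt_of_ne hjk with hlt | hlt
  · rw [mem_Fo] at h1
    have := h1 _ hG (by
      intro l hl
      rw [fl_ne _ (hl.trans hlt).ne, fl_ne _ hl.ne])
    rw [fl_ne _ hjk, fl_same] at this
    simp at this
  · rw [mem_Fo] at h2
    have := h2 _ hG (by
      intro l hl
      rw [fl_ne _ hl.ne, fl_ne _ (hl.trans hlt).ne])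
    rw [fl_same, fl_ne _ hjk.symm] at this
    simp at this

variable (f)

open Classical in
/-- the directions charged to `x` -/
noncomputable def Bx (x : Fin n → Bool) : Finset (Fin n) :=
  (Sx f x).filter (fun i => ∀ j ∈ Sx f x, i < j → j ∈ Zi f i x ∨ i ∈ Zi f j x)

variable {f}

lemma edge {i : Fin n} {x : Fin n → Bool} (hi : i ∈ Sx f x) : i ∈ Bx f x ∨ i ∈ Bx f (fl x i) := by
  by_contra hcon
  push_neg at hcon
  obtain ⟨h1, h2⟩ := hcon
  unfold Bx at h1 h2
  rw [mem_filter] at h1 h2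
  push_neg at h1 h2
  obtain ⟨j, hj, hij, hj1, hj2⟩ := h1 hi
  obtain ⟨k, hk, hik, hk1, hk2⟩ := h2 (mem_Sx_fl.2 hi)
  rw [Zi_fl] at hk1
  refine key hi hj hk hij hik ?_ ?_ ?_ ?_
  · exact Fo_of_notMem_Zi hj1 hij.ne' (Or.inl hj)
  · exact Fo_of_notMem_Zi hk1 hik.ne' (Or.inr hk)
  · exact Fo_of_notMem_Zi hj2 hij.ne (Or.inl hi)
  · exact Fo_of_notMem_Zi hk2 hik.ne (Or.inl (mem_Sx_fl.2 hi))

lemma card_Ti {s : ℕ} (hs : ∀ x, (Sx f x).card ≤ s) {i : Fin n} {x : Fin n → Bool}
    (hi : i ∈ Sx f x) : (Ti f i x).card ≤ 2 * (s - 1) := by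
  unfold Ti
  rw [Finset.erase_union_distrib]
  have h1 : ((Sx f x).erase i).card ≤ s - 1 := by
    rw [Finset.card_erase_of_mem hi]
    exact Nat.sub_le_sub_right (hs x) 1
  have h2 : ((Sx f (fl x i)).erase i).card ≤ s - 1 := by
    rw [Finset.card_erase_of_mem (mem_Sx_fl.2 hi)]
    exact Nat.sub_le_sub_right (hs _) 1
  have := Finset.card_union_le ((Sx f x).erase i) ((Sx f (fl x i)).erase i)
  omega

lemma card_Zi {s : ℕ} (hs : ∀ x, (Sx f x).card ≤ s) {i : Fin n} {x : Fin n → Bool}
    (hi : i ∈ Sx f x) : (Zi f i x).card ≤ 2 * (s - 1) - (Fo f i x).card := by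
  unfold Zi
  rw [Finset.card_sdiff_of_subset (Fo_subset hi)]
  exact Nat.sub_le_sub_right (card_Ti hs hi) _

lemma card_Fo {s : ℕ} (hs : ∀ x, (Sx f x).card ≤ s) {i : Fin n} {x : Fin n → Bool}
    (hi : i ∈ Sx f x) : (Fo f i x).card ≤ 2 * (s - 1) :=
  (Finset.card_le_card (Fo_subset hi)).trans (card_Ti hs hi)

lemma sum_Bx {s : ℕ} (hs : ∀ x, (Sx f x).card ≤ s) (x : Fin n → Bool) :
    ∑ i ∈ Bx f x, ((1 : ℝ) / 2) ^ (2 * (s - 1) - (Fo f i x).card) ≤ 4 := by
  have h := tournament (fun i => Zi f i x) (fun i => 2 * (s - 1) - (Fo f i x).card) _ (Bx f x) rfl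
    (fun i hi => card_Zi hs (mem_filter.1 hi).1) (by
      intro i hi j hj hij
      unfold Bx at hi hj
      rw [mem_filter] at hi hj
      rcases lt_or_gt_of_ne hij with h | h
      · exact hi.2 j hj.1 h
      · exact (hj.2 i hi.1 h).symm)
  have : (0 : ℝ) ≤ 4 * (3 / 4 : ℝ) ^ (Bx f x).card := by positivity
  linarith

open Classical in
lemma sum_dir {s : ℕ} (i : Fin n) :
    ∑ x ∈ univ.filter (fun x => i ∈ Sx f x), ((1 : ℝ) / 2) ^ (2 * (s - 1) - (Fo f i x).card) ≤
      2 * ∑ x ∈ univ.filter (fun x => i ∈ Bx f x),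
        ((1 : ℝ) / 2) ^ (2 * (s - 1) - (Fo f i x).card) := by
  set w : (Fin n → Bool) → ℝ := fun x => ((1 : ℝ) / 2) ^ (2 * (s - 1) - (Fo f i x).card) with hw
  have hwfl : ∀ x, w (fl x i) = w x := by
    intro x; simp only [hw]; rw [Fo_fl]
  have hwpos : ∀ x, 0 ≤ w x := by intro x; simp only [hw]; positivity
  rw [Finset.sum_filter, Finset.sum_filter]
  have hinv : ∑ x : Fin n → Bool, (if i ∈ Bx f (fl x i) then w x else 0) =
      ∑ x : Fin n → Bool, (if i ∈ Bx f x then w x else 0) := by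
    apply Finset.sum_nbij' (fun x => fl x i) (fun x => fl x i)
    · intro x _; exact mem_univ _
    · intro x _; exact mem_univ _
    · intro x _; exact fl_fl x i
    · intro x _; exact fl_fl x i
    · intro x _; rw [hwfl]
  calc ∑ x : Fin n → Bool, (if i ∈ Sx f x then w x else 0)
      ≤ ∑ x : Fin n → Bool, ((if i ∈ Bx f x then w x else 0) +
          (if i ∈ Bx f (fl x i) then w x else 0)) := by
        apply Finset.sum_le_sum
        intro x _
        by_cases hx : i ∈ Sx f x
        · rw [if_pos hx]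
          rcases edge hx with h | h
          · rw [if_pos h]
            split_ifs
            · linarith [hwpos x]
            · linarith [hwpos x]
          · rw [if_pos h]
            split_ifs
            · linarith [hwpos x]
            · linarith [hwpos x]
        · rw [if_neg hx]
          have := hwpos x
          split_ifs <;> linarith
    _ = 2 * ∑ x : Fin n → Bool, (if i ∈ Bx f x then w x else 0) := by
        rw [Finset.sum_add_distrib, hinv]; ring

open Classical in
theorem card_relevant {s : ℕ} (hs : ∀ x, (Sx f x).card ≤ s) :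
    ((univ.filter (fun i : Fin n => ∃ x, i ∈ Sx f x)).card : ℝ) ≤ 8 * 4 ^ (s - 1) := by
  set J := univ.filter (fun i : Fin n => ∃ x, i ∈ Sx f x) with hJ
  have h1 : ∀ i ∈ J, (2 : ℝ) ^ n ≤ 4 ^ (s - 1) *
      ∑ x ∈ univ.filter (fun x => i ∈ Sx f x), ((1 : ℝ) / 2) ^ (2 * (s - 1) - (Fo f i x).card) := by
    intro i hi
    simp only [hJ, mem_filter, mem_univ, true_and] at hi
    obtain ⟨p, hp⟩ := hi
    have hm := martingale (fun z => f (fl z i) ≠ f z) p (mem_Sx.1 hp)
    have hm' : (2 : ℝ) ^ n ≤ ∑ x ∈ univ.filter (fun x => i ∈ Sx f x), (2 : ℝ) ^ (Fo f i x).card := by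
      have e : (univ.filter (fun x => i ∈ Sx f x)) = univ.filter (fun x => f (fl x i) ≠ f x) := by
        ext x; simp [mem_Sx]
      rw [e]
      exact_mod_cast hm
    refine hm'.trans (le_of_eq ?_)
    rw [Finset.mul_sum]
    apply Finset.sum_congr rfl
    intro x hx
    have hx' : i ∈ Sx f x := (mem_filter.1 hx).2
    have hc := card_Fo hs hx'
    have e4 : (4 : ℝ) ^ (s - 1) = 2 ^ (2 * (s - 1)) := by
      rw [pow_mul]; norm_num
    rw [e4]
    have e5 : (2 : ℝ) ^ (2 * (s - 1)) = 2 ^ (Fo f i x).card * 2 ^ (2 * (s - 1) - (Fo f i x).card) := by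
      rw [← pow_add]; congr 1; omega
    rw [e5, mul_assoc, ← mul_pow]
    norm_num
  have h2 : (J.card : ℝ) * 2 ^ n ≤ 4 ^ (s - 1) * (2 * (4 * 2 ^ n)) := by
    calc (J.card : ℝ) * 2 ^ n = ∑ _i ∈ J, (2 : ℝ) ^ n := by rw [Finset.sum_const, nsmul_eq_mul]
      _ ≤ ∑ i ∈ J, 4 ^ (s - 1) * ∑ x ∈ univ.filter (fun x => i ∈ Sx f x),
            ((1 : ℝ) / 2) ^ (2 * (s - 1) - (Fo f i x).card) := Finset.sum_le_sum h1
      _ ≤ ∑ i : Fin n, 4 ^ (s - 1) * ∑ x ∈ univ.filter (fun x => i ∈ Sx f x),
            ((1 : ℝ) / 2) ^ (2 * (s - 1) - (Fo f i x).card) := by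
          apply Finset.sum_le_sum_of_subset_of_nonneg (Finset.subset_univ _)
          intro i _ _
          positivity
      _ ≤ ∑ i : Fin n, 4 ^ (s - 1) * (2 * ∑ x ∈ univ.filter (fun x => i ∈ Bx f x),
            ((1 : ℝ) / 2) ^ (2 * (s - 1) - (Fo f i x).card)) := by
          apply Finset.sum_le_sum
          intro i _
          exact mul_le_mul_of_nonneg_left (sum_dir i) (by positivity)
      _ = 4 ^ (s - 1) * (2 * ∑ i : Fin n, ∑ x ∈ univ.filter (fun x => i ∈ Bx f x),
            ((1 : ℝ) / 2) ^ (2 * (s - 1) - (Fo f i x).card)) := by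
          rw [Finset.mul_sum, Finset.mul_sum]
      _ = 4 ^ (s - 1) * (2 * ∑ x : Fin n → Bool, ∑ i ∈ Bx f x,
            ((1 : ℝ) / 2) ^ (2 * (s - 1) - (Fo f i x).card)) := by
          congr 2
          simp only [Finset.sum_filter]
          rw [Finset.sum_comm]
          apply Finset.sum_congr rfl
          intro x _
          rw [← Finset.sum_filter]
          congr 1
          ext i; simp
      _ ≤ 4 ^ (s - 1) * (2 * ∑ _x : Fin n → Bool, (4 : ℝ)) := by
          apply mul_le_mul_of_nonneg_left _ (by positivity)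
          apply mul_le_mul_of_nonneg_left _ (by norm_num)
          exact Finset.sum_le_sum (fun x _ => sum_Bx hs x)
      _ = 4 ^ (s - 1) * (2 * (4 * 2 ^ n)) := by
          rw [Finset.sum_const, nsmul_eq_mul]
          simp [Fintype.card_bool]
          ring
  have h3 : (0 : ℝ) < 2 ^ n := by positivity
  have h4 : (J.card : ℝ) * 2 ^ n ≤ (8 * 4 ^ (s - 1)) * 2 ^ n := by
    refine h2.trans (le_of_eq ?_); ring
  exact le_of_mul_le_mul_right h4 h3

/-- a function does not depend on its non-relevant coordinates -/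
lemma eq_of_irrelevant (T : Finset (Fin n)) :
    (∀ i ∈ T, ∀ x, f (fl x i) = f x) → ∀ x y : Fin n → Bool, (∀ i, i ∉ T → x i = y i) →
      f x = f y := by
  classical
  induction T using Finset.induction_on with
  | empty =>
    intro _ x y h
    have : x = y := funext (fun i => h i (by simp))
    rw [this]
  | insert i T hi ih =>
    intro hT x y hxy
    have h1 : f x = f (Function.update y i (x i)) := by
      apply ih (fun j hj => hT j (mem_insert_of_mem hj))
      intro l hl
      by_cases hli : l = i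
      · subst hli; simp
      · rw [Function.update_of_ne hli]
        exact hxy l (by simp [hli, hl])
    rw [h1]
    by_cases hxi : x i = y i
    · rw [hxi, Function.update_eq_self]
    · have : Function.update y i (x i) = fl y i := by
        unfold fl
        congr 1
        revert hxi
        cases x i <;> cases y i <;> simp
      rw [this]
      exact hT i (mem_insert_self _ _) y

end Pool.Agent.H259R3.SensJunta
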