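import Mathlib

set_option autoImplicit false

/-! Unitary orbits: basic lemmas (spectral forms, quadratic forms, dimension counting). -/

open Matrix Finset
open scoped ComplexOrder

namespace Pool.Agent.H259R3.UO

variable {n : ℕ}

/-- quadratic form of a matrix -/
noncomputable def qf (M : Matrix (Fin n) (Fin n) ℂ) (x : Fin n → ℂ) : ℝ := (star x ⬝ᵥ (M *ᵥ x)).re

/-- squared norm -/
noncomputable def nq (x : Fin n → ℂ) : ℝ := ∑ i, ‖x i‖ ^ 2

/-- the matrix `U diag(u) Uᴴ` -/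
noncomputable def mk (U : Matrix (Fin n) (Fin n) ℂ) (u : Fin n → ℝ) : Matrix (Fin n) (Fin n) ℂ :=
  U * diagonal (fun i => (u i : ℂ)) * Uᴴ

/-- unitary -/
def Un (U : Matrix (Fin n) (Fin n) ℂ) : Prop := Uᴴ * U = 1

theorem Un.right {U : Matrix (Fin n) (Fin n) ℂ} (h : Un U) : U * Uᴴ = 1 :=
  mul_eq_one_comm.mp h

theorem Un.mul {U V : Matrix (Fin n) (Fin n) ℂ} (h : Un U) (h' : Un V) : Un (U * V) := by
  unfold Un at *
  rw [conjTranspose_mul, Matrix.mul_assoc, ← Matrix.mul_assoc Uᴴ, h, Matrix.one_mul, h']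

theorem Un.ct {U : Matrix (Fin n) (Fin n) ℂ} (h : Un U) : Un Uᴴ := by
  unfold Un
  rw [conjTranspose_conjTranspose]
  exact h.right

theorem Un_one : Un (1 : Matrix (Fin n) (Fin n) ℂ) := by
  unfold Un; simp

theorem qf_add (M N : Matrix (Fin n) (Fin n) ℂ) (x : Fin n → ℂ) :
    qf (M + N) x = qf M x + qf N x := by
  unfold qf; rw [add_mulVec, dotProduct_add, Complex.add_re]

theorem qf_sub (M N : Matrix (Fin n) (Fin n) ℂ) (x : Fin n → ℂ) :
    qf (M - N) x = qf M x - qf N x := by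
  unfold qf; rw [sub_mulVec, dotProduct_sub, Complex.sub_re]

theorem qf_smul (c : ℝ) (M : Matrix (Fin n) (Fin n) ℂ) (x : Fin n → ℂ) :
    qf (c • M) x = c * qf M x := by
  unfold qf
  rw [smul_mulVec, dotProduct_smul, Complex.real_smul, Complex.re_ofReal_mul]

theorem nq_eq (x : Fin n → ℂ) : nq x = (star x ⬝ᵥ x).re := by
  unfold nq dotProduct
  rw [Complex.re_sum]
  apply Finset.sum_congr rfl
  intro i _
  rw [Pi.star_apply, Complex.star_def, ← Complex.normSq_eq_conj_mul_self, Complex.ofReal_re,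
    Complex.normSq_eq_norm_sq]

theorem star_dot_self (x : Fin n → ℂ) : star x ⬝ᵥ x = (nq x : ℂ) := by
  unfold nq dotProduct
  push_cast
  apply Finset.sum_congr rfl
  intro i _
  rw [Pi.star_apply, Complex.star_def, ← Complex.normSq_eq_conj_mul_self,
    Complex.normSq_eq_norm_sq]
  push_cast; rfl

theorem nq_nonneg (x : Fin n → ℂ) : 0 ≤ nq x := Finset.sum_nonneg fun i _ => sq_nonneg _

theorem nq_eq_zero {x : Fin n → ℂ} (h : nq x = 0) : x = 0 := by
  unfold nq at h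
  rw [Finset.sum_eq_zero_iff_of_nonneg (fun i _ => sq_nonneg _)] at h
  ext i
  have := h i (Finset.mem_univ _)
  simpa using this

theorem nq_pos {x : Fin n → ℂ} (h : x ≠ 0) : 0 < nq x :=
  lt_of_le_of_ne (nq_nonneg x) (fun h' => h (nq_eq_zero h'.symm))

theorem star_mulVec_dot (U : Matrix (Fin n) (Fin n) ℂ) (x y : Fin n → ℂ) :
    star (U *ᵥ x) ⬝ᵥ y = star x ⬝ᵥ (Uᴴ *ᵥ y) := by
  rw [star_mulVec, ← dotProduct_mulVec]

theorem Un.nq {U : Matrix (Fin n) (Fin n) ℂ} (h : Un U) (x : Fin n → ℂ) :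
    UO.nq (U *ᵥ x) = UO.nq x := by
  rw [nq_eq, nq_eq, star_mulVec_dot, mulVec_mulVec, h, one_mulVec]

theorem qf_conj (U M : Matrix (Fin n) (Fin n) ℂ) (x : Fin n → ℂ) :
    qf (U * M * Uᴴ) x = qf M (Uᴴ *ᵥ x) := by
  unfold qf
  rw [star_mulVec_dot, conjTranspose_conjTranspose, mulVec_mulVec, mulVec_mulVec, Matrix.mul_assoc]

theorem qf_diag (u : Fin n → ℝ) (z : Fin n → ℂ) :
    qf (diagonal (fun i => (u i : ℂ))) z = ∑ i, u i * ‖z i‖ ^ 2 := by
  unfold qf dotProduct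
  rw [Complex.re_sum]
  apply Finset.sum_congr rfl
  intro i _
  rw [mulVec_diagonal, Pi.star_apply, Complex.star_def]
  have : (starRingEnd ℂ) (z i) * ((u i : ℂ) * z i) = (u i : ℂ) * ((starRingEnd ℂ) (z i) * z i) := by
    ring
  rw [this, ← Complex.normSq_eq_conj_mul_self, ← Complex.ofReal_mul, Complex.ofReal_re,
    Complex.normSq_eq_norm_sq]

theorem qf_mk (U : Matrix (Fin n) (Fin n) ℂ) (u : Fin n → ℝ) (x : Fin n → ℂ) :
    qf (mk U u) x = ∑ i, u i * ‖(Uᴴ *ᵥ x) i‖ ^ 2 := by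
  unfold mk
  rw [qf_conj, qf_diag]

theorem qf_mk_mulVec {U : Matrix (Fin n) (Fin n) ℂ} (h : Un U) (u : Fin n → ℝ) (z : Fin n → ℂ) :
    qf (mk U u) (U *ᵥ z) = ∑ i, u i * ‖z i‖ ^ 2 := by
  rw [qf_mk, mulVec_mulVec, h, one_mulVec]

theorem mk_herm (U : Matrix (Fin n) (Fin n) ℂ) (u : Fin n → ℝ) : (mk U u).IsHermitian := by
  unfold mk IsHermitian
  rw [conjTranspose_mul, conjTranspose_mul, conjTranspose_conjTranspose, diagonal_conjTranspose,
    Matrix.mul_assoc]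
  congr 3
  ext i
  simp

theorem mk_mulVec {U : Matrix (Fin n) (Fin n) ℂ} (h : Un U) (u : Fin n → ℝ) (z : Fin n → ℂ) :
    mk U u *ᵥ (U *ᵥ z) = U *ᵥ (fun i => (u i : ℂ) * z i) := by
  unfold mk
  rw [mulVec_mulVec, Matrix.mul_assoc, h, Matrix.mul_one, ← mulVec_mulVec]
  congr 1
  ext i
  rw [mulVec_diagonal]

theorem mk_trace {U : Matrix (Fin n) (Fin n) ℂ} (h : Un U) (u : Fin n → ℝ) :
    (mk U u).trace = ((∑ i, u i : ℝ) : ℂ) := by
  unfold mk
  rw [trace_mul_comm, ← Matrix.mul_assoc, h, Matrix.one_mul, trace_diagonal]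
  push_cast; rfl

theorem spectral {M : Matrix (Fin n) (Fin n) ℂ} (hM : M.IsHermitian) :
    Un (hM.eigenvectorUnitary : Matrix (Fin n) (Fin n) ℂ) ∧
      M = mk (hM.eigenvectorUnitary : Matrix (Fin n) (Fin n) ℂ) hM.eigenvalues := by
  constructor
  · have := hM.eigenvectorUnitary.2
    rw [mem_unitaryGroup_iff'] at this
    exact this
  · have := hM.spectral_theorem
    unfold mk
    conv_lhs => rw [this]
    rfl

theorem exists_mk {M : Matrix (Fin n) (Fin n) ℂ} (hM : M.IsHermitian) :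
    ∃ U u, Un U ∧ M = mk U u := ⟨_, _, (spectral hM).1, (spectral hM).2⟩

theorem posSemidef_iff_qf {M : Matrix (Fin n) (Fin n) ℂ} (hM : M.IsHermitian) :
    M.PosSemidef ↔ ∀ x, 0 ≤ qf M x := by
  rw [posSemidef_iff_dotProduct_mulVec]
  constructor
  · intro h x
    have := h.2 x
    rw [Complex.le_def] at this
    exact this.1
  · intro h
    refine ⟨hM, fun x => ?_⟩
    rw [Complex.le_def]
    refine ⟨h x, ?_⟩
    have h1 := hM.im_star_dotProduct_mulVec_self x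
    simpa using h1.symm

/-- dimension counting -/
theorem dimcount {U V : Matrix (Fin n) (Fin n) ℂ} (hU : Un U) (hV : Un V) (S S' : Finset (Fin n))
    (h : n < S.card + S'.card) :
    ∃ y z : Fin n → ℂ, (∀ i, i ∉ S → y i = 0) ∧ (∀ i, i ∉ S' → z i = 0) ∧
      U *ᵥ y = V *ᵥ z ∧ y ≠ 0 ∧ z ≠ 0 := by
  classical
  let eS : (S → ℂ) →ₗ[ℂ] (Fin n → ℂ) :=
    { toFun := fun y i => if hi : i ∈ S then y ⟨i, hi⟩ else 0
      map_add' := by intro a b; ext i; by_cases hi : i ∈ S <;> simp [hi]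
      map_smul' := by intro a b; ext i; by_cases hi : i ∈ S <;> simp [hi] }
  let eS' : (S' → ℂ) →ₗ[ℂ] (Fin n → ℂ) :=
    { toFun := fun y i => if hi : i ∈ S' then y ⟨i, hi⟩ else 0
      map_add' := by intro a b; ext i; by_cases hi : i ∈ S' <;> simp [hi]
      map_smul' := by intro a b; ext i; by_cases hi : i ∈ S' <;> simp [hi] }
  let F : ((S → ℂ) × (S' → ℂ)) →ₗ[ℂ] (Fin n → ℂ) :=
    ((Matrix.mulVecLin U).comp eS).coprod (-((Matrix.mulVecLin V).comp eS'))
  have hk : LinearMap.ker F ≠ ⊥ := by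
    apply LinearMap.ker_ne_bot_of_finrank_lt
    simp only [Module.finrank_fintype_fun_eq_card, Fintype.card_fin, Module.finrank_prod,
      Fintype.card_coe]
    exact h
  obtain ⟨p, hp, hp0⟩ := Submodule.exists_mem_ne_zero_of_ne_bot hk
  have h1 : U *ᵥ (eS p.1) = V *ᵥ (eS' p.2) := by
    have h2 : F p = 0 := hp
    have h3 : U *ᵥ (eS p.1) + -(V *ᵥ (eS' p.2)) = 0 := h2
    rw [← sub_eq_add_neg, sub_eq_zero] at h3
    exact h3
  have hUi : ∀ y, U *ᵥ y = 0 → y = 0 := by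
    intro y hy
    have : Uᴴ *ᵥ (U *ᵥ y) = 0 := by rw [hy, mulVec_zero]
    rwa [mulVec_mulVec, hU, one_mulVec] at this
  have hVi : ∀ y, V *ᵥ y = 0 → y = 0 := by
    intro y hy
    have : Vᴴ *ᵥ (V *ᵥ y) = 0 := by rw [hy, mulVec_zero]
    rwa [mulVec_mulVec, hV, one_mulVec] at this
  have hne : eS p.1 ≠ 0 ∨ eS' p.2 ≠ 0 := by
    by_contra hcon
    push Not at hcon
    apply hp0
    ext i
    · have := congrFun hcon.1 i.1
      simpa [eS] using this
    · have := congrFun hcon.2 i.1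
      simpa [eS'] using this
  have hb : eS p.1 ≠ 0 ∧ eS' p.2 ≠ 0 := by
    constructor
    · intro h0
      rw [h0, mulVec_zero] at h1
      have := hVi _ h1.symm
      rcases hne with h | h
      · exact h h0
      · exact h this
    · intro h0
      rw [h0, mulVec_zero] at h1
      have := hUi _ h1
      rcases hne with h | h
      · exact h this
      · exact h h0
  refine ⟨eS p.1, eS' p.2, ?_, ?_, h1, hb.1, hb.2⟩
  · intro i hi; simp [eS, hi]
  · intro i hi; simp [eS', hi]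

end Pool.Agent.H259R3.UO
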