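import Pool.Agent.H259R3.UO1

set_option autoImplicit false

/-! Unitary orbits: Weyl type comparison lemma. -/

open Matrix Finset
open scoped ComplexOrder

namespace Pool.Agent.H259R3.UO

variable {n : ℕ}

theorem perm_of_card (m w : Fin n → ℝ)
    (h : ∀ τ : ℝ, (univ.filter (fun i => τ < m i)).card ≤ (univ.filter (fun i => τ < w i)).card) :
    ∃ σ : Equiv.Perm (Fin n), ∀ i, m (σ i) ≤ w i := by
  classical
  have key : ∀ k, m (Tuple.sort m k) ≤ w (Tuple.sort w k) := by
    intro k
    by_contra hcon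
    push Not at hcon
    have hm : Monotone (m ∘ Tuple.sort m) := Tuple.monotone_sort m
    have hw : Monotone (w ∘ Tuple.sort w) := Tuple.monotone_sort w
    have h1 := h (w (Tuple.sort w k))
    have h2 : ((univ.filter (fun j => k ≤ j)).map (Tuple.sort m).toEmbedding) ⊆
        univ.filter (fun i => w (Tuple.sort w k) < m i) := by
      intro i hi
      rw [Finset.mem_map] at hi
      obtain ⟨j, hj, rfl⟩ := hi
      rw [Finset.mem_filter] at hj ⊢
      refine ⟨Finset.mem_univ _, lt_of_lt_of_le hcon (hm hj.2)⟩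
    have h3 : univ.filter (fun i => w (Tuple.sort w k) < w i) ⊆
        ((univ.filter (fun j => k < j)).map (Tuple.sort w).toEmbedding) := by
      intro i hi
      rw [Finset.mem_filter] at hi
      rw [Finset.mem_map]
      refine ⟨(Tuple.sort w).symm i, ?_, by simp⟩
      rw [Finset.mem_filter]
      refine ⟨Finset.mem_univ _, ?_⟩
      by_contra hle
      push Not at hle
      have := hw hle
      simp only [Function.comp_apply, Equiv.apply_symm_apply] at this
      linarith [hi.2]
    have h4 := Finset.card_le_card h2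
    have h5 := Finset.card_le_card h3
    rw [Finset.card_map] at h4 h5
    have h6 : (univ.filter (fun j => k < j)).card < (univ.filter (fun j => k ≤ j)).card := by
      apply Finset.card_lt_card
      rw [Finset.ssubset_iff_of_subset]
      · exact ⟨k, by simp, by simp⟩
      · intro j hj
        rw [Finset.mem_filter] at hj ⊢
        exact ⟨hj.1, hj.2.le⟩
    omega
  refine ⟨(Tuple.sort w).symm.trans (Tuple.sort m), fun i => ?_⟩
  have := key ((Tuple.sort w).symm i)
  simpa using this

theorem mk_perm (U : Matrix (Fin n) (Fin n) ℂ) (m : Fin n → ℝ) (σ : Equiv.Perm (Fin n)) :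
    mk (U.submatrix id σ) (fun i => m (σ i)) = mk U m := by
  ext i j
  unfold mk
  rw [Matrix.mul_apply, Matrix.mul_apply]
  rw [← Equiv.sum_comp σ (fun k => (U * diagonal fun i => (m i : ℂ)) i k * Uᴴ k j)]
  apply Finset.sum_congr rfl
  intro k _
  rw [Matrix.mul_diagonal, Matrix.mul_diagonal]
  simp [Matrix.conjTranspose_apply]

theorem Un_perm {U : Matrix (Fin n) (Fin n) ℂ} (hU : Un U) (σ : Equiv.Perm (Fin n)) :
    Un (U.submatrix id σ) := by
  unfold Un at *
  rw [conjTranspose_submatrix, ← Matrix.submatrix_mul Uᴴ U σ id σ Function.bijective_id, hU]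
  simp

/-- counting lemma -/
theorem card_le {U V : Matrix (Fin n) (Fin n) ℂ} (hU : Un U) (hV : Un V) (m w : Fin n → ℝ)
    (τ : ℝ) (h : ∀ z, (∀ i, τ < w i → z i = 0) → qf (mk V m) (U *ᵥ z) ≤ τ * nq z) :
    (univ.filter (fun i => τ < m i)).card ≤ (univ.filter (fun i => τ < w i)).card := by
  classical
  by_contra hcon
  push Not at hcon
  have hc : (univ.filter (fun i => τ < w i)).card + (univ.filter (fun i => ¬ τ < w i)).card = n := by
    rw [Finset.card_filter_add_card_filter_not]
    simp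
  obtain ⟨y, z, hy, hz, hyz, hy0, hz0⟩ := dimcount hV hU (univ.filter (fun i => τ < m i))
    (univ.filter (fun i => ¬ τ < w i)) (by omega)
  have h1 : qf (mk V m) (U *ᵥ z) ≤ τ * nq z := by
    apply h
    intro i hi
    apply hz
    simp [hi]
  have h2 : τ * nq y < qf (mk V m) (V *ᵥ y) := by
    rw [qf_mk_mulVec hV]
    unfold nq
    rw [Finset.mul_sum]
    obtain ⟨i, hi⟩ : ∃ i, y i ≠ 0 := by
      by_contra hc'
      push Not at hc'
      exact hy0 (funext hc')
    apply Finset.sum_lt_sum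
    · intro j _
      by_cases hj : τ < m j
      · exact mul_le_mul_of_nonneg_right hj.le (sq_nonneg _)
      · rw [hy j (by simp at hj ⊢; exact hj)]; simp
    · refine ⟨i, Finset.mem_univ _, ?_⟩
      have hi' : τ < m i := by
        by_contra hcc
        exact hi (hy i (by simp at hcc ⊢; exact hcc))
      apply mul_lt_mul_of_pos_right hi'
      have : 0 < ‖y i‖ := norm_pos_iff.mpr hi
      positivity
  have h3 : nq y = nq z := by
    rw [← hV.nq y, ← hU.nq z, hyz]
  rw [hyz, h3] at h2
  linarith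

/-- Weyl type comparison -/
theorem weyl {M : Matrix (Fin n) (Fin n) ℂ} (hM : M.IsHermitian) {U : Matrix (Fin n) (Fin n) ℂ}
    (hU : Un U) (w : Fin n → ℝ)
    (h : ∀ τ : ℝ, ∀ z, (∀ i, τ < w i → z i = 0) → qf M (U *ᵥ z) ≤ τ * nq z) :
    ∃ U' w', Un U' ∧ (∀ i, w' i ≤ w i) ∧ M = mk U' w' := by
  obtain ⟨V, m, hV, hMm⟩ := exists_mk hM
  subst hMm
  obtain ⟨σ, hσ⟩ := perm_of_card m w (fun τ => card_le hU hV m w τ (h τ))
  exact ⟨V.submatrix id σ, fun i => m (σ i), Un_perm hV σ, hσ, (mk_perm V m σ).symm⟩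

theorem weyl_le {M : Matrix (Fin n) (Fin n) ℂ} (hM : M.IsHermitian) {U : Matrix (Fin n) (Fin n) ℂ}
    (hU : Un U) (w : Fin n → ℝ) (h : ∀ x, qf M x ≤ qf (mk U w) x) :
    ∃ U' w', Un U' ∧ (∀ i, w' i ≤ w i) ∧ M = mk U' w' := by
  apply weyl hM hU w
  intro τ z hz
  refine (h _).trans ?_
  rw [qf_mk_mulVec hU]
  unfold nq
  rw [Finset.mul_sum]
  apply Finset.sum_le_sum
  intro i _
  by_cases hi : τ < w i
  · rw [hz i hi]; simp
  · exact mul_le_mul_of_nonneg_right (not_lt.mp hi) (sq_nonneg _)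

/-- monotonicity in the diagonal -/
theorem mk_mono {U : Matrix (Fin n) (Fin n) ℂ} {u w : Fin n → ℝ} (h : ∀ i, u i ≤ w i)
    (x : Fin n → ℂ) : qf (mk U u) x ≤ qf (mk U w) x := by
  rw [qf_mk, qf_mk]
  exact Finset.sum_le_sum fun i _ => mul_le_mul_of_nonneg_right (h i) (sq_nonneg _)

end Pool.Agent.H259R3.UO
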