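import Pool.Agent.H259R3.UO2

set_option autoImplicit false

/-! Unitary orbits: rank one matrices, reflections, compactness of the feasible set. -/

open Matrix Finset
open scoped ComplexOrder

namespace Pool.Agent.H259R3.UO

variable {n : ℕ}

/-- the matrix `v vᴴ` -/
noncomputable def P1 (v : Fin n → ℂ) : Matrix (Fin n) (Fin n) ℂ := vecMulVec v (star v)

theorem P1_mulVec (v x : Fin n → ℂ) : P1 v *ᵥ x = (star v ⬝ᵥ x) • v := by
  unfold P1
  ext i
  rw [mulVec, Pi.smul_apply, smul_eq_mul]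
  unfold dotProduct
  rw [Finset.sum_mul]
  apply Finset.sum_congr rfl
  intro j _
  show vecMulVec v (star v) i j * x j = _
  rw [vecMulVec_apply]
  ring

theorem dot_conj (v x : Fin n → ℂ) : star x ⬝ᵥ v = star (star v ⬝ᵥ x) := by
  rw [star_dotProduct]

theorem qf_P1 (v x : Fin n → ℂ) : qf (P1 v) x = ‖star v ⬝ᵥ x‖ ^ 2 := by
  unfold qf
  rw [P1_mulVec, dotProduct_smul, smul_eq_mul, dot_conj v x, Complex.star_def, Complex.mul_conj,
    Complex.ofReal_re, Complex.normSq_eq_norm_sq]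

theorem P1_herm (v : Fin n → ℂ) : (P1 v).IsHermitian := by
  unfold P1 IsHermitian
  ext i j
  simp [vecMulVec_apply, Matrix.conjTranspose_apply, mul_comm]

theorem P1_trace (v : Fin n → ℂ) : (P1 v).trace = (nq v : ℂ) := by
  unfold P1
  rw [trace_vecMulVec, dotProduct_comm, star_dot_self]

theorem unit_entry {U : Matrix (Fin n) (Fin n) ℂ} (hU : Un U) (i j : Fin n) : ‖U i j‖ ≤ 1 := by
  have h := congrFun (congrFun hU j) j
  rw [Matrix.mul_apply, Matrix.one_apply_eq] at h
  have h2 : ∑ k, ‖U k j‖ ^ 2 = 1 := by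
    have h3 := congrArg Complex.re h
    rw [Complex.re_sum, Complex.one_re] at h3
    rw [← h3]
    apply Finset.sum_congr rfl
    intro k _
    rw [Matrix.conjTranspose_apply, Complex.star_def, ← Complex.normSq_eq_conj_mul_self,
      Complex.ofReal_re, Complex.normSq_eq_norm_sq]
  have h4 : ‖U i j‖ ^ 2 ≤ 1 := by
    rw [← h2]
    exact Finset.single_le_sum (f := fun k => ‖U k j‖ ^ 2) (fun k _ => sq_nonneg _)
      (Finset.mem_univ i)
  nlinarith [norm_nonneg (U i j)]

theorem isCompact_Un : IsCompact {U : Matrix (Fin n) (Fin n) ℂ | Un U} := by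
  have h1 : IsCompact (Set.pi Set.univ (fun _ : Fin n => Set.pi Set.univ
      (fun _ : Fin n => Metric.closedBall (0 : ℂ) 1)) : Set (Matrix (Fin n) (Fin n) ℂ)) :=
    isCompact_univ_pi fun _ => isCompact_univ_pi fun _ => isCompact_closedBall _ _
  apply h1.of_isClosed_subset
  · unfold Un
    apply isClosed_eq
    · exact (Continuous.matrix_conjTranspose continuous_id).matrix_mul continuous_id
    · exact continuous_const
  · intro U hU i _ j _
    rw [Metric.mem_closedBall, dist_zero_right]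
    exact unit_entry hU i j

theorem continuous_mk : Continuous (fun p : Matrix (Fin n) (Fin n) ℂ × (Fin n → ℝ) => mk p.1 p.2) := by
  unfold mk
  refine (Continuous.matrix_mul continuous_fst (Continuous.matrix_diagonal ?_)).matrix_mul
    (Continuous.matrix_conjTranspose continuous_fst)
  exact continuous_pi fun i => Complex.continuous_ofReal.comp ((continuous_apply i).comp continuous_snd)

theorem continuous_qf (x : Fin n → ℂ) : Continuous (fun M : Matrix (Fin n) (Fin n) ℂ => qf M x) := by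
  unfold qf
  apply Complex.continuous_re.comp
  exact (Continuous.dotProduct continuous_const (continuous_id.matrix_mulVec continuous_const))

/-- reflection moving an eigenvector -/
theorem rotate_eig {U : Matrix (Fin n) (Fin n) ℂ} (hU : Un U) (u : Fin n → ℝ) (i : Fin n)
    {a : Fin n → ℂ} (ha : nq a = 1) (hA : mk U u *ᵥ a = (u i : ℂ) • a) :
    ∃ U' : Matrix (Fin n) (Fin n) ℂ, Un U' ∧ mk U' u = mk U u ∧
      ∀ x, ‖(U'ᴴ *ᵥ x) i‖ = ‖star a ⬝ᵥ x‖ := by
  classical
  set b : Fin n → ℂ := U *ᵥ (Pi.single i 1) with hb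
  have hbn : nq b = 1 := by
    rw [hb, hU.nq]
    unfold nq
    rw [Finset.sum_eq_single i]
    · simp
    · intro j _ hj; simp [Pi.single_eq_of_ne hj]
    · simp
  have hAb : mk U u *ᵥ b = (u i : ℂ) • b := by
    rw [hb, mk_mulVec hU, ← mulVec_smul]
    congr 1
    ext j
    by_cases hj : j = i
    · subst hj; simp
    · simp [Pi.single_eq_of_ne hj]
  -- phase
  obtain ⟨θ, hθ, hr⟩ : ∃ θ : ℂ, ‖θ‖ = 1 ∧ ∃ r : ℝ, star b ⬝ᵥ (θ • a) = (r : ℂ) := by
    by_cases h0 : star b ⬝ᵥ a = 0
    · exact ⟨1, by simp, 0, by rw [one_smul, h0]; simp⟩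
    · refine ⟨(starRingEnd ℂ) (star b ⬝ᵥ a) / (‖star b ⬝ᵥ a‖ : ℂ), ?_, ‖star b ⬝ᵥ a‖, ?_⟩
      · rw [norm_div, Complex.norm_conj, Complex.norm_real, norm_norm]
        exact div_self (norm_ne_zero_iff.mpr h0)
      · rw [dotProduct_smul, smul_eq_mul, div_mul_eq_mul_div, ← Complex.normSq_eq_conj_mul_self,
          Complex.normSq_eq_norm_sq]
        have : (‖star b ⬝ᵥ a‖ : ℂ) ≠ 0 := by
          exact_mod_cast norm_ne_zero_iff.mpr h0
        push_cast
        field_simp
  obtain ⟨r, hr⟩ := hr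
  set c : Fin n → ℂ := θ • a with hc
  have hcn : nq c = 1 := by
    have : nq c = ‖θ‖ ^ 2 * nq a := by
      unfold nq
      rw [hc, Finset.mul_sum]
      apply Finset.sum_congr rfl
      intro j _
      rw [Pi.smul_apply, smul_eq_mul, norm_mul, mul_pow]
    rw [this, hθ, ha]; norm_num
  have hAc : mk U u *ᵥ c = (u i : ℂ) • c := by
    rw [hc, mulVec_smul, hA, smul_comm]
  have hcx : ∀ x, ‖star c ⬝ᵥ x‖ = ‖star a ⬝ᵥ x‖ := by
    intro x
    have h1 : star c ⬝ᵥ x = star θ * (star a ⬝ᵥ x) := by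
      rw [hc, star_smul, smul_dotProduct, smul_eq_mul]
    rw [h1, norm_mul, norm_star, hθ, one_mul]
  have hfin : ∀ U' : Matrix (Fin n) (Fin n) ℂ, U' *ᵥ (Pi.single i 1) = c →
      ∀ x, ‖(U'ᴴ *ᵥ x) i‖ = ‖star a ⬝ᵥ x‖ := by
    intro U' hU' x
    rw [← hcx x, ← hU', star_mulVec_dot]
    congr 1
    unfold dotProduct
    rw [Finset.sum_eq_single i]
    · simp
    · intro j _ hj
      simp [Pi.single_eq_of_ne hj]
    · simp
  by_cases hbc : b = c
  · exact ⟨U, hU, rfl, hfin U (by rw [← hb, hbc])⟩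
  · set z : Fin n → ℂ := b - c with hz
    have hz0 : z ≠ 0 := sub_ne_zero.mpr hbc
    have hzn : 0 < nq z := nq_pos hz0
    have hcb : star c ⬝ᵥ b = (r : ℂ) := by
      rw [dot_conj b c, hr]; simp
    have hzb : star z ⬝ᵥ b = ((1 - r : ℝ) : ℂ) := by
      rw [hz, star_sub, sub_dotProduct, star_dot_self, hbn, hcb]; push_cast; ring
    have hzq : nq z = 2 - 2 * r := by
      have h1 : (nq z : ℂ) = ((2 - 2 * r : ℝ) : ℂ) := by
        rw [← star_dot_self]
        have : star z ⬝ᵥ z = star z ⬝ᵥ b - star z ⬝ᵥ c := by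
          conv_lhs => rw [hz]
          rw [dotProduct_sub]
        rw [this, hzb, hz, star_sub, sub_dotProduct, hr, star_dot_self, hcn]
        push_cast; ring
      exact_mod_cast h1
    have hAz : mk U u *ᵥ z = (u i : ℂ) • z := by
      rw [hz, mulVec_sub, hAb, hAc, smul_sub]
    set H : Matrix (Fin n) (Fin n) ℂ := 1 - ((2 / nq z : ℝ) : ℂ) • P1 z with hH
    have hPP : P1 z * P1 z = (nq z : ℂ) • P1 z := by
      unfold P1
      rw [vecMulVec_mul_vecMulVec, star_dot_self]
      ext k l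
      simp [vecMulVec_apply]
      ring
    have hHH : Hᴴ = H := by
      rw [hH, conjTranspose_sub, conjTranspose_one, conjTranspose_smul, (P1_herm z).eq]
      congr 2
      simp
    have hH2 : H * H = 1 := by
      have e0 : ∀ k : ℂ, (1 - k • P1 z) * (1 - k • P1 z) =
          1 - k • P1 z - k • P1 z + (k * k) • (P1 z * P1 z) := by
        intro k
        simp only [sub_mul, mul_sub, one_mul, mul_one, Matrix.smul_mul, Matrix.mul_smul, smul_smul]
        abel
      rw [hH, e0, hPP, smul_smul]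
      have h5 : ((2 / nq z : ℝ) : ℂ) * ((2 / nq z : ℝ) : ℂ) * (nq z : ℂ) =
          ((2 / nq z : ℝ) : ℂ) + ((2 / nq z : ℝ) : ℂ) := by
        have : (nq z : ℂ) ≠ 0 := by exact_mod_cast hzn.ne'
        push_cast
        field_simp
        ring
      rw [h5, add_smul]
      abel
    have hHb : H *ᵥ b = c := by
      rw [hH, sub_mulVec, one_mulVec, smul_mulVec, P1_mulVec, hzb, smul_smul]
      have h6 : ((2 / nq z : ℝ) : ℂ) * ((1 - r : ℝ) : ℂ) = 1 := by
        rw [← Complex.ofReal_mul, hzq]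
        have h22 : (2 : ℝ) - 2 * r ≠ 0 := by rw [← hzq]; exact hzn.ne'
        have h11 : (1 : ℝ) - r ≠ 0 := by intro h; apply h22; linarith
        have h33 : (2 / (2 - 2 * r) * (1 - r) : ℝ) = 1 := by
          rw [show (2 : ℝ) - 2 * r = 2 * (1 - r) by ring]
          field_simp
        rw [h33]
        simp
      rw [h6, one_smul, hz]
      abel
    have hPA : P1 z * mk U u = (u i : ℂ) • P1 z := by
      have h7 : mk U u * P1 z = (u i : ℂ) • P1 z := by
        unfold P1
        rw [mul_vecMulVec, hAz]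
        ext k l
        simp [vecMulVec_apply]
        ring
      have h8 := congrArg conjTranspose h7
      rw [conjTranspose_mul, (P1_herm z).eq, (mk_herm U u).eq, conjTranspose_smul,
        (P1_herm z).eq] at h8
      rw [h8]; simp
    have hAP : mk U u * P1 z = (u i : ℂ) • P1 z := by
      unfold P1
      rw [mul_vecMulVec, hAz]
      ext k l
      simp [vecMulVec_apply]
      ring
    have hcomm : H * mk U u = mk U u * H := by
      rw [hH, sub_mul, mul_sub, Matrix.smul_mul, Matrix.mul_smul, hPA, hAP]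
      simp
    refine ⟨H * U, Un.mul (by unfold Un; rw [hHH, hH2]) hU, ?_, hfin _ (by rw [← mulVec_mulVec, ← hb, hHb])⟩
    have : mk (H * U) u = H * mk U u * Hᴴ := by
      unfold mk
      rw [conjTranspose_mul]
      simp only [Matrix.mul_assoc]
    rw [this, hHH, hcomm, Matrix.mul_assoc, hH2, Matrix.mul_one]

theorem qf_update {U U' : Matrix (Fin n) (Fin n) ℂ} {u : Fin n → ℝ} {i : Fin n} {a : Fin n → ℂ}
    (h1 : mk U' u = mk U u) (h2 : ∀ x, ‖(U'ᴴ *ᵥ x) i‖ = ‖star a ⬝ᵥ x‖) (t : ℝ) (x : Fin n → ℂ) :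
    qf (mk U' (fun j => u j + if j = i then t else 0)) x = qf (mk U u) x + t * qf (P1 a) x := by
  rw [← h1, qf_mk, qf_mk, qf_P1, ← h2 x]
  have : ∀ j, (u j + if j = i then t else 0) * ‖(U'ᴴ *ᵥ x) j‖ ^ 2 =
      u j * ‖(U'ᴴ *ᵥ x) j‖ ^ 2 + (if j = i then t * ‖(U'ᴴ *ᵥ x) j‖ ^ 2 else 0) := by
    intro j; split_ifs <;> ring
  simp_rw [this]
  rw [Finset.sum_add_distrib, Finset.sum_ite_eq']
  simp

end Pool.Agent.H259R3.UO
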