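import Pool.Agent.H259R3.UO3

set_option autoImplicit false

/-! Unitary orbits: the feasible set, existence of a maximiser, first order step. -/

open Matrix Finset Filter Topology
open scoped ComplexOrder

namespace Pool.Agent.H259R3.UO

variable {n : ℕ}

attribute [local irreducible] mk qf nq P1

/-- feasible triples -/
structure Feas (C : Matrix (Fin n) (Fin n) ℂ) (α β : Fin n → ℝ) (U V : Matrix (Fin n) (Fin n) ℂ)
    (u : Fin n → ℝ) : Prop where
  hU : Un U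
  hV : Un V
  hu : ∀ i, u i ≤ α i
  lo : ∀ x, 0 ≤ qf (C - mk U u) x
  hi : ∀ x, qf (C - mk U u) x ≤ qf (mk V β) x

theorem sq_le_nq (y : Fin n → ℂ) (j : Fin n) : ‖y j‖ ^ 2 ≤ nq y := by
  unfold nq
  exact Finset.single_le_sum (f := fun k => ‖y k‖ ^ 2) (fun k _ => sq_nonneg _) (Finset.mem_univ j)

theorem nq_single (i : Fin n) : nq (Pi.single i 1 : Fin n → ℂ) = 1 := by
  unfold nq
  rw [Finset.sum_eq_single i]
  · simp
  · intro j _ hj; simp [Pi.single_eq_of_ne hj]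
  · simp

theorem qf_mk_col {U : Matrix (Fin n) (Fin n) ℂ} (hU : Un U) (u : Fin n → ℝ) (i : Fin n) :
    qf (mk U u) (U *ᵥ Pi.single i 1) = u i := by
  rw [qf_mk_mulVec hU, Finset.sum_eq_single i]
  · simp
  · intro j _ hj; simp [Pi.single_eq_of_ne hj]
  · simp

theorem qf_mk_le (W : Matrix (Fin n) (Fin n) ℂ) (hW : Un W) (γ : Fin n → ℝ) (x : Fin n → ℂ)
    (hx : nq x = 1) : |qf (mk W γ) x| ≤ ∑ j, |γ j| := by
  rw [qf_mk]
  refine (Finset.abs_sum_le_sum_abs _ _).trans (Finset.sum_le_sum fun j _ => ?_)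
  rw [abs_mul, abs_of_nonneg (sq_nonneg ‖(Wᴴ *ᵥ x) j‖)]
  have h1 : ‖(Wᴴ *ᵥ x) j‖ ^ 2 ≤ 1 := by
    rw [← hx, ← hW.ct.nq x]
    exact sq_le_nq _ j
  nlinarith [abs_nonneg (γ j)]

theorem exists_max {C : Matrix (Fin n) (Fin n) ℂ} (hC : C.IsHermitian) {α β : Fin n → ℝ}
    (h : ∃ U V u, Feas C α β U V u) :
    ∃ U V u, Feas C α β U V u ∧ ∀ U' V' u', Feas C α β U' V' u' → ∑ i, u' i ≤ ∑ i, u i := by
  obtain ⟨W, γ, hW, hCW⟩ := exists_mk hC
  set L : ℝ := ∑ j, |γ j| + ∑ j, |β j| with hL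
  have hlow : ∀ U V u, Feas C α β U V u → ∀ i, -L ≤ u i := by
    intro U V u hF i
    have hx : nq (U *ᵥ Pi.single i 1) = 1 := by rw [hF.hU.nq, nq_single]
    have h1 := hF.hi (U *ᵥ Pi.single i 1)
    rw [qf_sub, qf_mk_col hF.hU] at h1
    have h2 := qf_mk_le W hW γ _ hx
    rw [← hCW] at h2
    have h3 := qf_mk_le V hF.hV β _ hx
    have h4 := abs_le.mp h2
    have h5 := abs_le.mp h3
    rw [hL]
    linarith [h4.1, h5.2]
  set K : Set (Matrix (Fin n) (Fin n) ℂ × Matrix (Fin n) (Fin n) ℂ × (Fin n → ℝ)) :=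
    {p | Feas C α β p.1 p.2.1 p.2.2} with hK
  have hKc : IsCompact K := by
    have hcomp : IsCompact ({U : Matrix (Fin n) (Fin n) ℂ | Un U} ×ˢ
        ({V : Matrix (Fin n) (Fin n) ℂ | Un V} ×ˢ Set.Icc (fun _ : Fin n => -L) α)) :=
      isCompact_Un.prod (isCompact_Un.prod isCompact_Icc)
    apply hcomp.of_isClosed_subset
    · have e : K = {p | Un p.1} ∩ {p | Un p.2.1} ∩ {p | ∀ i, p.2.2 i ≤ α i} ∩
          {p | ∀ x, 0 ≤ qf (C - mk p.1 p.2.2) x} ∩
          {p | ∀ x, qf (C - mk p.1 p.2.2) x ≤ qf (mk p.2.1 β) x} := by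
        ext p
        simp only [hK, Set.mem_ofPred_eq, Set.mem_inter_iff]
        constructor
        · rintro ⟨a, b, c, d, e⟩; exact ⟨⟨⟨⟨a, b⟩, c⟩, d⟩, e⟩
        · rintro ⟨⟨⟨⟨a, b⟩, c⟩, d⟩, e⟩; exact ⟨a, b, c, d, e⟩
      rw [e]
      have c1' : Continuous fun p : Matrix (Fin n) (Fin n) ℂ × Matrix (Fin n) (Fin n) ℂ ×
          (Fin n → ℝ) => (p.1, p.2.2) := by fun_prop
      have c1 : Continuous fun p : Matrix (Fin n) (Fin n) ℂ × Matrix (Fin n) (Fin n) ℂ ×
          (Fin n → ℝ) => C - mk p.1 p.2.2 :=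
        continuous_const.sub (Continuous.comp continuous_mk c1')
      have c2' : Continuous fun p : Matrix (Fin n) (Fin n) ℂ × Matrix (Fin n) (Fin n) ℂ ×
          (Fin n → ℝ) => (p.2.1, β) := by fun_prop
      have c2 : Continuous fun p : Matrix (Fin n) (Fin n) ℂ × Matrix (Fin n) (Fin n) ℂ ×
          (Fin n → ℝ) => mk p.2.1 β :=
        Continuous.comp continuous_mk c2'
      refine (((IsClosed.inter ?_ ?_).inter ?_).inter ?_).inter ?_
      · unfold Un
        apply isClosed_eq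
        · exact (Continuous.matrix_conjTranspose continuous_fst).matrix_mul continuous_fst
        · exact continuous_const
      · unfold Un
        have c3 : Continuous fun p : Matrix (Fin n) (Fin n) ℂ × Matrix (Fin n) (Fin n) ℂ ×
          (Fin n → ℝ) => p.2.1 := continuous_fst.comp continuous_snd
        apply isClosed_eq
        · exact (Continuous.matrix_conjTranspose c3).matrix_mul c3
        · exact continuous_const
      · rw [Set.ofPred_forall]
        apply isClosed_iInter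
        intro i
        exact isClosed_le ((continuous_apply i).comp (continuous_snd.comp continuous_snd))
          continuous_const
      · rw [Set.ofPred_forall]
        apply isClosed_iInter
        intro x
        exact isClosed_le continuous_const ((continuous_qf x).comp c1)
      · rw [Set.ofPred_forall]
        apply isClosed_iInter
        intro x
        exact isClosed_le ((continuous_qf x).comp c1) ((continuous_qf x).comp c2)
    · rintro ⟨U, V, u⟩ hp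
      exact ⟨hp.hU, hp.hV, fun i => hlow U V u hp i, fun i => hp.hu i⟩
  have hKn : K.Nonempty := by
    obtain ⟨U, V, u, hF⟩ := h
    exact ⟨(U, V, u), hF⟩
  have hcont : ContinuousOn (fun p : Matrix (Fin n) (Fin n) ℂ × Matrix (Fin n) (Fin n) ℂ ×
      (Fin n → ℝ) => ∑ i, p.2.2 i) K := by
    apply Continuous.continuousOn
    exact continuous_finsetSum _ fun i _ => (continuous_apply i).comp
      (continuous_snd.comp continuous_snd)
  obtain ⟨p, hp, hmax⟩ := hKc.exists_isMaxOn hKn hcont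
  exact ⟨p.1, p.2.1, p.2.2, hp, fun U' V' u' hF => hmax (show (U', V', u') ∈ K from hF)⟩

theorem trace_re_mk {U : Matrix (Fin n) (Fin n) ℂ} (hU : Un U) (u : Fin n → ℝ) :
    (mk U u).trace.re = ∑ i, u i := by
  rw [mk_trace hU, Complex.ofReal_re]

theorem dot_split (b : Fin n → ℝ) (y x : Fin n → ℂ) :
    star y ⬝ᵥ x = (∑ j, if b j = 0 then 0 else star (y j) * x j) +
      star (fun j => if b j = 0 then y j else 0) ⬝ᵥ x := by
  unfold dotProduct
  rw [← Finset.sum_add_distrib]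
  apply Finset.sum_congr rfl
  intro j _
  by_cases h : b j = 0 <;> simp [h]

/-- first order step: at a maximiser, unsaturated eigenvectors of `A` lie in `ker B`. -/
theorem step1 {C : Matrix (Fin n) (Fin n) ℂ} (hC : C.IsHermitian) {α β : Fin n → ℝ}
    (hβ : ∀ j, 0 < β j) {U V : Matrix (Fin n) (Fin n) ℂ} {u : Fin n → ℝ} (hF : Feas C α β U V u)
    (hmax : ∀ U' V' u', Feas C α β U' V' u' → ∑ i, u' i ≤ ∑ i, u i) {i : Fin n} (hi : u i < α i)
    {a : Fin n → ℂ} (ha : nq a = 1) (hA : mk U u *ᵥ a = (u i : ℂ) • a) :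
    (C - mk U u) *ᵥ a = 0 := by
  classical
  by_contra hBa
  have hBh : (C - mk U u).IsHermitian := hC.sub (mk_herm U u)
  obtain ⟨V', b, hV', hb, hB⟩ := weyl_le hBh hF.hV β hF.hi
  have hb0 : ∀ j, 0 ≤ b j := by
    intro j
    have h1 := hF.lo (V' *ᵥ Pi.single j 1)
    rwa [hB, qf_mk_col hV'] at h1
  obtain ⟨U', hU', hUu, hUa⟩ := rotate_eig hF.hU u i ha hA
  set y : Fin n → ℂ := V'ᴴ *ᵥ a with hy
  have hya : a = V' *ᵥ y := by rw [hy, mulVec_mulVec, hV'.right, one_mulVec]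
  have hyn : nq y = 1 := by rw [hy, hV'.ct.nq, ha]
  set y2 : Fin n → ℂ := fun j => if b j = 0 then y j else 0 with hy2
  set σ : ℝ := nq y2 with hσ
  set κ : ℝ := ∑ j, ‖y j‖ ^ 2 * (b j)⁻¹ with hκ
  -- some coordinate in the range of `B`
  obtain ⟨j0, hj0b, hj0y⟩ : ∃ j, b j ≠ 0 ∧ y j ≠ 0 := by
    by_contra hcon
    push Not at hcon
    apply hBa
    rw [hB, hya, mk_mulVec hV']
    have : (fun j => (b j : ℂ) * y j) = 0 := by
      ext j
      by_cases hj : b j = 0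
      · simp [hj]
      · simp [hcon j hj]
    rw [this, mulVec_zero]
  have hσ1 : σ < 1 := by
    rw [← hyn, hσ]
    unfold nq
    apply Finset.sum_lt_sum
    · intro j _
      rw [hy2]
      dsimp only
      split_ifs
      · exact le_refl _
      · simp
    · refine ⟨j0, Finset.mem_univ _, ?_⟩
      rw [hy2]
      dsimp only
      rw [if_neg hj0b]
      have := norm_pos_iff.mpr hj0y
      simp only [norm_zero]
      nlinarith
  have hσ0 : 0 ≤ σ := nq_nonneg _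
  have hκ0 : 0 < κ := by
    rw [hκ]
    apply Finset.sum_pos'
    · intro j _
      exact mul_nonneg (sq_nonneg _) (inv_nonneg.mpr (hb0 j))
    · refine ⟨j0, Finset.mem_univ _, ?_⟩
      have h1 := norm_pos_iff.mpr hj0y
      have h2 : 0 < b j0 := lt_of_le_of_ne (hb0 j0) (Ne.symm hj0b)
      positivity
  clear_value κ σ
  -- choice of `t`
  obtain ⟨t, ht0, ht1, ht2, ht3, ht4⟩ : ∃ t : ℝ, 0 < t ∧ t * (2 * κ) ≤ 1 ∧ t ≤ α i - u i ∧
      (∀ j, (t + 2 * κ * t ^ 2) * σ ≤ β j) ∧ 2 * κ * t * σ < 1 - σ := by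
    have e1 : ∀ᶠ t : ℝ in 𝓝[>] 0, t * (2 * κ) < 1 := by
      apply (ContinuousAt.eventually_lt (f := fun t : ℝ => t * (2 * κ)) (g := fun _ => (1 : ℝ))
        (by fun_prop) (by fun_prop) (by simp)).filter_mono nhdsWithin_le_nhds
    have e2 : ∀ᶠ t : ℝ in 𝓝[>] 0, t < α i - u i := by
      apply (ContinuousAt.eventually_lt (f := fun t : ℝ => t) (g := fun _ => α i - u i)
        (by fun_prop) (by fun_prop) (by simpa using hi)).filter_mono nhdsWithin_le_nhds
    have e3 : ∀ᶠ t : ℝ in 𝓝[>] 0, ∀ j, (t + 2 * κ * t ^ 2) * σ < β j := by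
      rw [Filter.eventually_all]
      intro j
      apply (ContinuousAt.eventually_lt (f := fun t : ℝ => (t + 2 * κ * t ^ 2) * σ)
        (g := fun _ => β j) (by fun_prop) (by fun_prop) (by simpa using hβ j)).filter_mono
          nhdsWithin_le_nhds
    have e4 : ∀ᶠ t : ℝ in 𝓝[>] 0, 2 * κ * t * σ < 1 - σ := by
      apply (ContinuousAt.eventually_lt (f := fun t : ℝ => 2 * κ * t * σ)
        (g := fun _ => 1 - σ) (by fun_prop) (by fun_prop) (by simpa using hσ1)).filter_mono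
          nhdsWithin_le_nhds
    have e5 : ∀ᶠ t : ℝ in 𝓝[>] 0, 0 < t := eventually_mem_nhdsWithin
    obtain ⟨t, h1, h2, h3, h4, h5⟩ := (e1.and (e2.and (e3.and (e4.and e5)))).exists
    exact ⟨t, h5, h1.le, h2.le, fun j => (h3 j).le, h4⟩
  set a2 : Fin n → ℂ := V' *ᵥ y2 with ha2
  set At : Matrix (Fin n) (Fin n) ℂ := mk U u + t • P1 a - (t + 2 * κ * t ^ 2) • P1 a2 with hAt
  have hAth : At.IsHermitian := by
    rw [hAt]
    refine ((mk_herm U u).add ?_).sub ?_
    · unfold IsHermitian; rw [conjTranspose_smul, (P1_herm a).eq]; simp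
    · unfold IsHermitian; rw [conjTranspose_smul, (P1_herm a2).eq]; simp
  have hqa : ∀ x, star a ⬝ᵥ x = star y ⬝ᵥ (V'ᴴ *ᵥ x) := by
    intro x; rw [hya, star_mulVec_dot]
  have hqa2 : ∀ x, star a2 ⬝ᵥ x = star y2 ⬝ᵥ (V'ᴴ *ᵥ x) := by
    intro x; rw [ha2, star_mulVec_dot]
  -- upper bound for `At`
  have hc0 : 0 ≤ t + 2 * κ * t ^ 2 := by positivity
  have hAup : ∀ x, qf At x ≤ qf (mk U' (fun j => u j + if j = i then t else 0)) x := by
    intro x
    rw [qf_update hUu hUa, hAt, qf_sub, qf_add, qf_smul, qf_smul, qf_P1, qf_P1]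
    have : 0 ≤ (t + 2 * κ * t ^ 2) * ‖star a2 ⬝ᵥ x‖ ^ 2 := by positivity
    linarith
  obtain ⟨U'', u'', hU'', hu'', hAt''⟩ := weyl_le hAth hU' _ hAup
  -- `C - At`
  have hBt : ∀ x, qf (C - At) x = ∑ j, b j * ‖(V'ᴴ *ᵥ x) j‖ ^ 2 - t * ‖star a ⬝ᵥ x‖ ^ 2 +
      (t + 2 * κ * t ^ 2) * ‖star a2 ⬝ᵥ x‖ ^ 2 := by
    intro x
    have h1 : C - At = (C - mk U u) - t • P1 a + (t + 2 * κ * t ^ 2) • P1 a2 := by
      rw [hAt]; abel
    rw [h1, qf_add, qf_sub, qf_smul, qf_smul, qf_P1, qf_P1, hB, qf_mk]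
  have hlo : ∀ x, 0 ≤ qf (C - At) x := by
    intro x
    rw [hBt]
    set z : Fin n → ℂ := V'ᴴ *ᵥ x with hz
    set p : ℂ := ∑ j, if b j = 0 then 0 else star (y j) * z j with hp
    set q : ℂ := star a2 ⬝ᵥ x with hq
    have hsplit : star a ⬝ᵥ x = p + q := by
      rw [hqa, hq, hqa2, dot_split b y (V'ᴴ *ᵥ x)]
    have hpb : ‖p‖ ^ 2 ≤ κ * ∑ j, b j * ‖z j‖ ^ 2 := by
      have h1 : ‖p‖ ≤ ∑ j, (‖y j‖ * Real.sqrt (b j)⁻¹) * (Real.sqrt (b j) * ‖z j‖) := by
        rw [hp]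
        refine (norm_sum_le _ _).trans (Finset.sum_le_sum fun j _ => ?_)
        by_cases hj : b j = 0
        · simp [hj]
        · rw [if_neg hj, norm_mul, norm_star]
          have hbj : 0 < b j := lt_of_le_of_ne (hb0 j) (Ne.symm hj)
          have : Real.sqrt (b j)⁻¹ * Real.sqrt (b j) = 1 := by
            rw [← Real.sqrt_mul (inv_nonneg.mpr hbj.le), inv_mul_cancel₀ hbj.ne', Real.sqrt_one]
          calc ‖y j‖ * ‖z j‖ = ‖y j‖ * ‖z j‖ * (Real.sqrt (b j)⁻¹ * Real.sqrt (b j)) := by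
                rw [this, mul_one]
            _ = _ := by ring
            _ ≤ _ := le_refl _
      have h2 := Finset.sum_mul_sq_le_sq_mul_sq Finset.univ
        (fun j => ‖y j‖ * Real.sqrt (b j)⁻¹) (fun j => Real.sqrt (b j) * ‖z j‖)
      have h3 : ∑ j, (‖y j‖ * Real.sqrt (b j)⁻¹) ^ 2 = κ := by
        rw [hκ]
        apply Finset.sum_congr rfl
        intro j _
        rw [mul_pow, Real.sq_sqrt (inv_nonneg.mpr (hb0 j))]
      have h4 : ∑ j, (Real.sqrt (b j) * ‖z j‖) ^ 2 = ∑ j, b j * ‖z j‖ ^ 2 := by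
        apply Finset.sum_congr rfl
        intro j _
        rw [mul_pow, Real.sq_sqrt (hb0 j)]
      rw [h3, h4] at h2
      refine le_trans ?_ h2
      have := norm_nonneg p
      nlinarith
    rw [hsplit]
    have hpq : ‖p + q‖ ^ 2 ≤ (‖p‖ + ‖q‖) ^ 2 := by
      have := norm_add_le p q
      have h0 := norm_nonneg (p + q)
      nlinarith
    have hS : ‖p‖ ^ 2 / κ ≤ ∑ j, b j * ‖z j‖ ^ 2 := by
      rw [div_le_iff₀ hκ0]; linarith
    have h6 : t * (‖p‖ + ‖q‖) ^ 2 ≤ ‖p‖ ^ 2 / κ + (t + 2 * κ * t ^ 2) * ‖q‖ ^ 2 := by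
      have h7 : 2 * t * ‖p‖ * ‖q‖ ≤ ‖p‖ ^ 2 / (2 * κ) + 2 * κ * t ^ 2 * ‖q‖ ^ 2 := by
        have h8 : ‖p‖ ^ 2 / (2 * κ) + 2 * κ * t ^ 2 * ‖q‖ ^ 2 - 2 * t * ‖p‖ * ‖q‖ =
            (‖p‖ - 2 * κ * t * ‖q‖) ^ 2 / (2 * κ) := by
          field_simp
          ring
        have h9 : 0 ≤ (‖p‖ - 2 * κ * t * ‖q‖) ^ 2 / (2 * κ) := by positivity
        linarith
      have h10 : t * ‖p‖ ^ 2 ≤ ‖p‖ ^ 2 / (2 * κ) := by
        rw [le_div_iff₀ (by positivity)]
        nlinarith [sq_nonneg ‖p‖]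
      have h11 : ‖p‖ ^ 2 / κ = ‖p‖ ^ 2 / (2 * κ) + ‖p‖ ^ 2 / (2 * κ) := by
        field_simp
        ring
      nlinarith
    nlinarith
  have hhi : ∀ x, qf (C - At) x ≤ qf (mk V' β) x := by
    intro x
    rw [hBt, qf_mk]
    set z : Fin n → ℂ := V'ᴴ *ᵥ x with hz
    have h1 : ‖star a2 ⬝ᵥ x‖ ^ 2 ≤ σ * ∑ j, (if b j = 0 then ‖z j‖ ^ 2 else 0) := by
      rw [hqa2]
      have h2 : ‖star y2 ⬝ᵥ z‖ ≤ ∑ j, ‖y2 j‖ * (if b j = 0 then ‖z j‖ else 0) := by
        unfold dotProduct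
        refine (norm_sum_le _ _).trans (Finset.sum_le_sum fun j _ => ?_)
        rw [norm_mul, Pi.star_apply, norm_star]
        by_cases hj : b j = 0
        · simp [hj]
        · simp [hy2, hj]
      have h3 := Finset.sum_mul_sq_le_sq_mul_sq Finset.univ
        (fun j => ‖y2 j‖) (fun j => (if b j = 0 then ‖z j‖ else 0))
      have h4 : ∑ j, (if b j = 0 then ‖z j‖ else 0) ^ 2 =
          ∑ j, (if b j = 0 then ‖z j‖ ^ 2 else 0) := by
        apply Finset.sum_congr rfl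
        intro j _
        split_ifs <;> simp
      have h4' : ∑ j, ‖y2 j‖ ^ 2 = σ := by rw [hσ]; unfold nq; rfl
      rw [h4, h4'] at h3
      refine le_trans ?_ h3
      have := norm_nonneg (star y2 ⬝ᵥ z)
      nlinarith
    have h5 : 0 ≤ t * ‖star a ⬝ᵥ x‖ ^ 2 := by positivity
    have h6 : (t + 2 * κ * t ^ 2) * ‖star a2 ⬝ᵥ x‖ ^ 2 ≤
        ∑ j, (if b j = 0 then (t + 2 * κ * t ^ 2) * σ * ‖z j‖ ^ 2 else 0) := by
      have h7 : ∑ j, (if b j = 0 then (t + 2 * κ * t ^ 2) * σ * ‖z j‖ ^ 2 else 0) =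
          (t + 2 * κ * t ^ 2) * (σ * ∑ j, (if b j = 0 then ‖z j‖ ^ 2 else 0)) := by
        rw [Finset.mul_sum, Finset.mul_sum]
        apply Finset.sum_congr rfl
        intro j _
        split_ifs
        · ring
        · ring
      rw [h7]
      exact mul_le_mul_of_nonneg_left h1 hc0
    have h8 : ∑ j, b j * ‖z j‖ ^ 2 +
        ∑ j, (if b j = 0 then (t + 2 * κ * t ^ 2) * σ * ‖z j‖ ^ 2 else 0) ≤
        ∑ j, β j * ‖z j‖ ^ 2 := by
      rw [← Finset.sum_add_distrib]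
      apply Finset.sum_le_sum
      intro j _
      by_cases hj : b j = 0
      · rw [if_pos hj, hj, zero_mul, zero_add]
        exact mul_le_mul_of_nonneg_right (ht3 j) (sq_nonneg _)
      · rw [if_neg hj, add_zero]
        exact mul_le_mul_of_nonneg_right (hb j) (sq_nonneg _)
    linarith
  have hF' : Feas C α β U'' V' u'' := by
    refine ⟨hU'', hV', ?_, ?_, ?_⟩
    · intro j
      refine (hu'' j).trans ?_
      by_cases hj : j = i
      · subst hj; simp; linarith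
      · simp [hj]; exact hF.hu j
    · rw [← hAt'']; exact hlo
    · rw [← hAt'']; exact hhi
  have h1 := hmax _ _ _ hF'
  have h2 : ∑ j, u'' j = ∑ j, u j + t - (t + 2 * κ * t ^ 2) * σ := by
    rw [← trace_re_mk hU'' u'', ← hAt'', hAt, trace_sub, trace_add, Complex.sub_re, Complex.add_re,
      trace_re_mk hF.hU, trace_smul, trace_smul, P1_trace, P1_trace, ha, ha2, hV'.nq, ← hσ]
    simp only [Complex.smul_re, Complex.ofReal_re, smul_eq_mul, mul_one]
  rw [h2] at h1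
  nlinarith

end Pool.Agent.H259R3.UO
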