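import Pool.Agent.H259R3.UO4

set_option autoImplicit false

/-! Unitary orbits: an eigenvalue of `A + s B` passes through `ν`. -/

open Matrix Finset Filter Topology
open scoped ComplexOrder

namespace Pool.Agent.H259R3.UO

variable {n : ℕ}

attribute [local irreducible] mk qf nq P1

theorem perm_of_card_le (S T : Finset (Fin n)) (h : S.card ≤ T.card) :
    ∃ σ : Equiv.Perm (Fin n), ∀ j, σ j ∈ S → j ∈ T := by
  classical
  obtain ⟨σ, hσ⟩ := perm_of_card (fun j => if j ∈ S then (1 : ℝ) else 0)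
    (fun j => if j ∈ T then (1 : ℝ) else 0) (by
      intro τ
      by_cases h0 : τ < 0
      · have e1 : (univ.filter (fun i => τ < if i ∈ T then (1 : ℝ) else 0)) = univ := by
          ext i
          simp only [Finset.mem_filter, Finset.mem_univ, true_and, iff_true]
          split_ifs <;> linarith
        rw [e1]
        exact Finset.card_le_card (Finset.subset_univ _)
      · by_cases h1 : τ < 1
        · have e1 : (univ.filter (fun i => τ < if i ∈ T then (1 : ℝ) else 0)) = T := by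
            ext i
            simp only [Finset.mem_filter, Finset.mem_univ, true_and]
            by_cases hi : i ∈ T
            · simp [hi, h1]
            · simp only [hi, if_false, iff_false]; exact h0
          have e2 : (univ.filter (fun i => τ < if i ∈ S then (1 : ℝ) else 0)) = S := by
            ext i
            simp only [Finset.mem_filter, Finset.mem_univ, true_and]
            by_cases hi : i ∈ S
            · simp [hi, h1]
            · simp only [hi, if_false, iff_false]; exact h0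
          rw [e1, e2]; exact h
        · have e2 : (univ.filter (fun i => τ < if i ∈ S then (1 : ℝ) else 0)) = ∅ := by
            ext i
            simp only [Finset.mem_filter, Finset.mem_univ, true_and, Finset.notMem_empty, iff_false]
            split_ifs
            · exact h1
            · linarith
          rw [e2]; simp)
  refine ⟨σ, fun j hj => ?_⟩
  by_contra hc
  have := hσ j
  rw [if_pos hj, if_neg hc] at this
  linarith

theorem closed_proj (Q : ℝ → Matrix (Fin n) (Fin n) ℂ → Prop)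
    (hQ : IsClosed {p : ℝ × Matrix (Fin n) (Fin n) ℂ | Q p.1 p.2}) :
    IsClosed {s : ℝ | s ∈ Set.Icc (0 : ℝ) 1 ∧ ∃ U, Un U ∧ Q s U} := by
  have h1 : IsCompact ((Set.Icc (0 : ℝ) 1 ×ˢ {U : Matrix (Fin n) (Fin n) ℂ | Un U}) ∩
      {p : ℝ × Matrix (Fin n) (Fin n) ℂ | Q p.1 p.2}) :=
    (isCompact_Icc.prod isCompact_Un).inter_right hQ
  have h2 := (h1.image continuous_fst).isClosed
  convert h2 using 1
  ext s
  constructor
  · rintro ⟨hs, U, hU, hq⟩
    exact ⟨(s, U), ⟨⟨hs, hU⟩, hq⟩, rfl⟩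
  · rintro ⟨p, ⟨⟨hs, hU⟩, hq⟩, rfl⟩
    exact ⟨hs, p.2, hU, hq⟩

theorem eig_zero {M U : Matrix (Fin n) (Fin n) ℂ} (hU : Un U) {m : Fin n → ℝ} (hM : M = mk U m)
    {ν : ℝ} {e : Fin n → ℂ} (he : M *ᵥ e = (ν : ℂ) • e) {j : Fin n} (hj : m j ≠ ν) :
    (Uᴴ *ᵥ e) j = 0 := by
  have h1 : e = U *ᵥ (Uᴴ *ᵥ e) := by rw [mulVec_mulVec, hU.right, one_mulVec]
  rw [hM] at he
  have h2 : mk U m *ᵥ e = U *ᵥ (fun i => (m i : ℂ) * (Uᴴ *ᵥ e) i) := by
    conv_lhs => rw [h1]
    rw [mk_mulVec hU]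
  have h3 := congrArg (fun x => (Uᴴ *ᵥ x) j) (h2.symm.trans he)
  simp only [mulVec_mulVec, mulVec_smul, Pi.smul_apply, smul_eq_mul] at h3
  rw [hU, one_mulVec] at h3
  have h4 : ((m j : ℂ) - ν) * (Uᴴ *ᵥ e) j = 0 := by
    rw [sub_mul]
    exact sub_eq_zero.mpr h3
  rcases mul_eq_zero.mp h4 with h5 | h5
  · exfalso
    apply hj
    rw [sub_eq_zero] at h5
    exact_mod_cast h5
  · exact h5

/-- the crossing lemma -/
theorem crossing {C : Matrix (Fin n) (Fin n) ℂ} {W : Matrix (Fin n) (Fin n) ℂ} (hW : Un W)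
    {γ : Fin n → ℝ} (hC : C = mk W γ) {α : Fin n → ℝ} (hαγ : ∀ j, α j ≤ γ j)
    {U : Matrix (Fin n) (Fin n) ℂ} (hU : Un U) {u : Fin n → ℝ} (hu : ∀ j, u j ≤ α j) {i : Fin n}
    (hi : u i < α i)
    (hE : ∀ a, mk U u *ᵥ a = (u i : ℂ) • a → (C - mk U u) *ᵥ a = 0) :
    ∃ s : ℝ, 0 < s ∧ s < 1 ∧ ∃ w, nq w = 1 ∧
      (mk U u + s • (C - mk U u)) *ᵥ w = (u i : ℂ) • w ∧ (C - mk U u) *ᵥ w ≠ 0 ∧
      ∀ e, mk U u *ᵥ e = (u i : ℂ) • e → star e ⬝ᵥ w = 0 := by
  classical
  set ν : ℝ := u i with hν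
  set B : Matrix (Fin n) (Fin n) ℂ := C - mk U u with hB
  set M : ℝ → Matrix (Fin n) (Fin n) ℂ := fun s => mk U u + s • B with hM
  have hCh : C.IsHermitian := by rw [hC]; exact mk_herm W γ
  have hBh : B.IsHermitian := hCh.sub (mk_herm U u)
  have hMh : ∀ s, (M s).IsHermitian := by
    intro s
    refine (mk_herm U u).add ?_
    unfold IsHermitian; rw [conjTranspose_smul, hBh.eq]; simp
  have hM0 : M 0 = mk U u := by simp [hM]
  have hM1 : M 1 = C := by simp [hM, hB]
  have hME : ∀ s a, mk U u *ᵥ a = (ν : ℂ) • a → M s *ᵥ a = (ν : ℂ) • a := by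
    intro s a ha
    rw [hM]
    show (mk U u + s • B) *ᵥ a = _
    rw [add_mulVec, ha, smul_mulVec, hE a ha, smul_zero, add_zero]
  set S : Finset (Fin n) := univ.filter (fun j => ν < u j) with hS
  set Sp : Finset (Fin n) := insert i S with hSp
  have hiS : i ∉ S := by simp [hS, hν]
  have hSpc : Sp.card = S.card + 1 := Finset.card_insert_of_notMem hiS
  have hSpγ : ∀ j ∈ Sp, ν < γ j := by
    intro j hj
    rw [hSp, Finset.mem_insert] at hj
    rcases hj with rfl | hj
    · exact lt_of_lt_of_le hi (hαγ _)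
    · rw [hS, Finset.mem_filter] at hj
      exact lt_of_lt_of_le hj.2 ((hu j).trans (hαγ j))
  -- two closed sets
  set Qm : ℝ → Matrix (Fin n) (Fin n) ℂ → Prop := fun s U' =>
    ∀ z : Fin n → ℂ, (∀ j, ν < u j → z j = 0) → qf (M s) (U' *ᵥ z) ≤ ν * nq z with hQm
  set Qp : ℝ → Matrix (Fin n) (Fin n) ℂ → Prop := fun s U' =>
    ∀ z : Fin n → ℂ, (∀ j, j ∉ Sp → z j = 0) → (ν * nq z ≤ qf (M s) (U' *ᵥ z) ∧
      ∀ e, mk U u *ᵥ e = (ν : ℂ) • e → star e ⬝ᵥ (U' *ᵥ z) = 0) with hQp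
  have hcq : ∀ z : Fin n → ℂ, Continuous fun p : ℝ × Matrix (Fin n) (Fin n) ℂ =>
      qf (M p.1) (p.2 *ᵥ z) := by
    intro z
    have e : (fun p : ℝ × Matrix (Fin n) (Fin n) ℂ => qf (M p.1) (p.2 *ᵥ z)) =
        fun p : ℝ × Matrix (Fin n) (Fin n) ℂ =>
          (star (p.2 *ᵥ z) ⬝ᵥ ((mk U u + p.1 • B) *ᵥ (p.2 *ᵥ z))).re := by
      ext p; unfold qf; rfl
    rw [e]
    apply Complex.continuous_re.comp
    have c1 : Continuous fun p : ℝ × Matrix (Fin n) (Fin n) ℂ => p.2 *ᵥ z :=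
      continuous_snd.matrix_mulVec continuous_const
    have c2 : Continuous fun p : ℝ × Matrix (Fin n) (Fin n) ℂ => mk U u + p.1 • B :=
      continuous_const.add (continuous_fst.smul continuous_const)
    exact (continuous_star.comp c1).dotProduct (c2.matrix_mulVec c1)
  have hclm : IsClosed {s : ℝ | s ∈ Set.Icc (0 : ℝ) 1 ∧ ∃ U', Un U' ∧ Qm s U'} := by
    apply closed_proj
    rw [Set.ofPred_forall]
    apply isClosed_iInter
    intro z
    by_cases hz : ∀ j, ν < u j → z j = 0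
    · have : {p : ℝ × Matrix (Fin n) (Fin n) ℂ | (∀ j, ν < u j → z j = 0) →
          qf (M p.1) (p.2 *ᵥ z) ≤ ν * nq z} = {p | qf (M p.1) (p.2 *ᵥ z) ≤ ν * nq z} := by
        ext p; exact ⟨fun h => h hz, fun h _ => h⟩
      rw [this]
      exact isClosed_le (hcq z) continuous_const
    · have : {p : ℝ × Matrix (Fin n) (Fin n) ℂ | (∀ j, ν < u j → z j = 0) →
          qf (M p.1) (p.2 *ᵥ z) ≤ ν * nq z} = Set.univ := by
        ext p; exact ⟨fun _ => trivial, fun _ h => absurd h hz⟩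
      rw [this]; exact isClosed_univ
  have hclp : IsClosed {s : ℝ | s ∈ Set.Icc (0 : ℝ) 1 ∧ ∃ U', Un U' ∧ Qp s U'} := by
    apply closed_proj
    rw [Set.ofPred_forall]
    apply isClosed_iInter
    intro z
    by_cases hz : ∀ j, j ∉ Sp → z j = 0
    · have : {p : ℝ × Matrix (Fin n) (Fin n) ℂ | (∀ j, j ∉ Sp → z j = 0) →
          (ν * nq z ≤ qf (M p.1) (p.2 *ᵥ z) ∧
            ∀ e, mk U u *ᵥ e = (ν : ℂ) • e → star e ⬝ᵥ (p.2 *ᵥ z) = 0)} =
          {p | ν * nq z ≤ qf (M p.1) (p.2 *ᵥ z)} ∩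
          ⋂ e, {p | mk U u *ᵥ e = (ν : ℂ) • e → star e ⬝ᵥ (p.2 *ᵥ z) = 0} := by
        ext p
        constructor
        · intro h
          refine ⟨(h hz).1, ?_⟩
          rw [Set.mem_iInter]
          intro e he
          exact (h hz).2 e he
        · rintro ⟨h, h'⟩ _
          refine ⟨h, fun e he => ?_⟩
          rw [Set.mem_iInter] at h'
          exact h' e he
      rw [this]
      refine (isClosed_le continuous_const (hcq z)).inter (isClosed_iInter fun e => ?_)
      by_cases he : mk U u *ᵥ e = (ν : ℂ) • e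
      · have e2 : {p : ℝ × Matrix (Fin n) (Fin n) ℂ | mk U u *ᵥ e = (ν : ℂ) • e →
          star e ⬝ᵥ (p.2 *ᵥ z) = 0} = {p | star e ⬝ᵥ (p.2 *ᵥ z) = 0} := by
          ext p; exact ⟨fun h => h he, fun h _ => h⟩
        rw [e2]
        apply isClosed_eq _ continuous_const
        exact continuous_const.dotProduct (continuous_snd.matrix_mulVec continuous_const)
      · have e2 : {p : ℝ × Matrix (Fin n) (Fin n) ℂ | mk U u *ᵥ e = (ν : ℂ) • e →
          star e ⬝ᵥ (p.2 *ᵥ z) = 0} = Set.univ := by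
          ext p; exact ⟨fun _ => trivial, fun _ h => absurd h he⟩
        rw [e2]; exact isClosed_univ
    · have : {p : ℝ × Matrix (Fin n) (Fin n) ℂ | (∀ j, j ∉ Sp → z j = 0) →
          (ν * nq z ≤ qf (M p.1) (p.2 *ᵥ z) ∧
            ∀ e, mk U u *ᵥ e = (ν : ℂ) • e → star e ⬝ᵥ (p.2 *ᵥ z) = 0)} = Set.univ := by
        ext p; exact ⟨fun _ => trivial, fun _ h => absurd h hz⟩
      rw [this]; exact isClosed_univ
  -- general lemma producing `Qp`
  have hQp_of : ∀ s U' m, Un U' → M s = mk U' m → (∀ j ∈ Sp, ν < m j) → Qp s U' := by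
    intro s U' m hU' hMs hm z hz
    constructor
    · rw [hMs, qf_mk_mulVec hU']
      unfold nq
      rw [Finset.mul_sum]
      apply Finset.sum_le_sum
      intro j _
      by_cases hj : j ∈ Sp
      · exact mul_le_mul_of_nonneg_right (hm j hj).le (sq_nonneg _)
      · rw [hz j hj]; simp
    · intro e he
      have h1 := hME s e he
      have h2 : star e ⬝ᵥ (U' *ᵥ z) = star (U'ᴴ *ᵥ e) ⬝ᵥ z := by
        rw [star_mulVec_dot, conjTranspose_conjTranspose]
      rw [h2]
      unfold dotProduct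
      apply Finset.sum_eq_zero
      intro j _
      by_cases hj : j ∈ Sp
      · rw [Pi.star_apply, eig_zero hU' hMs h1 (hm j hj).ne']; simp
      · rw [hz j hj]; simp
  have hcover : Set.Icc (0 : ℝ) 1 ⊆ {s : ℝ | s ∈ Set.Icc (0 : ℝ) 1 ∧ ∃ U', Un U' ∧ Qm s U'} ∪
      {s : ℝ | s ∈ Set.Icc (0 : ℝ) 1 ∧ ∃ U', Un U' ∧ Qp s U'} := by
    intro s hs
    obtain ⟨Us, m, hUs, hMs⟩ := exists_mk (hMh s)
    by_cases hc : (univ.filter (fun j => ν < m j)).card ≤ S.card
    · left
      obtain ⟨σ, hσ⟩ := perm_of_card_le _ _ hc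
      refine ⟨hs, Us.submatrix id σ, Un_perm hUs σ, fun z hz => ?_⟩
      rw [hMs, ← mk_perm Us m σ, qf_mk_mulVec (Un_perm hUs σ)]
      unfold nq
      rw [Finset.mul_sum]
      apply Finset.sum_le_sum
      intro j _
      by_cases hj : ν < m (σ j)
      · have := hσ j (by simp [hj])
        rw [hS, Finset.mem_filter] at this
        rw [hz j this.2]; simp
      · exact mul_le_mul_of_nonneg_right (not_lt.mp hj) (sq_nonneg _)
    · right
      push Not at hc
      obtain ⟨σ, hσ⟩ := perm_of_card_le Sp (univ.filter (fun j => ν < m j)) (by omega)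
      refine ⟨hs, Us.submatrix id σ.symm, Un_perm hUs _, ?_⟩
      apply hQp_of s _ (fun j => m (σ.symm j)) (Un_perm hUs _)
      · rw [hMs, mk_perm]
      · intro j hj
        have := hσ (σ.symm j) (by simpa using hj)
        rw [Finset.mem_filter] at this
        exact this.2
  have h0 : (Set.Icc (0 : ℝ) 1 ∩ {s : ℝ | s ∈ Set.Icc (0 : ℝ) 1 ∧ ∃ U', Un U' ∧ Qm s U'}).Nonempty := by
    refine ⟨0, ⟨by simp, ⟨by simp, U, hU, fun z hz => ?_⟩⟩⟩
    rw [hM0, qf_mk_mulVec hU]
    unfold nq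
    rw [Finset.mul_sum]
    apply Finset.sum_le_sum
    intro j _
    by_cases hj : ν < u j
    · rw [hz j hj]; simp
    · exact mul_le_mul_of_nonneg_right (not_lt.mp hj) (sq_nonneg _)
  have h1 : (Set.Icc (0 : ℝ) 1 ∩ {s : ℝ | s ∈ Set.Icc (0 : ℝ) 1 ∧ ∃ U', Un U' ∧ Qp s U'}).Nonempty := by
    refine ⟨1, ⟨by simp, ⟨by simp, W, hW, ?_⟩⟩⟩
    exact hQp_of 1 W γ hW (hM1.trans hC) hSpγ
  obtain ⟨s, hs, ⟨_, Um, hUm, hQms⟩, ⟨_, Up, hUp, hQps⟩⟩ :=
    (isPreconnected_closed_iff.mp (isPreconnected_Icc (a := (0 : ℝ)) (b := 1))) _ _ hclm hclp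
      hcover h0 h1
  obtain ⟨Us, m, hUs, hMs⟩ := exists_mk (hMh s)
  have hcard : (univ.filter (fun j => ν < m j)).card ≤ S.card := by
    apply card_le hUm hUs m u ν
    intro z hz
    rw [← hMs]
    exact hQms z hz
  have hcc : (univ.filter (fun j => ν < m j)).card + (univ.filter (fun j => ¬ ν < m j)).card = n := by
    rw [Finset.card_filter_add_card_filter_not]; simp
  obtain ⟨y, z, hy, hz, hyz, hy0, hz0⟩ := dimcount hUp hUs Sp (univ.filter (fun j => ¬ ν < m j))
    (by omega)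
  have hnq : nq y = nq z := by rw [← hUp.nq y, ← hUs.nq z, hyz]
  have hq1 := (hQps y hy).1
  have horth := (hQps y hy).2
  rw [hyz, hMs, qf_mk_mulVec hUs, hnq] at hq1
  have hzero : ∀ j, (ν - m j) * ‖z j‖ ^ 2 = 0 := by
    have hnn : ∀ j ∈ (univ : Finset (Fin n)), 0 ≤ (ν - m j) * ‖z j‖ ^ 2 := by
      intro j _
      by_cases hj : ν < m j
      · rw [hz j (by simp [hj])]; simp
      · exact mul_nonneg (by linarith) (sq_nonneg _)
    have hsum : ∑ j, (ν - m j) * ‖z j‖ ^ 2 ≤ 0 := by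
      have : ∑ j, (ν - m j) * ‖z j‖ ^ 2 = ν * nq z - ∑ j, m j * ‖z j‖ ^ 2 := by
        unfold nq
        rw [Finset.mul_sum, ← Finset.sum_sub_distrib]
        apply Finset.sum_congr rfl
        intro j _; ring
      rw [this]; linarith
    have hsum0 : ∑ j, (ν - m j) * ‖z j‖ ^ 2 = 0 := le_antisymm hsum (Finset.sum_nonneg hnn)
    intro j
    exact (Finset.sum_eq_zero_iff_of_nonneg hnn).mp hsum0 j (Finset.mem_univ j)
  set w : Fin n → ℂ := Us *ᵥ z with hw
  have hMw : M s *ᵥ w = (ν : ℂ) • w := by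
    rw [hMs, hw, mk_mulVec hUs, ← mulVec_smul]
    congr 1
    ext j
    rw [Pi.smul_apply, smul_eq_mul]
    rcases mul_eq_zero.mp (hzero j) with h | h
    · have : m j = ν := by linarith
      rw [this]
    · have : z j = 0 := by simpa using h
      rw [this]; simp
  have hwn : 0 < nq w := by rw [hw, hUs.nq]; exact nq_pos hz0
  have hwE : ¬ mk U u *ᵥ w = (ν : ℂ) • w := by
    intro h
    have h2 := horth w h
    rw [hyz, star_dot_self] at h2
    have : nq w = 0 := by exact_mod_cast h2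
    linarith
  have hBw : B *ᵥ w ≠ 0 := by
    intro h
    apply hwE
    have : M s *ᵥ w = mk U u *ᵥ w := by
      show (mk U u + s • B) *ᵥ w = _
      rw [add_mulVec, smul_mulVec, h, smul_zero, add_zero]
    rw [← this, hMw]
  have hs0 : s ≠ 0 := by
    intro h
    apply hwE
    rw [← hM0, ← h, hMw]
  have hs1 : s ≠ 1 := by
    intro h
    subst h
    have h3 : (univ.filter (fun j => ν < γ j)).card ≤ S.card := by
      apply card_le hUm hW γ u ν
      intro z hz
      rw [← hC, ← hM1]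
      exact hQms z hz
    have h4 : Sp.card ≤ (univ.filter (fun j => ν < γ j)).card := by
      apply Finset.card_le_card
      intro j hj
      simp [hSpγ j hj]
    omega
  refine ⟨s, lt_of_le_of_ne hs.1 (Ne.symm hs0), lt_of_le_of_ne hs.2 hs1,
    (((Real.sqrt (nq w))⁻¹ : ℝ) : ℂ) • w, ?_, ?_, ?_, ?_⟩
  · have hsq : Real.sqrt (nq w) ^ 2 = nq w := Real.sq_sqrt hwn.le
    have hne : Real.sqrt (nq w) ≠ 0 := (Real.sqrt_pos.mpr hwn).ne'
    have e1 : nq ((((Real.sqrt (nq w))⁻¹ : ℝ) : ℂ) • w) = ((Real.sqrt (nq w))⁻¹) ^ 2 * nq w := by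
      have e2 : ∀ (c : ℝ) (x : Fin n → ℂ), nq ((c : ℂ) • x) = c ^ 2 * nq x := by
        intro c x
        unfold nq
        rw [Finset.mul_sum]
        apply Finset.sum_congr rfl
        intro j _
        rw [Pi.smul_apply, smul_eq_mul, norm_mul, mul_pow, Complex.norm_real, Real.norm_eq_abs,
          sq_abs]
      exact e2 _ _
    rw [e1, inv_pow, hsq, inv_mul_cancel₀ hwn.ne']
  · show M s *ᵥ _ = _
    rw [mulVec_smul, hMw, smul_comm]
  · rw [mulVec_smul]
    intro h
    rcases smul_eq_zero.mp h with h' | h'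
    · have hne : Real.sqrt (nq w) ≠ 0 := (Real.sqrt_pos.mpr hwn).ne'
      simp [hne] at h'
    · exact hBw h'
  · intro e he
    have h2 := horth e he
    rw [hyz] at h2
    rw [dotProduct_smul, h2, smul_zero]

end Pool.Agent.H259R3.UO
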