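import Pool.Agent.H259R3.UO5

set_option autoImplicit false

/-! Unitary orbits: the rotation step. -/

open Matrix Finset Filter Topology
open scoped ComplexOrder

namespace Pool.Agent.H259R3.UO

variable {n : ℕ}

attribute [local irreducible] mk qf nq P1

/-- the rank one matrix `x yᴴ` -/
noncomputable def R1 (x y : Fin n → ℂ) : Matrix (Fin n) (Fin n) ℂ := vecMulVec x (star y)

theorem R1_mulVec (v y x : Fin n → ℂ) : R1 v y *ᵥ x = (star y ⬝ᵥ x) • v := by
  unfold R1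
  ext i
  rw [mulVec, Pi.smul_apply, smul_eq_mul]
  unfold dotProduct
  rw [Finset.sum_mul]
  apply Finset.sum_congr rfl
  intro j _
  show vecMulVec v (star y) i j * x j = _
  rw [vecMulVec_apply]
  ring

theorem R1_self (v : Fin n → ℂ) : R1 v v = P1 v := by unfold R1 P1; rfl

theorem R1_ct (x y : Fin n → ℂ) : (R1 x y)ᴴ = R1 y x := by
  unfold R1
  ext i j
  simp [vecMulVec_apply, Matrix.conjTranspose_apply, mul_comm]

theorem mul_R1 (M : Matrix (Fin n) (Fin n) ℂ) (x y : Fin n → ℂ) : M * R1 x y = R1 (M *ᵥ x) y := by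
  unfold R1; rw [mul_vecMulVec]

theorem R1_mul (M : Matrix (Fin n) (Fin n) ℂ) (x y : Fin n → ℂ) : R1 x y * M = R1 x (Mᴴ *ᵥ y) := by
  have h := congrArg conjTranspose (mul_R1 Mᴴ y x)
  rw [conjTranspose_mul, R1_ct, R1_ct, conjTranspose_conjTranspose] at h
  exact h

theorem R1_mul_R1 (x y z w : Fin n → ℂ) : R1 x y * R1 z w = (star y ⬝ᵥ z) • R1 x w := by
  rw [mul_R1, R1_mulVec]
  unfold R1
  ext i j
  simp [vecMulVec_apply]
  ring

theorem R1_smul_left (c : ℂ) (x y : Fin n → ℂ) : R1 (c • x) y = c • R1 x y := by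
  unfold R1
  ext i j
  simp [vecMulVec_apply]
  ring

theorem R1_smul_right (c : ℂ) (x y : Fin n → ℂ) : R1 x (c • y) = star c • R1 x y := by
  unfold R1
  ext i j
  simp [vecMulVec_apply]
  ring

theorem mk_mul (U : Matrix (Fin n) (Fin n) ℂ) (hU : Un U) (u v : Fin n → ℝ) :
    mk U u * mk U v = mk U (fun i => u i * v i) := by
  unfold mk
  calc U * diagonal (fun i => (u i : ℂ)) * Uᴴ * (U * diagonal (fun i => (v i : ℂ)) * Uᴴ)
      = U * diagonal (fun i => (u i : ℂ)) * (Uᴴ * U) * diagonal (fun i => (v i : ℂ)) * Uᴴ := by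
        simp only [Matrix.mul_assoc]
    _ = U * (diagonal (fun i => (u i : ℂ)) * diagonal (fun i => (v i : ℂ))) * Uᴴ := by
        rw [hU]; simp only [Matrix.mul_assoc, Matrix.one_mul]
    _ = _ := by
        rw [diagonal_mul_diagonal]
        congr 3
        ext i
        push_cast; rfl

theorem mk_conj (R U : Matrix (Fin n) (Fin n) ℂ) (u : Fin n → ℝ) :
    mk (R * U) u = R * mk U u * Rᴴ := by
  unfold mk
  rw [conjTranspose_mul]
  simp only [Matrix.mul_assoc]

theorem qf_GhG (G : Matrix (Fin n) (Fin n) ℂ) (x : Fin n → ℂ) : qf (Gᴴ * G) x = nq (G *ᵥ x) := by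
  rw [nq_eq]
  unfold qf
  rw [star_mulVec_dot, mulVec_mulVec]

/-- the rotation -/
noncomputable def Rot (c s : ℝ) (w a : Fin n → ℂ) : Matrix (Fin n) (Fin n) ℂ :=
  1 + ((c - 1 : ℝ) : ℂ) • (R1 w w + R1 a a) + (s : ℂ) • (R1 a w - R1 w a)

theorem Rot_ct (c s : ℝ) (w a : Fin n → ℂ) : (Rot c s w a)ᴴ =
    1 + ((c - 1 : ℝ) : ℂ) • (R1 w w + R1 a a) - (s : ℂ) • (R1 a w - R1 w a) := by
  unfold Rot
  rw [conjTranspose_add, conjTranspose_add, conjTranspose_one, conjTranspose_smul,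
    conjTranspose_smul, conjTranspose_add, conjTranspose_sub, R1_ct, R1_ct, R1_ct, R1_ct]
  simp only [Complex.star_def, Complex.conj_ofReal]
  rw [← neg_sub (R1 w a) (R1 a w), smul_neg, sub_neg_eq_add]

theorem Rot_un {c s : ℝ} (hcs : c ^ 2 + s ^ 2 = 1) {w a : Fin n → ℂ} (hw : nq w = 1)
    (ha : nq a = 1) (hwa : star a ⬝ᵥ w = 0) : Un (Rot c s w a) := by
  have haw : star w ⬝ᵥ a = 0 := by rw [dot_conj a w, hwa, star_zero]
  have hww : star w ⬝ᵥ w = 1 := by rw [star_dot_self, hw]; simp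
  have haa : star a ⬝ᵥ a = 1 := by rw [star_dot_self, ha]; simp
  unfold Un
  rw [Rot_ct]
  unfold Rot
  set E : Matrix (Fin n) (Fin n) ℂ := R1 w w + R1 a a with hE
  set F : Matrix (Fin n) (Fin n) ℂ := R1 a w - R1 w a with hF
  have e1 : E * E = E := by
    rw [hE, add_mul, mul_add, mul_add, R1_mul_R1, R1_mul_R1, R1_mul_R1, R1_mul_R1, hww, haa, haw, hwa]
    simp
  have e2 : E * F = F := by
    rw [hE, hF, add_mul, mul_sub, mul_sub, R1_mul_R1, R1_mul_R1, R1_mul_R1, R1_mul_R1, hww, haa,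
      haw, hwa]
    simp
    abel
  have e3 : F * E = F := by
    rw [hE, hF, sub_mul, mul_add, mul_add, R1_mul_R1, R1_mul_R1, R1_mul_R1, R1_mul_R1, hww, haa,
      haw, hwa]
    simp
  have e4 : F * F = -E := by
    rw [hE, hF, sub_mul, mul_sub, mul_sub, R1_mul_R1, R1_mul_R1, R1_mul_R1, R1_mul_R1, hww, haa,
      haw, hwa]
    simp
    abel
  have e5 : ∀ k l : ℂ, (1 + k • E - l • F) * (1 + k • E + l • F) =
      1 + (k + k + k * k + l * l) • E := by
    intro k l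
    have : (1 + k • E - l • F) * (1 + k • E + l • F) =
        1 + k • E + l • F + (k • E + (k * k) • (E * E) + (k * l) • (E * F)) -
          (l • F + (l * k) • (F * E) + (l * l) • (F * F)) := by
      simp only [sub_mul, add_mul, mul_add, one_mul, mul_one, Matrix.smul_mul, Matrix.mul_smul,
        smul_smul]
      rw [mul_comm k l]
      abel
    rw [this, e1, e2, e3, e4, mul_comm l k, smul_neg, add_smul, add_smul, add_smul]
    abel
  rw [e5]
  have e6 : (((c - 1 : ℝ) : ℂ) + ((c - 1 : ℝ) : ℂ) + ((c - 1 : ℝ) : ℂ) * ((c - 1 : ℝ) : ℂ) +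
      (s : ℂ) * (s : ℂ)) = 0 := by
    have : ((c - 1) + (c - 1) + (c - 1) * (c - 1) + s * s : ℝ) = 0 := by nlinarith
    exact_mod_cast this
  rw [e6, zero_smul, add_zero]

theorem Rot_comm {c s : ℝ} {w a : Fin n → ℂ} {M : Matrix (Fin n) (Fin n) ℂ} (hM : Mᴴ = M) {ν : ℝ}
    (hw : M *ᵥ w = (ν : ℂ) • w) (ha : M *ᵥ a = (ν : ℂ) • a) :
    Rot c s w a * M = M * Rot c s w a := by
  unfold Rot
  have h : ∀ x y, M *ᵥ x = (ν : ℂ) • x → M *ᵥ y = (ν : ℂ) • y → R1 x y * M = M * R1 x y := by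
    intro x y hx hy
    rw [R1_mul, mul_R1, hM, hx, hy, R1_smul_left, R1_smul_right]
    simp
  rw [add_mul, add_mul, mul_add, mul_add, Matrix.smul_mul, Matrix.smul_mul, Matrix.mul_smul,
    Matrix.mul_smul, add_mul, sub_mul, mul_add, mul_sub, h w w hw hw, h a a ha ha, h a w ha hw,
    h w a hw ha]
  simp

theorem Rot_mulVec_a {c s : ℝ} {w a : Fin n → ℂ} (ha : nq a = 1) (hwa : star a ⬝ᵥ w = 0) :
    Rot c s w a *ᵥ a = (c : ℂ) • a - (s : ℂ) • w := by
  have haw : star w ⬝ᵥ a = 0 := by rw [dot_conj a w, hwa, star_zero]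
  have haa : star a ⬝ᵥ a = 1 := by rw [star_dot_self, ha]; simp
  unfold Rot
  rw [add_mulVec, add_mulVec, one_mulVec, smul_mulVec, smul_mulVec, add_mulVec, sub_mulVec,
    R1_mulVec, R1_mulVec, R1_mulVec, R1_mulVec, haw, haa]
  push_cast
  ext i
  simp
  ring

end Pool.Agent.H259R3.UO
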