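import Pool.Agent.H259R3.UO6

set_option autoImplicit false

/-! Unitary orbits: the rotated pair is feasible; conclusion of the extremal argument. -/

open Matrix Finset Filter Topology
open scoped ComplexOrder

namespace Pool.Agent.H259R3.UO

variable {n : ℕ}

attribute [local irreducible] mk qf nq P1 R1 Rot

theorem nq_add_smul (x z : Fin n → ℂ) (T : ℂ) :
    nq (x + T • z) = nq x + 2 * ((star x ⬝ᵥ z) * T).re + ‖T‖ ^ 2 * nq z := by
  unfold nq dotProduct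
  rw [Finset.sum_mul, Complex.re_sum, Finset.mul_sum, Finset.mul_sum, ← Finset.sum_add_distrib,
    ← Finset.sum_add_distrib]
  apply Finset.sum_congr rfl
  intro j _
  simp only [Pi.add_apply, Pi.smul_apply, Pi.star_apply, smul_eq_mul, Complex.star_def]
  rw [← Complex.normSq_eq_norm_sq, ← Complex.normSq_eq_norm_sq, ← Complex.normSq_eq_norm_sq,
    ← Complex.normSq_eq_norm_sq]
  simp only [Complex.normSq_apply, Complex.add_re, Complex.add_im, Complex.mul_re, Complex.mul_im,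
    Complex.conj_re, Complex.conj_im]
  ring

theorem scalar_bound (s ρ q : ℝ) (hq : 0 ≤ q) (hs0 : 0 ≤ s) (hs1 : s ≤ 1)
    (hρ : ρ ^ 2 = s * (1 - s) * q) (X Y : ℂ) :
    2 * ((starRingEnd ℂ) X * (-(s : ℂ) * X + (ρ : ℂ) * Y)).re +
      2 * ‖-(s : ℂ) * X + (ρ : ℂ) * Y‖ ^ 2 ≤ q / 2 * ‖Y‖ ^ 2 := by
  rw [← Complex.normSq_eq_norm_sq, ← Complex.normSq_eq_norm_sq]
  simp only [Complex.normSq_apply, Complex.add_re, Complex.add_im, Complex.mul_re, Complex.mul_im,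
    Complex.conj_re, Complex.conj_im, Complex.neg_re, Complex.neg_im, Complex.ofReal_re,
    Complex.ofReal_im]
  set x1 := X.re
  set x2 := X.im
  set y1 := Y.re
  set y2 := Y.im
  have key : ∀ x y : ℝ, 0 ≤ 2 * (s * (1 - s)) * x ^ 2 - 2 * ρ * (1 - 2 * s) * (x * y) +
      q / 2 * (1 - 2 * s) ^ 2 * y ^ 2 := by
    intro x y
    have hss : 0 ≤ s * (1 - s) := mul_nonneg hs0 (by linarith)
    by_cases h0 : s * (1 - s) = 0
    · have hρ0 : ρ = 0 := by
        have : ρ ^ 2 = 0 := by rw [hρ, h0, zero_mul]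
        simpa using this
      rw [h0, hρ0]
      have : 0 ≤ q / 2 * (1 - 2 * s) ^ 2 * y ^ 2 := by positivity
      linarith
    · have hpos : 0 < s * (1 - s) := lt_of_le_of_ne hss (Ne.symm h0)
      have e : 2 * (s * (1 - s)) * (2 * (s * (1 - s)) * x ^ 2 - 2 * ρ * (1 - 2 * s) * (x * y) +
          q / 2 * (1 - 2 * s) ^ 2 * y ^ 2) =
          (2 * (s * (1 - s)) * x - ρ * (1 - 2 * s) * y) ^ 2 := by
        have : (2 * (s * (1 - s)) * x - ρ * (1 - 2 * s) * y) ^ 2 =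
            4 * (s * (1 - s)) ^ 2 * x ^ 2 - 4 * (s * (1 - s)) * ρ * (1 - 2 * s) * (x * y) +
            ρ ^ 2 * (1 - 2 * s) ^ 2 * y ^ 2 := by ring
        rw [this, hρ]
        ring
      by_contra hneg
      push Not at hneg
      have h2 := sq_nonneg (2 * (s * (1 - s)) * x - ρ * (1 - 2 * s) * y)
      rw [← e] at h2
      have h3 := mul_neg_of_pos_of_neg (by linarith : 0 < 2 * (s * (1 - s))) hneg
      linarith
  have h1 := key x1 y1
  have h2 := key x2 y2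
  have e : q / 2 * (y1 * y1 + y2 * y2) -
      (2 * (x1 * (-s * x1 - -0 * x2 + (ρ * y1 - 0 * y2)) - -x2 * (-s * x2 + -0 * x1 + (ρ * y2 + 0 * y1))) +
      2 * ((-s * x1 - -0 * x2 + (ρ * y1 - 0 * y2)) * (-s * x1 - -0 * x2 + (ρ * y1 - 0 * y2)) +
          (-s * x2 + -0 * x1 + (ρ * y2 + 0 * y1)) * (-s * x2 + -0 * x1 + (ρ * y2 + 0 * y1)))) =
      (2 * (s * (1 - s)) * x1 ^ 2 - 2 * ρ * (1 - 2 * s) * (x1 * y1) +
          q / 2 * (1 - 2 * s) ^ 2 * y1 ^ 2) +
      (2 * (s * (1 - s)) * x2 ^ 2 - 2 * ρ * (1 - 2 * s) * (x2 * y2) +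
          q / 2 * (1 - 2 * s) ^ 2 * y2 ^ 2) + 2 * (s * (1 - s) * q - ρ ^ 2) * (y1 ^ 2 + y2 ^ 2) := by
    ring
  have e' : 2 * (s * (1 - s) * q - ρ ^ 2) * (y1 ^ 2 + y2 ^ 2) = 0 := by rw [hρ]; ring
  linarith

theorem rot_bound {V' : Matrix (Fin n) (Fin n) ℂ} (hV' : Un V') {b β : Fin n → ℝ}
    (hb0 : ∀ j, 0 ≤ b j) (hb : ∀ j, b j ≤ β j) {a w : Fin n → ℂ} (ha : nq a = 1)
    (hw : nq w = 1) (hwa : star a ⬝ᵥ w = 0) (hBa : mk V' b *ᵥ a = 0) {s c s' : ℝ} (hs0 : 0 ≤ s)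
    (hs1 : s ≤ 1) (hcs : c ^ 2 + s' ^ 2 = 1) (hc1 : c ≤ 1)
    (hδ : ∀ j, qf (mk V' b) w * (1 - c) / 2 ≤ β j) :
    ∃ V'', Un V'' ∧ ∀ x, qf ((1 - s) • mk V' b +
      s • (Rot c s' w a * mk V' b * (Rot c s' w a)ᴴ)) x ≤ qf (mk V'' β) x := by
  classical
  have haw : star w ⬝ᵥ a = 0 := by rw [dot_conj a w, hwa, star_zero]
  set B := mk V' b with hB
  set H := mk V' (fun j => Real.sqrt (b j)) with hH
  have hHH : Hᴴ = H := mk_herm V' _
  have hH2 : H * H = B := by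
    rw [hH, mk_mul V' hV', hB]
    congr 1
    ext j
    exact Real.mul_self_sqrt (hb0 j)
  have hqB : ∀ x, qf B x = nq (H *ᵥ x) := by
    intro x; rw [← qf_GhG, hHH, hH2]
  have hHa : H *ᵥ a = 0 := by
    apply nq_eq_zero
    rw [← hqB]
    unfold qf
    rw [hBa]; simp
  set h := H *ᵥ w with hh
  set q := qf B w with hq
  have hqh : nq h = q := by rw [hq, hqB]
  have hq0 : 0 ≤ q := by rw [← hqh]; exact nq_nonneg _
  set ρ := Real.sqrt (s * (1 - s) * q) with hρ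
  have hρ2 : ρ ^ 2 = s * (1 - s) * q :=
    Real.sq_sqrt (mul_nonneg (mul_nonneg hs0 (by linarith)) hq0)
  set z : Fin n → ℂ := ((1 - c : ℝ) : ℂ) • w - (s' : ℂ) • a with hz
  have hah : star a ⬝ᵥ h = 0 := by
    rw [hh, ← hHH, ← star_mulVec_dot, hHa]; simp
  have hha : star h ⬝ᵥ a = 0 := by rw [dot_conj a h, hah, star_zero]
  have hhh : star h ⬝ᵥ h = (q : ℂ) := by rw [star_dot_self, hqh]
  have haa : star a ⬝ᵥ a = 1 := by rw [star_dot_self, ha]; simp
  have hww : star w ⬝ᵥ w = 1 := by rw [star_dot_self, hw]; simp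
  set bh := H *ᵥ h with hbh
  have hRz : ∀ y, R1 z y = ((1 - c : ℝ) : ℂ) • R1 w y - (s' : ℂ) • R1 a y := by
    intro y
    rw [hz]
    have : ∀ x x' y : Fin n → ℂ, R1 (x - x') y = R1 x y - R1 x' y := by
      intro x x' y
      unfold R1
      ext i j
      simp [vecMulVec_apply]
      ring
    rw [this, R1_smul_left, R1_smul_left]
  have hR1z : ∀ x : Fin n → ℂ, R1 x (0 : Fin n → ℂ) = 0 := by
    intro x; unfold R1; ext i j; simp [vecMulVec_apply]
  have hRH : Rot c s' w a * H = H - R1 z h := by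
    unfold Rot
    rw [add_mul, add_mul, one_mul, Matrix.smul_mul, Matrix.smul_mul, add_mul, sub_mul, R1_mul, R1_mul,
      R1_mul, R1_mul, hHH, hHa, hR1z, hR1z, hRz]
    rw [show ((c - 1 : ℝ) : ℂ) = -((1 - c : ℝ) : ℂ) by push_cast; ring]
    rw [add_zero, sub_zero, neg_smul]
    abel
  have hRBR : Rot c s' w a * B * (Rot c s' w a)ᴴ = B - (R1 bh z + R1 z bh) + (q : ℂ) • R1 z z := by
    have h1 : Rot c s' w a * B * (Rot c s' w a)ᴴ =
        (Rot c s' w a * H) * (Rot c s' w a * H)ᴴ := by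
      rw [conjTranspose_mul, hHH, ← hH2]
      simp only [Matrix.mul_assoc]
    rw [h1, hRH, conjTranspose_sub, hHH, R1_ct, sub_mul, mul_sub, mul_sub, hH2, mul_R1, R1_mul, hHH,
      R1_mul_R1, hhh, ← hbh]
    abel
  set G : Matrix (Fin n) (Fin n) ℂ := H - (s : ℂ) • R1 z h + (ρ : ℂ) • R1 z a with hG
  have hGct : Gᴴ = H - (s : ℂ) • R1 h z + (ρ : ℂ) • R1 a z := by
    rw [hG, conjTranspose_add, conjTranspose_sub, conjTranspose_smul, conjTranspose_smul, R1_ct,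
      R1_ct, hHH]
    simp only [Complex.star_def, Complex.conj_ofReal]
  have hGG : G * Gᴴ = B - (s : ℂ) • (R1 bh z + R1 z bh) + ((s * q : ℝ) : ℂ) • R1 z z := by
    have e1 : H * R1 h z = R1 bh z := by rw [mul_R1, ← hbh]
    have e2 : H * R1 a z = 0 := by
      rw [mul_R1, hHa]; unfold R1; ext i j; simp [vecMulVec_apply]
    have e3 : R1 z h * H = R1 z bh := by rw [R1_mul, hHH, ← hbh]
    have e4 : R1 z a * H = 0 := by rw [R1_mul, hHH, hHa, hR1z]
    have e5 : R1 z h * R1 h z = (q : ℂ) • R1 z z := by rw [R1_mul_R1, hhh]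
    have e6 : R1 z h * R1 a z = 0 := by rw [R1_mul_R1, hha, zero_smul]
    have e7 : R1 z a * R1 h z = 0 := by rw [R1_mul_R1, hah, zero_smul]
    have e8 : R1 z a * R1 a z = R1 z z := by rw [R1_mul_R1, haa, one_smul]
    have e9 : G * Gᴴ = H * H - (s : ℂ) • (H * R1 h z) + (ρ : ℂ) • (H * R1 a z)
        - (s : ℂ) • (R1 z h * H) + ((s : ℂ) * s) • (R1 z h * R1 h z)
        - ((ρ : ℂ) * s) • (R1 z h * R1 a z) + (ρ : ℂ) • (R1 z a * H)
        - ((s : ℂ) * ρ) • (R1 z a * R1 h z) + ((ρ : ℂ) * ρ) • (R1 z a * R1 a z) := by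
      rw [hGct, hG]
      simp only [sub_mul, add_mul, mul_add, mul_sub, Matrix.smul_mul, Matrix.mul_smul, smul_smul]
      abel
    rw [e9, e1, e2, e3, e4, e5, e6, e7, e8, hH2]
    have e10 : ((s : ℂ) * s) • (q : ℂ) • R1 z z + ((ρ : ℂ) * ρ) • R1 z z =
        ((s * q : ℝ) : ℂ) • R1 z z := by
      rw [smul_smul, ← add_smul]
      congr 1
      have : s * s * q + ρ * ρ = s * q := by nlinarith
      exact_mod_cast this
    rw [← e10, smul_add]
    simp only [smul_zero, add_zero, sub_zero]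
    abel
  have hmain : (1 - s) • B + s • (Rot c s' w a * B * (Rot c s' w a)ᴴ) = G * Gᴴ := by
    rw [hRBR, hGG]
    have r1 : ∀ (r : ℝ) (X : Matrix (Fin n) (Fin n) ℂ), r • X = (r : ℂ) • X := by
      intro r X; ext i j; simp
    rw [r1, r1]
    push_cast
    rw [smul_add, smul_sub, smul_smul, sub_smul, one_smul]
    abel
  -- the bound for `Gᴴ * G`
  have hzn : nq z = 2 * (1 - c) := by
    have e : z = (-(s' : ℂ)) • a + ((1 - c : ℝ) : ℂ) • w := by
      rw [hz, neg_smul]; abel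
    rw [e, nq_add_smul, hw]
    have e2 : nq (-(s' : ℂ) • a) = s' ^ 2 := by
      have h0 := nq_add_smul (0 : Fin n → ℂ) a (-(s' : ℂ))
      rw [zero_add] at h0
      rw [h0, ha]
      have : nq (0 : Fin n → ℂ) = 0 := by unfold nq; simp
      rw [this]
      simp
    have e3 : star (-(s' : ℂ) • a) ⬝ᵥ w = 0 := by
      rw [star_smul, smul_dotProduct, hwa, smul_zero]
    rw [e2, e3, Complex.norm_real, Real.norm_eq_abs, sq_abs]
    simp
    nlinarith
  have hHz : H *ᵥ z = ((1 - c : ℝ) : ℂ) • h := by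
    rw [hz, mulVec_sub, mulVec_smul, mulVec_smul, hHa, smul_zero, sub_zero]
  have hGx : ∀ x, qf (Gᴴ * G) x ≤ qf B x + q * (1 - c) / 2 * ‖star a ⬝ᵥ x‖ ^ 2 := by
    intro x
    set X := star h ⬝ᵥ x with hX
    set Y := star a ⬝ᵥ x with hY
    have e1 : G *ᵥ x = H *ᵥ x + (-(s : ℂ) * X + (ρ : ℂ) * Y) • z := by
      rw [hG, add_mulVec, sub_mulVec, smul_mulVec, smul_mulVec, R1_mulVec, R1_mulVec, ← hX, ← hY,
        smul_smul, smul_smul, add_smul, neg_mul, neg_smul]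
      abel
    have e2 : star (H *ᵥ x) ⬝ᵥ z = ((1 - c : ℝ) : ℂ) * (starRingEnd ℂ) X := by
      rw [star_mulVec_dot, hHH, hHz, dotProduct_smul, smul_eq_mul, dot_conj h x, ← hX,
        Complex.star_def]
    rw [qf_GhG, e1, nq_add_smul, e2, ← hqB, hzn]
    have h1 := scalar_bound s ρ q hq0 hs0 hs1 hρ2 X Y
    set T : ℂ := -(s : ℂ) * X + (ρ : ℂ) * Y with hT
    have e3 : (((1 - c : ℝ) : ℂ) * (starRingEnd ℂ) X * T).re = (1 - c) * ((starRingEnd ℂ) X * T).re := by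
      rw [mul_assoc, Complex.re_ofReal_mul]
    rw [e3]
    have h2 : 0 ≤ 1 - c := by linarith
    nlinarith
  have hY2 : ∀ x, ‖star a ⬝ᵥ x‖ ^ 2 ≤ ∑ j, (if b j = 0 then ‖(V'ᴴ *ᵥ x) j‖ ^ 2 else 0) := by
    intro x
    set y := V'ᴴ *ᵥ a with hy
    have hyn : nq y = 1 := by rw [hy, hV'.ct.nq, ha]
    have hy0 : ∀ j, b j ≠ 0 → y j = 0 := by
      intro j hj
      exact eig_zero hV' (hB : B = mk V' b) (ν := 0) (by rw [hBa]; simp) hj
    have e1 : star a ⬝ᵥ x = star y ⬝ᵥ (V'ᴴ *ᵥ x) := by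
      rw [← star_mulVec_dot, hy, mulVec_mulVec, hV'.right, one_mulVec]
    rw [e1]
    have h2 : ‖star y ⬝ᵥ (V'ᴴ *ᵥ x)‖ ≤ ∑ j, ‖y j‖ * (if b j = 0 then ‖(V'ᴴ *ᵥ x) j‖ else 0) := by
      unfold dotProduct
      refine (norm_sum_le _ _).trans (Finset.sum_le_sum fun j _ => ?_)
      rw [norm_mul, Pi.star_apply, norm_star]
      by_cases hj : b j = 0
      · simp [hj]
      · simp [hj, hy0 j hj]
    have h3 := Finset.sum_mul_sq_le_sq_mul_sq Finset.univ
      (fun j => ‖y j‖) (fun j => (if b j = 0 then ‖(V'ᴴ *ᵥ x) j‖ else 0))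
    have h4 : ∑ j, (if b j = 0 then ‖(V'ᴴ *ᵥ x) j‖ else 0) ^ 2 =
        ∑ j, (if b j = 0 then ‖(V'ᴴ *ᵥ x) j‖ ^ 2 else 0) := by
      apply Finset.sum_congr rfl
      intro j _
      split_ifs <;> simp
    have h5 : ∑ j, ‖y j‖ ^ 2 = 1 := by rw [← hyn]; unfold nq; rfl
    rw [h4, h5, one_mul] at h3
    refine le_trans ?_ h3
    have := norm_nonneg (star y ⬝ᵥ (V'ᴴ *ᵥ x))
    nlinarith
  have hup : ∀ x, qf (Gᴴ * G) x ≤ qf (mk V' (fun j => if b j = 0 then q * (1 - c) / 2 else b j)) x := by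
    intro x
    refine (hGx x).trans ?_
    rw [hB, qf_mk, qf_mk]
    have h1 : 0 ≤ q * (1 - c) / 2 := by
      have : 0 ≤ 1 - c := by linarith
      positivity
    have h2 := mul_le_mul_of_nonneg_left (hY2 x) h1
    refine (add_le_add_right h2 _).trans ?_
    rw [Finset.mul_sum, ← Finset.sum_add_distrib]
    apply Finset.sum_le_sum
    intro j _
    by_cases hj : b j = 0
    · simp [hj]
    · simp [hj]
  have hGhG : (Gᴴ * G).IsHermitian := isHermitian_conjTranspose_mul_self G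
  have hGGh : (G * Gᴴ).IsHermitian := isHermitian_mul_conjTranspose_self G
  have heig : hGhG.eigenvalues = hGGh.eigenvalues := by
    rw [IsHermitian.eigenvalues_eq_eigenvalues_iff]
    exact charpoly_mul_comm _ _
  obtain ⟨σ, hσ⟩ := perm_of_card hGhG.eigenvalues (fun j => if b j = 0 then q * (1 - c) / 2 else b j)
    (fun τ => card_le hV' (spectral hGhG).1 _ _ τ (fun z' hz' => by
      rw [← (spectral hGhG).2]
      refine (hup _).trans ?_
      rw [qf_mk_mulVec hV']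
      unfold nq
      rw [Finset.mul_sum]
      apply Finset.sum_le_sum
      intro j _
      by_cases hj : τ < (if b j = 0 then q * (1 - c) / 2 else b j)
      · rw [hz' j hj]; simp
      · exact mul_le_mul_of_nonneg_right (not_lt.mp hj) (sq_nonneg _)))
  refine ⟨(hGGh.eigenvectorUnitary : Matrix (Fin n) (Fin n) ℂ).submatrix id σ,
    Un_perm (spectral hGGh).1 σ, fun x => ?_⟩
  rw [hmain]
  have h1 : G * Gᴴ = mk ((hGGh.eigenvectorUnitary : Matrix (Fin n) (Fin n) ℂ).submatrix id σ)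
      (fun j => hGGh.eigenvalues (σ j)) := by
    rw [mk_perm]; exact (spectral hGGh).2
  refine (le_of_eq (congrArg (fun N => qf N x) h1)).trans ?_
  apply mk_mono
  intro j
  rw [← heig]
  refine (hσ j).trans ?_
  split_ifs with hj
  · exact hδ j
  · exact hb j

/-- the extremal argument: with `β > 0` the maximiser has `u = α` -/
theorem main_pos {C W : Matrix (Fin n) (Fin n) ℂ} (hW : Un W) {γ : Fin n → ℝ} (hC : C = mk W γ)
    {α β : Fin n → ℝ} (hαγ : ∀ j, α j ≤ γ j) (hβ : ∀ j, 0 < β j)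
    (h : ∃ U V u, Feas C α β U V u) :
    ∃ U V, Un U ∧ Un V ∧ (∀ x, 0 ≤ qf (C - mk U α) x) ∧
      (∀ x, qf (C - mk U α) x ≤ qf (mk V β) x) := by
  have hCh : C.IsHermitian := by rw [hC]; exact mk_herm W γ
  obtain ⟨U, V, u, hF, hmax⟩ := exists_max hCh h
  by_cases hall : ∀ i, u i = α i
  · have : u = α := funext hall
    subst this
    exact ⟨U, V, hF.hU, hF.hV, hF.lo, hF.hi⟩
  exfalso
  push Not at hall
  obtain ⟨i, hi'⟩ := hall
  have hi : u i < α i := lt_of_le_of_ne (hF.hu i) hi'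
  set B := C - mk U u with hB
  have hBh : B.IsHermitian := hCh.sub (mk_herm U u)
  have hE : ∀ a, mk U u *ᵥ a = (u i : ℂ) • a → B *ᵥ a = 0 := by
    intro a haA
    by_cases ha0 : a = 0
    · rw [ha0, mulVec_zero]
    have hpos : 0 < nq a := nq_pos ha0
    have hne : Real.sqrt (nq a) ≠ 0 := (Real.sqrt_pos.mpr hpos).ne'
    have e1 : nq ((((Real.sqrt (nq a))⁻¹ : ℝ) : ℂ) • a) = 1 := by
      have h0 := nq_add_smul (0 : Fin n → ℂ) a (((Real.sqrt (nq a))⁻¹ : ℝ) : ℂ)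
      rw [zero_add] at h0
      rw [h0]
      have : nq (0 : Fin n → ℂ) = 0 := by unfold nq; simp
      rw [this, Complex.norm_real, Real.norm_eq_abs, sq_abs, inv_pow, Real.sq_sqrt hpos.le]
      simp [hpos.ne']
    have h2 := step1 hCh hβ hF hmax hi e1 (by rw [mulVec_smul, haA, smul_comm])
    rw [mulVec_smul] at h2
    rcases smul_eq_zero.mp h2 with h' | h'
    · simp [hne] at h'
    · exact h'
  obtain ⟨s, hs0, hs1, w, hw, hMw, hBw, hEw⟩ := crossing hW hC hαγ hF.hU hF.hu hi hE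
  -- an eigenvector
  set a : Fin n → ℂ := U *ᵥ Pi.single i 1 with ha'
  have ha : nq a = 1 := by rw [ha', hF.hU.nq, nq_single]
  have hAa : mk U u *ᵥ a = (u i : ℂ) • a := by
    rw [ha', mk_mulVec hF.hU, ← mulVec_smul]
    congr 1
    ext j
    by_cases hj : j = i
    · subst hj; simp
    · simp [Pi.single_eq_of_ne hj]
  have hBa : B *ᵥ a = 0 := hE a hAa
  have hwa : star a ⬝ᵥ w = 0 := hEw a hAa
  clear_value a
  obtain ⟨V', b, hV', hb, hBmk⟩ := weyl_le hBh hF.hV β hF.hi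
  have hb0 : ∀ j, 0 ≤ b j := by
    intro j
    have h1 := hF.lo (V' *ᵥ Pi.single j 1)
    rwa [← hB, hBmk, qf_mk_col hV'] at h1
  -- `q > 0`
  have hq : 0 < qf B w := by
    have h1 : qf B w = ∑ j, b j * ‖(V'ᴴ *ᵥ w) j‖ ^ 2 := by rw [hBmk, qf_mk]
    rw [h1]
    have hnn : ∀ j ∈ (univ : Finset (Fin n)), 0 ≤ b j * ‖(V'ᴴ *ᵥ w) j‖ ^ 2 :=
      fun j _ => mul_nonneg (hb0 j) (sq_nonneg _)
    refine lt_of_le_of_ne (Finset.sum_nonneg hnn) (fun h0 => hBw ?_)
    have h2 := (Finset.sum_eq_zero_iff_of_nonneg hnn).mp h0.symm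
    have h3 : w = V' *ᵥ (V'ᴴ *ᵥ w) := by rw [mulVec_mulVec, hV'.right, one_mulVec]
    rw [← hB, hBmk, h3, mk_mulVec hV']
    have : (fun j => (b j : ℂ) * (V'ᴴ *ᵥ w) j) = 0 := by
      ext j
      rcases mul_eq_zero.mp (h2 j (Finset.mem_univ j)) with h4 | h4
      · simp [h4]
      · have : (V'ᴴ *ᵥ w) j = 0 := by simpa using h4
        simp [this]
    rw [this, mulVec_zero]
  -- small angle
  obtain ⟨c, s', hcs, hc1, hs'0, hδ⟩ : ∃ c s' : ℝ, c ^ 2 + s' ^ 2 = 1 ∧ c ≤ 1 ∧ s' ≠ 0 ∧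
      ∀ j, qf B w * (1 - c) / 2 ≤ β j := by
    have e1 : ∀ᶠ θ : ℝ in 𝓝[>] 0, ∀ j, qf B w * (1 - Real.cos θ) / 2 < β j := by
      rw [Filter.eventually_all]
      intro j
      apply (ContinuousAt.eventually_lt (f := fun θ : ℝ => qf B w * (1 - Real.cos θ) / 2)
        (g := fun _ => β j) (by fun_prop) (by fun_prop) (by simpa using hβ j)).filter_mono
          nhdsWithin_le_nhds
    have e2 : ∀ᶠ θ : ℝ in 𝓝[>] 0, θ ∈ Set.Ioo 0 Real.pi :=
      Ioo_mem_nhdsGT Real.pi_pos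
    obtain ⟨θ, h1, h2⟩ := (e1.and e2).exists
    refine ⟨Real.cos θ, Real.sin θ, by rw [add_comm]; exact Real.sin_sq_add_cos_sq θ,
      Real.cos_le_one θ, (Real.sin_pos_of_pos_of_lt_pi h2.1 h2.2).ne', fun j => (h1 j).le⟩
  set R := Rot c s' w a with hR
  have hRu : Un R := Rot_un hcs hw ha hwa
  set M := mk U u + s • B with hM
  have hMh : Mᴴ = M := by
    rw [hM, conjTranspose_add, conjTranspose_smul, hBh.eq, (mk_herm U u).eq]; simp
  have hMa : M *ᵥ a = (u i : ℂ) • a := by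
    rw [hM, add_mulVec, smul_mulVec, hBa, smul_zero, add_zero, hAa]
  have hRM : R * M = M * R := Rot_comm hMh hMw hMa
  have hRMR : R * M * Rᴴ = M := by rw [hRM, Matrix.mul_assoc, hRu.right, Matrix.mul_one]
  have hdiff : C - mk (R * U) u = (1 - s) • B + s • (R * B * Rᴴ) := by
    rw [mk_conj]
    have h1 : mk U u = M - s • B := by rw [hM]; abel
    have h2 : C = M + (1 - s) • B := by
      rw [hM, sub_smul, one_smul, hB]; abel
    have h3 : R * mk U u * Rᴴ = M - s • (R * B * Rᴴ) := by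
      rw [h1, mul_sub, sub_mul, hRMR, Matrix.mul_smul, Matrix.smul_mul]
    rw [h3]
    conv_lhs => rw [h2]
    abel
  obtain ⟨V'', hV'', hhi⟩ := rot_bound hV' hb0 hb ha hw hwa (by rw [← hBmk]; exact hBa) hs0.le
    hs1.le hcs hc1 (by rw [← hBmk]; exact hδ)
  have hqR : ∀ x, qf (C - mk (R * U) u) x = (1 - s) * qf B x + s * qf B (Rᴴ *ᵥ x) := by
    intro x
    rw [hdiff, qf_add, qf_smul, qf_smul, qf_conj]
  have hF' : Feas C α β (R * U) V'' u := by
    refine ⟨hRu.mul hF.hU, hV'', hF.hu, ?_, ?_⟩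
    · intro x
      rw [hqR]
      have h1 := hF.lo x
      have h2 := hF.lo (Rᴴ *ᵥ x)
      rw [← hB] at h1 h2
      have : 0 ≤ 1 - s := by linarith
      positivity
    · intro x
      rw [hdiff, hBmk]
      exact hhi x
  have hmax' : ∀ U' V' u', Feas C α β U' V' u' → ∑ i, u' i ≤ ∑ i, u i := hmax
  have hRa : nq (R *ᵥ a) = 1 := by rw [hRu.nq, ha]
  have hARa : mk (R * U) u *ᵥ (R *ᵥ a) = (u i : ℂ) • (R *ᵥ a) := by
    rw [mk_conj, mulVec_mulVec, Matrix.mul_assoc, hRu, Matrix.mul_one, ← mulVec_mulVec, hAa,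
      mulVec_smul]
  have h0 := step1 hCh hβ hF' hmax' hi hRa hARa
  have h1 : qf (C - mk (R * U) u) (R *ᵥ a) = 0 := by
    unfold qf; rw [h0]; simp
  rw [hqR, mulVec_mulVec, hRu, one_mulVec] at h1
  have h2 : qf B a = 0 := by unfold qf; rw [hBa]; simp
  rw [h2, mul_zero, add_zero] at h1
  have h3 : qf B (R *ᵥ a) = s' ^ 2 * qf B w := by
    rw [hR, Rot_mulVec_a ha hwa]
    have h4 : B *ᵥ ((c : ℂ) • a - (s' : ℂ) • w) = -((s' : ℂ) • (B *ᵥ w)) := by
      rw [mulVec_sub, mulVec_smul, mulVec_smul, hBa, smul_zero, zero_sub]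
    have h5 : star a ⬝ᵥ (B *ᵥ w) = 0 := by
      have : star (B *ᵥ a) ⬝ᵥ w = star a ⬝ᵥ (Bᴴ *ᵥ w) := star_mulVec_dot B a w
      rw [hBh.eq, hBa] at this
      rw [← this]; simp
    unfold qf
    rw [h4, star_sub, star_smul, star_smul, sub_dotProduct, smul_dotProduct, smul_dotProduct,
      dotProduct_neg, dotProduct_neg, dotProduct_smul, dotProduct_smul, h5]
    simp only [smul_eq_mul, mul_zero, neg_zero, zero_sub, Complex.star_def, Complex.conj_ofReal]
    have : (-(((s' : ℂ)) * -((s' : ℂ) * (star w ⬝ᵥ B *ᵥ w)))) =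
        ((s' ^ 2 : ℝ) : ℂ) * (star w ⬝ᵥ B *ᵥ w) := by push_cast; ring
    rw [this, Complex.re_ofReal_mul]
  rw [h3] at h1
  have h6 : 0 < (1 - s) * (s' ^ 2 * qf B w) := by
    have : 0 < 1 - s := by linarith
    have : 0 < s' ^ 2 := by positivity
    positivity
  linarith

end Pool.Agent.H259R3.UO
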