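import Pool.Agent.H259R3.UO7

set_option autoImplicit false

/-! Unitary orbits: limit `β ≥ 0`, Jensen type inequality, decomposition of `f(A + B)`. -/

open Matrix Finset Filter Topology
open scoped ComplexOrder

namespace Pool.Agent.H259R3.UO

variable {n : ℕ}

attribute [local irreducible] mk qf nq P1 R1 Rot

theorem qf_mk_add_const {V : Matrix (Fin n) (Fin n) ℂ} (hV : Un V) (β : Fin n → ℝ) (ε : ℝ)
    (x : Fin n → ℂ) : qf (mk V (fun j => β j + ε)) x = qf (mk V β) x + ε * nq x := by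
  rw [qf_mk, qf_mk, ← hV.ct.nq x]
  unfold nq
  rw [Finset.mul_sum, ← Finset.sum_add_distrib]
  apply Finset.sum_congr rfl
  intro j _
  ring

theorem starR {C W : Matrix (Fin n) (Fin n) ℂ} (hW : Un W) {γ : Fin n → ℝ} (hC : C = mk W γ)
    {α β : Fin n → ℝ} (hαγ : ∀ j, α j ≤ γ j) (hβ : ∀ j, 0 ≤ β j)
    (h : ∃ U V u, Feas C α β U V u) :
    ∃ U V, Un U ∧ Un V ∧ (∀ x, 0 ≤ qf (C - mk U α) x) ∧
      (∀ x, qf (C - mk U α) x ≤ qf (mk V β) x) := by
  obtain ⟨U0, V0, u0, hF⟩ := h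
  set F : ℕ → Set (Matrix (Fin n) (Fin n) ℂ × Matrix (Fin n) (Fin n) ℂ) := fun k =>
    {p | (Un p.1 ∧ Un p.2) ∧ (∀ x, 0 ≤ qf (C - mk p.1 α) x) ∧
      (∀ x, qf (C - mk p.1 α) x ≤ qf (mk p.2 (fun j => β j + 1 / ((k : ℝ) + 1))) x)} with hFdef
  have hpos : ∀ k : ℕ, 0 < 1 / ((k : ℝ) + 1) := fun k => by positivity
  have hne : ∀ k, (F k).Nonempty := by
    intro k
    have hF' : Feas C α (fun j => β j + 1 / ((k : ℝ) + 1)) U0 V0 u0 := by
      refine ⟨hF.hU, hF.hV, hF.hu, hF.lo, fun x => (hF.hi x).trans (mk_mono (fun j => ?_) x)⟩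
      have := hpos k
      linarith
    obtain ⟨U, V, hU, hV, h1, h2⟩ := main_pos hW hC hαγ
      (β := fun j => β j + 1 / ((k : ℝ) + 1)) (fun j => by have := hpos k; have := hβ j; linarith)
      ⟨U0, V0, u0, hF'⟩
    exact ⟨(U, V), ⟨hU, hV⟩, h1, h2⟩
  have hmono : ∀ k, F (k + 1) ⊆ F k := by
    intro k p hp
    refine ⟨hp.1, hp.2.1, fun x => (hp.2.2 x).trans (mk_mono (fun j => ?_) x)⟩
    have : 1 / (((k + 1 : ℕ) : ℝ) + 1) ≤ 1 / ((k : ℝ) + 1) := by
      apply one_div_le_one_div_of_le (by positivity)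
      push_cast; linarith
    linarith
  have hclosed : ∀ k, IsClosed (F k) := by
    intro k
    have e : F k = ({p | Un p.1} ∩ {p | Un p.2}) ∩
          ({p | ∀ x, 0 ≤ qf (C - mk p.1 α) x} ∩
          {p | ∀ x, qf (C - mk p.1 α) x ≤ qf (mk p.2 (fun j => β j + 1 / ((k : ℝ) + 1))) x}) := by
      ext p
      rfl
    rw [e]
    have c1' : Continuous fun p : Matrix (Fin n) (Fin n) ℂ × Matrix (Fin n) (Fin n) ℂ =>
        (p.1, α) := by fun_prop
    have c1 : Continuous fun p : Matrix (Fin n) (Fin n) ℂ × Matrix (Fin n) (Fin n) ℂ =>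
        C - mk p.1 α := continuous_const.sub (Continuous.comp continuous_mk c1')
    have c2' : Continuous fun p : Matrix (Fin n) (Fin n) ℂ × Matrix (Fin n) (Fin n) ℂ =>
        (p.2, (fun j => β j + 1 / ((k : ℝ) + 1))) := by fun_prop
    have c2 : Continuous fun p : Matrix (Fin n) (Fin n) ℂ × Matrix (Fin n) (Fin n) ℂ =>
        mk p.2 (fun j => β j + 1 / ((k : ℝ) + 1)) := Continuous.comp continuous_mk c2'
    refine (IsClosed.inter ?_ ?_).inter (IsClosed.inter ?_ ?_)
    · unfold Un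
      apply isClosed_eq
      · exact (Continuous.matrix_conjTranspose continuous_fst).matrix_mul continuous_fst
      · exact continuous_const
    · unfold Un
      apply isClosed_eq
      · exact (Continuous.matrix_conjTranspose continuous_snd).matrix_mul continuous_snd
      · exact continuous_const
    · rw [Set.ofPred_forall]
      apply isClosed_iInter
      intro x
      exact isClosed_le continuous_const ((continuous_qf x).comp c1)
    · rw [Set.ofPred_forall]
      apply isClosed_iInter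
      intro x
      exact isClosed_le ((continuous_qf x).comp c1) ((continuous_qf x).comp c2)
  have hcomp : IsCompact (F 0) := by
    have hc : IsCompact ({U : Matrix (Fin n) (Fin n) ℂ | Un U} ×ˢ
        {V : Matrix (Fin n) (Fin n) ℂ | Un V}) := isCompact_Un.prod isCompact_Un
    apply hc.of_isClosed_subset (hclosed 0)
    intro p hp
    exact ⟨hp.1.1, hp.1.2⟩
  obtain ⟨p, hp⟩ := IsCompact.nonempty_iInter_of_sequence_nonempty_isCompact_isClosed F hmono hne
    hcomp hclosed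
  rw [Set.mem_iInter] at hp
  refine ⟨p.1, p.2, (hp 0).1.1, (hp 0).1.2, (hp 0).2.1, fun x => ?_⟩
  have h1 : ∀ k : ℕ, qf (C - mk p.1 α) x ≤ qf (mk p.2 β) x + 1 / ((k : ℝ) + 1) * nq x := by
    intro k
    have := (hp k).2.2 x
    rwa [qf_mk_add_const (hp 0).1.2] at this
  have h2 : Tendsto (fun k : ℕ => qf (mk p.2 β) x + 1 / ((k : ℝ) + 1) * nq x) atTop
      (𝓝 (qf (mk p.2 β) x + 0 * nq x)) := by
    apply Tendsto.const_add
    apply Tendsto.mul_const
    exact tendsto_one_div_add_atTop_nhds_zero_nat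
  rw [zero_mul, add_zero] at h2
  exact ge_of_tendsto' h2 h1

theorem norm_dot_sq_le (x y : Fin n → ℂ) : ‖star x ⬝ᵥ y‖ ^ 2 ≤ nq x * nq y := by
  have h2 : ‖star x ⬝ᵥ y‖ ≤ ∑ j, ‖x j‖ * ‖y j‖ := by
    unfold dotProduct
    refine (norm_sum_le _ _).trans (Finset.sum_le_sum fun j _ => ?_)
    rw [norm_mul, Pi.star_apply, norm_star]
  have h3 := Finset.sum_mul_sq_le_sq_mul_sq Finset.univ (fun j => ‖x j‖) (fun j => ‖y j‖)
  unfold nq
  refine le_trans ?_ h3
  have := norm_nonneg (star x ⬝ᵥ y)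
  nlinarith

theorem contr_ct {X : Matrix (Fin n) (Fin n) ℂ} (hX : ∀ v, nq (X *ᵥ v) ≤ nq v) (x : Fin n → ℂ) :
    nq (Xᴴ *ᵥ x) ≤ nq x := by
  set y := Xᴴ *ᵥ x with hy
  have h1 : (nq y : ℂ) = star (X *ᵥ y) ⬝ᵥ x := by
    rw [star_mulVec_dot X y x, ← hy, star_dot_self]
  have h2 : nq y ^ 2 ≤ nq (X *ᵥ y) * nq x := by
    have := norm_dot_sq_le (X *ᵥ y) x
    rw [← h1, Complex.norm_real, Real.norm_eq_abs, sq_abs] at this
    exact this
  have h3 := hX y
  have h4 := nq_nonneg y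
  have h5 := nq_nonneg x
  by_contra hc
  push Not at hc
  nlinarith

/-- Jensen type inequality -/
theorem jensen {f : ℝ → ℝ} (hf : ConcaveOn ℝ (Set.Ici 0) f) (hf0 : 0 ≤ f 0)
    {E : Matrix (Fin n) (Fin n) ℂ} (hE : Un E) {τ : Fin n → ℝ} (hτ : ∀ j, 0 ≤ τ j)
    {y : Fin n → ℂ} {r : ℝ} (hr : 0 < r) (hy : nq y ≤ r) :
    qf (mk E (fun j => f (τ j))) y ≤ r * f (qf (mk E τ) y / r) := by
  set v := Eᴴ *ᵥ y with hv
  have hvn : nq v = nq y := hE.ct.nq y
  rw [qf_mk, qf_mk, ← hv]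
  have hsum : ∑ j, ‖v j‖ ^ 2 / r ≤ 1 := by
    rw [← Finset.sum_div, div_le_one hr]
    have : ∑ j, ‖v j‖ ^ 2 = nq v := by unfold nq; rfl
    rw [this, hvn]; exact hy
  have h1 := hf.le_map_sum (t := (univ : Finset (Option (Fin n))))
    (w := fun o => match o with | none => 1 - ∑ j, ‖v j‖ ^ 2 / r | some j => ‖v j‖ ^ 2 / r)
    (p := fun o => match o with | none => 0 | some j => τ j)
    (by
      intro o _
      cases o with
      | none => simp only; linarith
      | some j => simp only; positivity)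
    (by rw [Fintype.sum_option]; simp)
    (by
      intro o _
      cases o with
      | none => simp
      | some j => exact hτ j)
  rw [Fintype.sum_option, Fintype.sum_option] at h1
  simp only [smul_eq_mul, mul_zero, zero_add] at h1
  have h2 : 0 ≤ (1 - ∑ j, ‖v j‖ ^ 2 / r) * f 0 := mul_nonneg (by linarith) hf0
  have h3 : ∑ j, ‖v j‖ ^ 2 / r * f (τ j) = (∑ j, f (τ j) * ‖v j‖ ^ 2) / r := by
    rw [Finset.sum_div]
    apply Finset.sum_congr rfl
    intro j _; ring
  have h4 : ∑ j, ‖v j‖ ^ 2 / r * τ j = (∑ j, τ j * ‖v j‖ ^ 2) / r := by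
    rw [Finset.sum_div]
    apply Finset.sum_congr rfl
    intro j _; ring
  rw [h3, h4] at h1
  have h5 : (∑ j, f (τ j) * ‖v j‖ ^ 2) / r ≤ f ((∑ j, τ j * ‖v j‖ ^ 2) / r) := by linarith
  rw [div_le_iff₀ hr] at h5
  linarith

/-- spectral bound for `F Xᴴ X F` -/
theorem part_bound {f : ℝ → ℝ} (hf : ConcaveOn ℝ (Set.Ici 0) f) (hfm : MonotoneOn f (Set.Ici 0))
    (hf0 : 0 ≤ f 0) {E : Matrix (Fin n) (Fin n) ℂ} (hE : Un E) {τ : Fin n → ℝ}
    (hτ : ∀ j, 0 ≤ τ j) {UA : Matrix (Fin n) (Fin n) ℂ} (hUA : Un UA) {a : Fin n → ℝ}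
    (ha : ∀ j, 0 ≤ a j) {X : Matrix (Fin n) (Fin n) ℂ} (hX : ∀ v, nq (X *ᵥ v) ≤ nq v)
    (hXT : X * mk E τ * Xᴴ = mk UA a) :
    ∃ U u, Un U ∧ (∀ j, u j ≤ f (a j)) ∧
      mk E (fun j => Real.sqrt (f (τ j))) * (Xᴴ * X) * mk E (fun j => Real.sqrt (f (τ j))) =
        mk U u := by
  have hfnn : ∀ x, 0 ≤ x → 0 ≤ f x := fun x hx =>
    hf0.trans (hfm (Set.mem_Ici.mpr le_rfl) (Set.mem_Ici.mpr hx) hx)
  set F := mk E (fun j => Real.sqrt (f (τ j))) with hF
  have hFF : Fᴴ = F := mk_herm E _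
  have hF2 : F * F = mk E (fun j => f (τ j)) := by
    rw [hF, mk_mul E hE]
    congr 1
    ext j
    exact Real.mul_self_sqrt (hfnn _ (hτ j))
  set G := X * F with hG
  have hGhG : (Gᴴ * G).IsHermitian := isHermitian_conjTranspose_mul_self G
  have hGGh : (G * Gᴴ).IsHermitian := isHermitian_mul_conjTranspose_self G
  have heig : hGGh.eigenvalues = hGhG.eigenvalues := by
    rw [IsHermitian.eigenvalues_eq_eigenvalues_iff]
    exact charpoly_mul_comm _ _
  have hGG : G * Gᴴ = X * mk E (fun j => f (τ j)) * Xᴴ := by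
    rw [hG, conjTranspose_mul, hFF, ← hF2]
    simp only [Matrix.mul_assoc]
  have hP : F * (Xᴴ * X) * F = Gᴴ * G := by
    rw [hG, conjTranspose_mul, hFF]
    simp only [Matrix.mul_assoc]
  obtain ⟨σ, hσ⟩ := perm_of_card hGGh.eigenvalues (fun j => f (a j))
    (fun t => card_le hUA (spectral hGGh).1 _ _ t (fun z hz => by
      rw [← (spectral hGGh).2, hGG, qf_conj]
      by_cases hz0 : z = 0
      · subst hz0
        have : nq (0 : Fin n → ℂ) = 0 := by unfold nq; simp
        rw [this]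
        unfold qf; simp
      have hr : 0 < nq (UA *ᵥ z) := by rw [hUA.nq]; exact nq_pos hz0
      refine (jensen hf hf0 hE hτ hr (contr_ct hX (UA *ᵥ z))).trans ?_
      rw [← qf_conj, hXT, qf_mk_mulVec hUA, hUA.nq, mul_comm]
      apply mul_le_mul_of_nonneg_right _ (nq_nonneg z)
      -- the largest `a j` in the support
      obtain ⟨j1, hj1⟩ : ∃ j, z j ≠ 0 := by
        by_contra hc'
        push Not at hc'
        exact hz0 (funext hc')
      obtain ⟨j0, hj0, hmax⟩ := Finset.exists_max_image (univ.filter (fun j => z j ≠ 0)) a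
        ⟨j1, by simp [hj1]⟩
      rw [Finset.mem_filter] at hj0
      have h1 : (∑ i, a i * ‖z i‖ ^ 2) / nq z ≤ a j0 := by
        rw [div_le_iff₀ (nq_pos hz0)]
        unfold nq
        rw [Finset.mul_sum]
        apply Finset.sum_le_sum
        intro i _
        by_cases hi : z i = 0
        · simp [hi]
        · exact mul_le_mul_of_nonneg_right (hmax i (by simp [hi])) (sq_nonneg _)
      have h2 : 0 ≤ (∑ i, a i * ‖z i‖ ^ 2) / nq z :=
        div_nonneg (Finset.sum_nonneg fun i _ => mul_nonneg (ha i) (sq_nonneg _)) (nq_nonneg _)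
      refine (hfm (Set.mem_Ici.mpr h2) (Set.mem_Ici.mpr (ha j0)) h1).trans ?_
      by_contra hc
      push Not at hc
      exact hj0.2 (hz j0 hc)))
  refine ⟨(hGhG.eigenvectorUnitary : Matrix (Fin n) (Fin n) ℂ).submatrix id σ,
    fun j => hGhG.eigenvalues (σ j), Un_perm (spectral hGhG).1 σ, fun j => ?_, ?_⟩
  · rw [← heig]; exact hσ j
  · rw [hP, mk_perm]; exact (spectral hGhG).2

theorem eq_zero_of_mulVec {M : Matrix (Fin n) (Fin n) ℂ} (h : ∀ x, M *ᵥ x = 0) : M = 0 := by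
  ext i j
  have := congrFun (h (Pi.single j 1)) i
  simpa using this

/-- the decomposition of `f(A + B)` -/
theorem decomp {f : ℝ → ℝ} (hf : ConcaveOn ℝ (Set.Ici 0) f) (hfm : MonotoneOn f (Set.Ici 0))
    (hf0 : 0 ≤ f 0) {E : Matrix (Fin n) (Fin n) ℂ} (hE : Un E) {τ : Fin n → ℝ}
    (hτ : ∀ j, 0 ≤ τ j) {UA UB : Matrix (Fin n) (Fin n) ℂ} (hUA : Un UA) (hUB : Un UB)
    {a b : Fin n → ℝ} (ha : ∀ j, 0 ≤ a j) (hb : ∀ j, 0 ≤ b j)
    (hsum : mk UA a + mk UB b = mk E τ) :
    ∃ U V u, Feas (mk E (fun j => f (τ j))) (fun j => f (a j)) (fun j => f (b j)) U V u := by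
  classical
  have hfnn : ∀ x, 0 ≤ x → 0 ≤ f x := fun x hx =>
    hf0.trans (hfm (Set.mem_Ici.mpr le_rfl) (Set.mem_Ici.mpr hx) hx)
  set N := mk E (fun j => if τ j = 0 then (1 : ℝ) else 0) with hN
  set D := mk E (fun j => (Real.sqrt (τ j))⁻¹) with hD
  set T := mk E τ with hT
  set HA := mk UA (fun j => Real.sqrt (a j)) with hHA
  set HB := mk UB (fun j => Real.sqrt (b j)) with hHB
  have hone : (1 : Matrix (Fin n) (Fin n) ℂ) = mk E (fun _ => 1) := by
    unfold mk
    have : (diagonal (fun _ : Fin n => ((1 : ℝ) : ℂ))) = (1 : Matrix (Fin n) (Fin n) ℂ) := by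
      simp
    rw [this, Matrix.mul_one, hE.right]
  have hNN : Nᴴ = N := mk_herm E _
  have hDD : Dᴴ = D := mk_herm E _
  have hHAA : HAᴴ = HA := mk_herm UA _
  have hHBB : HBᴴ = HB := mk_herm UB _
  have hN2 : N * N = N := by
    rw [hN, mk_mul E hE]
    congr 1
    ext j
    split_ifs <;> simp
  have hDTD : D * T * D = 1 - N := by
    rw [hD, hT, hN, mk_mul E hE, mk_mul E hE, hone]
    have : ∀ u v : Fin n → ℝ, mk E u - mk E v = mk E (fun j => u j - v j) := by
      intro u v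
      unfold mk
      rw [← sub_mul, ← mul_sub, diagonal_sub]
      congr 3
      ext j
      push_cast; rfl
    rw [this]
    congr 1
    ext j
    by_cases hj : τ j = 0
    · simp [hj]
    · have hpos : 0 < τ j := lt_of_le_of_ne (hτ j) (Ne.symm hj)
      have hs : Real.sqrt (τ j) ≠ 0 := (Real.sqrt_pos.mpr hpos).ne'
      have h2 := Real.mul_self_sqrt (hτ j)
      simp only [hj, if_false, sub_zero]
      field_simp
      nlinarith
  have hNT : N * T = 0 := by
    rw [hN, hT, mk_mul E hE]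
    have : (fun j => (if τ j = 0 then (1 : ℝ) else 0) * τ j) = fun _ => 0 := by
      ext j
      split_ifs with h
      · rw [h]; simp
      · simp
    rw [this]
    unfold mk; simp
  have hHA2 : HA * HA = mk UA a := by
    rw [hHA, mk_mul UA hUA]
    congr 1
    ext j
    exact Real.mul_self_sqrt (ha j)
  have hHB2 : HB * HB = mk UB b := by
    rw [hHB, mk_mul UB hUB]
    congr 1
    ext j
    exact Real.mul_self_sqrt (hb j)
  have hqA : ∀ x, qf (mk UA a) x = nq (HA *ᵥ x) := by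
    intro x; rw [← qf_GhG, hHAA, hHA2]
  have hqB : ∀ x, qf (mk UB b) x = nq (HB *ᵥ x) := by
    intro x; rw [← qf_GhG, hHBB, hHB2]
  have hTN : ∀ x, qf T (N *ᵥ x) = 0 := by
    intro x
    have h1 : T * N = 0 := by
      have := congrArg conjTranspose hNT
      rw [conjTranspose_mul, hNN, (mk_herm E τ).eq] at this
      simpa using this
    unfold qf
    rw [mulVec_mulVec, h1]; simp
  have hAN : HA * N = 0 := by
    apply eq_zero_of_mulVec
    intro x
    rw [← mulVec_mulVec]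
    apply nq_eq_zero
    have h1 := hTN x
    rw [← hsum, qf_add, hqA, hqB] at h1
    have h2 := nq_nonneg (HA *ᵥ (N *ᵥ x))
    have h3 := nq_nonneg (HB *ᵥ (N *ᵥ x))
    linarith
  have hBN : HB * N = 0 := by
    apply eq_zero_of_mulVec
    intro x
    rw [← mulVec_mulVec]
    apply nq_eq_zero
    have h1 := hTN x
    rw [← hsum, qf_add, hqA, hqB] at h1
    have h2 := nq_nonneg (HA *ᵥ (N *ᵥ x))
    have h3 := nq_nonneg (HB *ᵥ (N *ᵥ x))
    linarith
  have hNA : N * HA = 0 := by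
    have := congrArg conjTranspose hAN
    rw [conjTranspose_mul, hNN, hHAA] at this
    simpa using this
  have hTN' : T * N = 0 := by
    have := congrArg conjTranspose hNT
    rw [conjTranspose_mul, hNN, (mk_herm E τ).eq] at this
    simpa using this
  set X := HA * D + N with hX
  set Y := HB * D with hY
  have hXct : Xᴴ = D * HA + N := by
    rw [hX, conjTranspose_add, conjTranspose_mul, hDD, hHAA, hNN]
  have hYct : Yᴴ = D * HB := by
    rw [hY, conjTranspose_mul, hDD, hHBB]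
  have hXX : Xᴴ * X + Yᴴ * Y = 1 := by
    have e1 : Xᴴ * X = D * (HA * HA) * D + N := by
      rw [hXct, hX, add_mul, mul_add, mul_add, hN2]
      have t1 : D * HA * N = 0 := by rw [Matrix.mul_assoc, hAN, Matrix.mul_zero]
      have t2 : N * (HA * D) = 0 := by rw [← Matrix.mul_assoc, hNA, Matrix.zero_mul]
      rw [t1, t2, add_zero, zero_add]
      simp only [Matrix.mul_assoc]
    have e2 : Yᴴ * Y = D * (HB * HB) * D := by
      rw [hYct, hY]
      simp only [Matrix.mul_assoc]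
    rw [e1, e2, hHA2, hHB2]
    have e3 : D * mk UA a * D + N + D * mk UB b * D = D * (mk UA a + mk UB b) * D + N := by
      rw [mul_add, add_mul]; abel
    rw [e3, hsum, hDTD]
    abel
  have hXc : ∀ v, nq (X *ᵥ v) ≤ nq v := by
    intro v
    have h1 : nq (X *ᵥ v) + nq (Y *ᵥ v) = nq v := by
      rw [← qf_GhG, ← qf_GhG, ← qf_add, hXX]
      rw [nq_eq]; unfold qf; rw [one_mulVec]
    have h2 := nq_nonneg (Y *ᵥ v)
    linarith
  have hYc : ∀ v, nq (Y *ᵥ v) ≤ nq v := by
    intro v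
    have h1 : nq (X *ᵥ v) + nq (Y *ᵥ v) = nq v := by
      rw [← qf_GhG, ← qf_GhG, ← qf_add, hXX]
      rw [nq_eq]; unfold qf; rw [one_mulVec]
    have h2 := nq_nonneg (X *ᵥ v)
    linarith
  have hXT : X * T * Xᴴ = mk UA a := by
    have e1 : X * T = HA * D * T := by rw [hX, add_mul, hNT, add_zero]
    have e2 : HA * D * T * Xᴴ = HA * (D * T * D) * HA := by
      rw [hXct, mul_add]
      have : HA * D * T * N = 0 := by rw [Matrix.mul_assoc, hTN', Matrix.mul_zero]
      rw [this, add_zero]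
      simp only [Matrix.mul_assoc]
    rw [e1, e2, hDTD, mul_sub, sub_mul, Matrix.mul_one, hAN, Matrix.zero_mul, sub_zero, hHA2]
  have hYT : Y * T * Yᴴ = mk UB b := by
    have e2 : Y * T * Yᴴ = HB * (D * T * D) * HB := by
      rw [hYct, hY]
      simp only [Matrix.mul_assoc]
    rw [e2, hDTD, mul_sub, sub_mul, Matrix.mul_one, hBN, Matrix.zero_mul, sub_zero, hHB2]
  obtain ⟨U, u, hU, hu, hPu⟩ := part_bound hf hfm hf0 hE hτ hUA ha hXc hXT
  obtain ⟨V, v, hV, hv, hQv⟩ := part_bound hf hfm hf0 hE hτ hUB hb hYc hYT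
  set F := mk E (fun j => Real.sqrt (f (τ j))) with hF
  have hFF : Fᴴ = F := mk_herm E _
  have hF2 : F * F = mk E (fun j => f (τ j)) := by
    rw [hF, mk_mul E hE]
    congr 1
    ext j
    exact Real.mul_self_sqrt (hfnn _ (hτ j))
  have hdiff : mk E (fun j => f (τ j)) - mk U u = mk V v := by
    rw [← hPu, ← hQv, ← hF2, sub_eq_iff_eq_add]
    have : F * F = F * (Xᴴ * X + Yᴴ * Y) * F := by rw [hXX, Matrix.mul_one]
    rw [this, mul_add, add_mul]
    abel
  refine ⟨U, V, u, hU, hV, hu, ?_, ?_⟩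
  · intro x
    rw [hdiff, ← hQv]
    have h0 : (Y * F)ᴴ = F * Yᴴ := by
      rw [conjTranspose_mul Y F, hFF]
    have : F * (Yᴴ * Y) * F = (Y * F)ᴴ * (Y * F) := by
      rw [h0]
      simp only [Matrix.mul_assoc]
    rw [this, qf_GhG]
    exact nq_nonneg _
  · intro x
    rw [hdiff]
    exact mk_mono hv x

theorem mk_fun_eq {U V : Matrix (Fin n) (Fin n) ℂ} (hU : Un U) (hV : Un V) {a b : Fin n → ℝ}
    (h : mk U a = mk V b) (f : ℝ → ℝ) : mk U (fun j => f (a j)) = mk V (fun j => f (b j)) := by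
  set X := Vᴴ * U with hX
  have h1 : X * diagonal (fun j => (a j : ℂ)) = diagonal (fun j => (b j : ℂ)) * X := by
    have h2 : Vᴴ * mk U a * U = Vᴴ * mk V b * U := by rw [h]
    unfold mk at h2
    have e1 : Vᴴ * (U * diagonal (fun j => (a j : ℂ)) * Uᴴ) * U = X * diagonal (fun j => (a j : ℂ)) := by
      calc Vᴴ * (U * diagonal (fun j => (a j : ℂ)) * Uᴴ) * U
          = Vᴴ * U * diagonal (fun j => (a j : ℂ)) * (Uᴴ * U) := by simp only [Matrix.mul_assoc]
        _ = _ := by rw [hU, Matrix.mul_one]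
    have e2 : Vᴴ * (V * diagonal (fun j => (b j : ℂ)) * Vᴴ) * U = diagonal (fun j => (b j : ℂ)) * X := by
      calc Vᴴ * (V * diagonal (fun j => (b j : ℂ)) * Vᴴ) * U
          = (Vᴴ * V) * diagonal (fun j => (b j : ℂ)) * (Vᴴ * U) := by simp only [Matrix.mul_assoc]
        _ = _ := by rw [hV, Matrix.one_mul]
    rw [e1, e2] at h2
    exact h2
  have h3 : X * diagonal (fun j => (f (a j) : ℂ)) = diagonal (fun j => (f (b j) : ℂ)) * X := by
    ext i j
    have h4 := congrFun (congrFun h1 i) j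
    rw [mul_diagonal, diagonal_mul] at h4 ⊢
    by_cases hx : X i j = 0
    · simp [hx]
    · have h5 : (a j : ℂ) = (b i : ℂ) := by
        apply mul_left_cancel₀ hx
        rw [h4]; ring
      have h6 : a j = b i := by exact_mod_cast h5
      rw [h6]; ring
  have h7 : mk U (fun j => f (a j)) = V * (X * diagonal (fun j => (f (a j) : ℂ))) * Uᴴ := by
    unfold mk
    rw [hX]
    calc U * diagonal (fun j => (f (a j) : ℂ)) * Uᴴ
        = (V * Vᴴ) * U * diagonal (fun j => (f (a j) : ℂ)) * Uᴴ := by rw [hV.right, Matrix.one_mul]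
      _ = _ := by simp only [Matrix.mul_assoc]
  have h8 : mk V (fun j => f (b j)) = V * (diagonal (fun j => (f (b j) : ℂ)) * X) * Uᴴ := by
    unfold mk
    rw [hX]
    calc V * diagonal (fun j => (f (b j) : ℂ)) * Vᴴ
        = V * diagonal (fun j => (f (b j) : ℂ)) * Vᴴ * (U * Uᴴ) := by
          rw [hU.right, Matrix.mul_one]
      _ = _ := by simp only [Matrix.mul_assoc]
  rw [h7, h8, h3]

end Pool.Agent.H259R3.UO
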