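import Pool.Agent.H259R3.UO8

set_option autoImplicit false

/-! Unitary orbits: the final statement in spectral form. -/

open Matrix
open scoped ComplexOrder

namespace Pool.Agent.H259R3.UO

variable {n : ℕ}

theorem final {f : ℝ → ℝ} (hf : ConcaveOn ℝ (Set.Ici 0) f) (hfm : MonotoneOn f (Set.Ici 0))
    (hf0 : 0 ≤ f 0) {E EA EB : Matrix (Fin n) (Fin n) ℂ} (hE : Un E) (hEA : Un EA) (hEB : Un EB)
    {τ α β : Fin n → ℝ} (hτ : ∀ j, 0 ≤ τ j) (hα : ∀ j, 0 ≤ α j) (hβ : ∀ j, 0 ≤ β j)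
    (hsum : mk EA α + mk EB β = mk E τ) :
    ∃ U V, Un U ∧ Un V ∧
      (∀ x, 0 ≤ qf (mk E (fun j => f (τ j)) - U * mk EA (fun j => f (α j)) * Uᴴ) x) ∧
      (∀ x, qf (mk E (fun j => f (τ j)) - U * mk EA (fun j => f (α j)) * Uᴴ) x ≤
        qf (V * mk EB (fun j => f (β j)) * Vᴴ) x) := by
  have hfnn : ∀ x, 0 ≤ x → 0 ≤ f x := fun x hx =>
    hf0.trans (hfm (Set.mem_Ici.mpr le_rfl) (Set.mem_Ici.mpr hx) hx)
  have hle : ∀ x, qf (mk EA α) x ≤ qf (mk E τ) x := by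
    intro x
    rw [← hsum, qf_add]
    have : 0 ≤ qf (mk EB β) x := by
      rw [qf_mk]
      exact Finset.sum_nonneg fun i _ => mul_nonneg (hβ i) (sq_nonneg _)
    linarith
  obtain ⟨UA, a, hUA, haτ, hAmk⟩ := weyl_le (mk_herm EA α) hE τ hle
  have ha : ∀ j, 0 ≤ a j := by
    intro j
    rw [← qf_mk_col hUA a j, ← hAmk, qf_mk]
    exact Finset.sum_nonneg fun i _ => mul_nonneg (hα i) (sq_nonneg _)
  have hsum' : mk UA a + mk EB β = mk E τ := by rw [← hAmk, hsum]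
  obtain ⟨U0, V0, hU0, hV0, h1, h2⟩ := starR hE rfl
    (fun j => hfm (Set.mem_Ici.mpr (ha j)) (Set.mem_Ici.mpr (hτ j)) (haτ j))
    (fun j => hfnn _ (hβ j)) (decomp hf hfm hf0 hE hτ hUA hEB ha hβ hsum')
  have hconv : ∀ (W Z : Matrix (Fin n) (Fin n) ℂ) (w : Fin n → ℝ), Un Z →
      (W * Zᴴ) * mk Z w * (W * Zᴴ)ᴴ = mk W w := by
    intro W Z w hZ
    unfold mk
    rw [conjTranspose_mul, conjTranspose_conjTranspose]
    calc W * Zᴴ * (Z * diagonal (fun i => (w i : ℂ)) * Zᴴ) * (Z * Wᴴ)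
        = W * (Zᴴ * Z) * diagonal (fun i => (w i : ℂ)) * (Zᴴ * Z) * Wᴴ := by
          simp only [Matrix.mul_assoc]
      _ = _ := by rw [hZ, Matrix.mul_one, Matrix.mul_one]
  refine ⟨U0 * UAᴴ, V0 * EBᴴ, hU0.mul hUA.ct, hV0.mul hEB.ct, ?_, ?_⟩
  · rw [mk_fun_eq hEA hUA hAmk f, hconv U0 UA _ hUA]
    exact h1
  · rw [mk_fun_eq hEA hUA hAmk f, hconv U0 UA _ hUA, hconv V0 EB _ hEB]
    exact h2

end Pool.Agent.H259R3.UO
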